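import Pool.Agent.LibMoser5.Defs
set_option autoImplicit false
/-!
# Counting squares and summing their sides

`sd n = 1/(n+1/2)`; blocks of consecutive indices are `Finset.Ico a b`.
-/
namespace Pool.Agent.LibMoserF
open Pool.Agent.LibMoser5 Classical

theorem sd_pos (n : ℕ) : 0 < sd n := by unfold sd; positivity

theorem sd_anti {m n : ℕ} (h : m ≤ n) : sd n ≤ sd m := by
  unfold sd
  apply one_div_le_one_div_of_le (by positivity)
  have : (m : ℝ) ≤ n := by exact_mod_cast h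
  linarith

theorem sd_lt {m n : ℕ} (h : m < n) : sd n < sd m := by
  unfold sd
  apply one_div_lt_one_div_of_lt (by positivity)
  have : (m : ℝ) < n := by exact_mod_cast h
  linarith

/-- the number of integers in a half open real interval -/
theorem card_Ico_real_le (S : Finset ℕ) (α β : ℝ) (hαβ : α ≤ β)
    (h : ∀ n ∈ S, α ≤ (n : ℝ) ∧ (n : ℝ) < β) : (S.card : ℝ) ≤ β - α + 1 := by
  rcases S.eq_empty_or_nonempty with rfl | hne
  · simp; linarith
  · obtain ⟨hm1, hm2⟩ := h _ (S.min'_mem hne)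
    obtain ⟨hM1, hM2⟩ := h _ (S.max'_mem hne)
    have hsub : S ⊆ Finset.Icc (S.min' hne) (S.max' hne) := by
      intro n hn
      exact Finset.mem_Icc.2 ⟨S.min'_le n hn, S.le_max' n hn⟩
    have hc := Finset.card_le_card hsub
    rw [Nat.card_Icc] at hc
    have hle : S.min' hne ≤ S.max' hne := S.min'_le _ (S.max'_mem hne)
    have h2 : ((S.max' hne + 1 - S.min' hne : ℕ) : ℝ) = (S.max' hne : ℝ) + 1 - S.min' hne := by
      rw [Nat.cast_sub (by omega)]
      push_cast
      ring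
    have h3 : (S.card : ℝ) ≤ ((S.max' hne + 1 - S.min' hne : ℕ) : ℝ) := by exact_mod_cast hc
    rw [h2] at h3
    linarith

/-- the number of squares of side in `[α, β)`, all with reciprocal side at most `A` -/
theorem card_sd_le (S : Finset ℕ) (α β A : ℝ) (hαβ : α ≤ β) (hA : 0 ≤ A)
    (hS : ∀ n ∈ S, (n : ℝ) + 1 / 2 ≤ A)
    (h : ∀ n ∈ S, α < sd n ∧ sd n ≤ β) : (S.card : ℝ) ≤ A ^ 2 * (β - α) + 1 := by
  rcases S.eq_empty_or_nonempty with rfl | hne
  · simp
    have : 0 ≤ A ^ 2 * (β - α) := mul_nonneg (by positivity) (by linarith)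
    linarith
  · have hle : S.min' hne ≤ S.max' hne := S.min'_le _ (S.max'_mem hne)
    obtain ⟨hm1, hm2⟩ := h _ (S.min'_mem hne)
    obtain ⟨hM1, hM2⟩ := h _ (S.max'_mem hne)
    have hmA := hS _ (S.min'_mem hne)
    have hMA := hS _ (S.max'_mem hne)
    have hsub : S ⊆ Finset.Icc (S.min' hne) (S.max' hne) := by
      intro n hn
      exact Finset.mem_Icc.2 ⟨S.min'_le n hn, S.le_max' n hn⟩
    have hc := Finset.card_le_card hsub
    rw [Nat.card_Icc] at hc
    have h2 : ((S.max' hne + 1 - S.min' hne : ℕ) : ℝ) = (S.max' hne : ℝ) + 1 - S.min' hne := by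
      rw [Nat.cast_sub (by omega)]
      push_cast
      ring
    have h3 : (S.card : ℝ) ≤ ((S.max' hne + 1 - S.min' hne : ℕ) : ℝ) := by exact_mod_cast hc
    rw [h2] at h3
    generalize S.max' hne = M at *
    generalize S.min' hne = m at *
    have hm0 : (0 : ℝ) ≤ (m : ℝ) := Nat.cast_nonneg _
    have hM0 : (0 : ℝ) ≤ (M : ℝ) := Nat.cast_nonneg _
    have hmM : (m : ℝ) ≤ M := by exact_mod_cast hle
    have h4 : sd m - sd M ≤ β - α := by linarith
    have h5 : sd m - sd M = ((M : ℝ) - m) / (((m : ℝ) + 1 / 2) * ((M : ℝ) + 1 / 2)) := by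
      unfold sd
      field_simp
      ring
    have h6 : ((M : ℝ) - m) = (sd m - sd M) * (((m : ℝ) + 1 / 2) * ((M : ℝ) + 1 / 2)) := by
      rw [h5]
      field_simp
    have h7 : ((m : ℝ) + 1 / 2) * ((M : ℝ) + 1 / 2) ≤ A ^ 2 := by
      rw [pow_two]
      exact mul_le_mul hmA hMA (by positivity) hA
    have h8 : 0 ≤ sd m - sd M := by
      have := sd_anti hle
      linarith
    have h9 : (sd m - sd M) * (((m : ℝ) + 1 / 2) * ((M : ℝ) + 1 / 2)) ≤ (β - α) * A ^ 2 :=
      mul_le_mul h4 h7 (by positivity) (by linarith)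
    nlinarith

/-- `log` bounds for one side -/
theorem sd_le_log (n : ℕ) (hn : 1 ≤ n) : sd n ≤ Real.log ((n + 1 : ℕ) : ℝ) - Real.log (n : ℝ) := by
  have hn0 : (0 : ℝ) < n := by exact_mod_cast hn
  rw [← Real.log_div (by positivity) (by positivity)]
  -- 2/(2n+1) ≤ log ((n+1)/n)
  have h := Real.hasSum_log_one_add_inv hn0
  have e : (1 + (n : ℝ)⁻¹) = ((n + 1 : ℕ) : ℝ) / n := by
    push_cast
    field_simp
  rw [e] at h
  have h0 := h.summable.sum_le_tsum (Finset.range 1) (fun i _ => by positivity)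
  rw [h.tsum_eq] at h0
  simp only [Finset.sum_range_one] at h0
  refine le_trans (le_of_eq ?_) h0
  unfold sd
  simp
  field_simp

theorem log_le_sd (n : ℕ) :
    Real.log ((n : ℝ) + 3 / 2) - Real.log ((n : ℝ) + 1 / 2) ≤ sd n := by
  rw [← Real.log_div (by positivity) (by positivity)]
  have h := Real.log_le_sub_one_of_pos (x := ((n : ℝ) + 3 / 2) / ((n : ℝ) + 1 / 2)) (by positivity)
  refine h.trans (le_of_eq ?_)
  unfold sd
  field_simp
  ring

theorem sum_sd_le (a b : ℕ) (ha : 1 ≤ a) (hab : a ≤ b) :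
    ∑ n ∈ Finset.Ico a b, sd n ≤ Real.log (b : ℝ) - Real.log (a : ℝ) := by
  induction b, hab using Nat.le_induction with
  | base => simp
  | succ b hb ih =>
    rw [Finset.sum_Ico_succ_top hb]
    have := sd_le_log b (ha.trans hb)
    linarith

theorem le_sum_sd (a b : ℕ) (hab : a ≤ b) :
    Real.log ((b : ℝ) + 1 / 2) - Real.log ((a : ℝ) + 1 / 2) ≤ ∑ n ∈ Finset.Ico a b, sd n := by
  induction b, hab using Nat.le_induction with
  | base => simp
  | succ b hb ih =>
    rw [Finset.sum_Ico_succ_top hb]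
    have := log_le_sd b
    push_cast
    have e : (b : ℝ) + 1 + 1 / 2 = (b : ℝ) + 3 / 2 := by ring
    rw [e]
    linarith

/-- squares: `sd n ^ 2` telescopes -/
theorem sd_sq_le (n : ℕ) (hn : 1 ≤ n) : sd n ^ 2 ≤ 1 / (n : ℝ) - 1 / ((n : ℝ) + 1) := by
  have hn0 : (0 : ℝ) < n := by exact_mod_cast hn
  have e : 1 / (n : ℝ) - 1 / ((n : ℝ) + 1) = 1 / ((n : ℝ) * (n + 1)) := by
    field_simp
    ring
  rw [e]
  unfold sd
  rw [div_pow, one_pow]
  apply one_div_le_one_div_of_le (by positivity)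
  nlinarith

theorem le_sd_sq (n : ℕ) : 1 / ((n : ℝ) + 1 / 2) - 1 / ((n : ℝ) + 3 / 2) ≤ sd n ^ 2 := by
  have e : 1 / ((n : ℝ) + 1 / 2) - 1 / ((n : ℝ) + 3 / 2) = 1 / (((n : ℝ) + 1 / 2) * ((n : ℝ) + 3 / 2)) := by
    field_simp
    ring
  rw [e]
  unfold sd
  rw [div_pow, one_pow]
  apply one_div_le_one_div_of_le (by positivity)
  nlinarith [(Nat.cast_nonneg n : (0 : ℝ) ≤ n)]

theorem sum_sd_sq_le (a b : ℕ) (ha : 1 ≤ a) (hab : a ≤ b) :
    ∑ n ∈ Finset.Ico a b, sd n ^ 2 ≤ 1 / (a : ℝ) - 1 / (b : ℝ) := by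
  induction b, hab using Nat.le_induction with
  | base => simp
  | succ b hb ih =>
    rw [Finset.sum_Ico_succ_top hb]
    have := sd_sq_le b (ha.trans hb)
    push_cast
    linarith

/-- the squares of a block sorted: bounds for the sum of sides by the cardinality -/
theorem sum_sd_card (S : Finset ℕ) (l u : ℕ) (h : ∀ n ∈ S, l ≤ n ∧ n ≤ u) :
    S.card * sd u ≤ ∑ n ∈ S, sd n ∧ ∑ n ∈ S, sd n ≤ S.card * sd l := by
  constructor
  · rw [← nsmul_eq_mul, ← Finset.sum_const]
    exact Finset.sum_le_sum (fun n hn => sd_anti (h n hn).2)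
  · rw [← nsmul_eq_mul, ← Finset.sum_const]
    exact Finset.sum_le_sum (fun n hn => sd_anti (h n hn).1)

end Pool.Agent.LibMoserF
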