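import Pool.Agent.LibMoserF.Fill
set_option autoImplicit false
/-!
# The row rule

A row `p × r` gets a list of squares of side at most `p`; a prefix is placed so that the rest of the
row is in `[β p, (1+β) p]`.
-/
namespace Pool.Agent.LibMoserF
open Pool.Agent.LibMoser5 Classical

noncomputable section

theorem row_prefix {p β : ℝ} (l : List ℕ) (r : ℝ) (h1 : ∀ n ∈ l, sd n ≤ p) (hr : β * p ≤ r)
    (hl : r - (l.map sd).sum ≤ (1 + β) * p) :
    ∃ u t : List ℕ, l = u ++ t ∧ β * p ≤ r - (u.map sd).sum ∧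
      r - (u.map sd).sum ≤ (1 + β) * p := by
  induction l generalizing r with
  | nil => exact ⟨[], [], rfl, by simpa using hr, by simpa using hl⟩
  | cons n l ih =>
    rcases le_or_gt r ((1 + β) * p) with h | h
    · exact ⟨[], n :: l, rfl, by simpa using hr, by simpa using h⟩
    · have h2 := h1 n (by simp)
      rw [List.map_cons, List.sum_cons] at hl
      obtain ⟨u, t, e, g1, g2⟩ := ih (r - sd n) (fun m hm => h1 m (by simp [hm]))
        (by linarith) (by linarith)
      refine ⟨n :: u, t, by rw [e]; rfl, ?_, ?_⟩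
      · rw [List.map_cons, List.sum_cons]; linarith
      · rw [List.map_cons, List.sum_cons]; linarith

/-- enough squares: `|l| ≥ (r - (1+β)p)/σ` -/
theorem row_enough {p β σ : ℝ} (l : List ℕ) (r : ℝ) (hσ : 0 < σ) (h1 : ∀ n ∈ l, σ ≤ sd n)
    (hl : (r - (1 + β) * p) / σ ≤ l.length) : r - (l.map sd).sum ≤ (1 + β) * p := by
  rw [div_le_iff₀ hσ] at hl
  have h2 : (l.length : ℝ) * σ ≤ (l.map sd).sum := by
    clear hl
    induction l with
    | nil => simp
    | cons n l ih =>
      have h3 := ih (fun m hm => h1 m (by simp [hm]))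
      have h4 := h1 n (by simp)
      rw [List.map_cons, List.sum_cons, List.length_cons]
      push_cast
      linarith
  linarith

/-- one row: from the set of assigned squares to a job -/
theorem row_rule {p r β σ : ℝ} (S : Finset ℕ) (hσ : 0 < σ) (hp : ∀ n ∈ S, sd n ≤ p)
    (hs : ∀ n ∈ S, σ ≤ sd n) (hr : β * p ≤ r) (hc : (r - (1 + β) * p) / σ ≤ (S.card : ℝ)) :
    ∃ u : List ℕ, (∀ n ∈ u, n ∈ S) ∧ u.Nodup ∧ β * p ≤ r - (u.map sd).sum ∧
      r - (u.map sd).sum ≤ (1 + β) * p := by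
  have hmem : ∀ n, n ∈ S.toList ↔ n ∈ S := fun n => Finset.mem_toList
  obtain ⟨u, t, e, g1, g2⟩ := row_prefix S.toList r (fun n hn => hp n ((hmem n).1 hn)) hr
    (row_enough S.toList r hσ (fun n hn => hs n ((hmem n).1 hn)) (by
      rw [Finset.length_toList]; exact hc))
  refine ⟨u, ?_, ?_, g1, g2⟩
  · intro n hn
    rw [← hmem, e]
    exact List.mem_append_left _ hn
  · have := S.nodup_toList
    rw [e] at this
    exact (List.nodup_append.1 this).1

/-- the end piece: sides `a ≤ b` with `β p ≤ a ≤ p ≤ b ≤ (1+β) p` -/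
theorem end_piece {p e β : ℝ} (hβ : 0 ≤ β) (hβ1 : β ≤ 1) (hp : 0 ≤ p) (h1 : β * p ≤ e)
    (h2 : e ≤ (1 + β) * p) :
    β * p ≤ (mm (p, e)).1 ∧ (mm (p, e)).1 ≤ p ∧ p ≤ (mm (p, e)).2 ∧ (mm (p, e)).2 ≤ (1 + β) * p := by
  unfold mm
  simp only
  refine ⟨le_min (by nlinarith) h1, min_le_left _ _, le_max_left _ _, max_le (by nlinarith) h2⟩

end

end Pool.Agent.LibMoserF
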