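import Pool.Agent.LibMoserF.CombBlock
set_option autoImplicit false
namespace Pool.Agent.LibMoserF
open Classical Pool.Agent.LibMoser5

noncomputable section

section
variable {W H : ℝ} {M R : ℕ} {n : ℕ → ℕ → ℕ}

theorem ar_reverse (c : Cb) : ar c.reverse = ar c := ar_perm (List.reverse_perm c)

theorem ar_walls : ar (walls W M R n) =
    ∑ j ∈ Finset.range (R + 1), (W - PX n (M + 1) j) * sd (n M j) := by
  unfold walls
  rw [ar_reverse, ar_map_range]

theorem ar_bots : ar (bots H M R n) =
    ∑ i ∈ Finset.range (M + 1), BY n H R i 0 * sd (n i 0) := by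
  unfold bots
  rw [ar_reverse, ar_map_range]

theorem car_holes : car (holes H M R n) = ∑ i ∈ Finset.range M, ∑ j ∈ Finset.range R,
    (BY n H R (i + 1) (j + 1) - BY n H R i (j + 1)) * (PX n (i + 1) j - PX n (i + 1) (j + 1)) := by
  unfold holes car
  rw [List.map_map]
  have : (ar ∘ fun q : ℕ × ℕ => [(BY n H R (q.1 + 1) (q.2 + 1) - BY n H R q.1 (q.2 + 1),
      PX n (q.1 + 1) q.2 - PX n (q.1 + 1) (q.2 + 1))]) = fun q : ℕ × ℕ =>
      (BY n H R (q.1 + 1) (q.2 + 1) - BY n H R q.1 (q.2 + 1)) *
        (PX n (q.1 + 1) q.2 - PX n (q.1 + 1) (q.2 + 1)) := by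
    funext q
    simp [ar]
  rw [this, prs_sum]

theorem HB.sum_hset (g : HB W H M R n) : ∑ k ∈ hset M R n, sd k ^ 2 =
    ∑ i ∈ Finset.range (M + 1), ∑ j ∈ Finset.range (R + 1), sd (n i j) ^ 2 := by
  unfold hset
  rw [Finset.sum_image, Finset.sum_product]
  intro q hq q' hq' e
  rw [Finset.mem_coe, Finset.mem_product, Finset.mem_range, Finset.mem_range] at hq hq'
  have := g.inj q.1 (by omega) q.2 (by omega) q'.1 (by omega) q'.2 (by omega) e
  exact Prod.ext this.1 this.2

theorem HB.area (g : HB W H M R n) :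
    car (walls W M R n :: bots H M R n :: [(BY n H R M 0, W - PX n (M + 1) 0)] :: holes H M R n) +
      ∑ k ∈ hset M R n, sd k ^ 2 = W * H := by
  have hA := grid_area g.grid
  rw [g.sum_hset, car_cons, car_cons, car_cons, ar_walls, ar_bots, car_holes]
  have h1 : ∀ i ∈ Finset.range (M + 1), ∑ j ∈ Finset.range (R + 1 + 1),
      (hx W M n (i + 1) j - hx W M n i j) * (hy H M R n i (j + 1) - hy H M R n i j) =
      BY n H R i 0 * sd (n i 0) + ∑ j ∈ Finset.range (R + 1), sd (n i j) ^ 2 := by
    intro i hi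
    rw [Finset.mem_range] at hi
    rw [Finset.sum_range_succ', add_comm]
    congr 1
    · rw [hx_lo (by omega), hx_lo (by omega), hy_zero, hy_mid (by omega), Nat.zero_sub, PX_succ']
      ring
    · refine Finset.sum_congr rfl (fun j hj => ?_)
      rw [Finset.mem_range] at hj
      rw [hx_mid (by omega), hx_mid (by omega), hy_mid (by omega), hy_mid (by omega), PX_succ',
        BY_succ (by omega)]
      ring
  have h2 : ∑ j ∈ Finset.range (R + 1 + 1),
      (hx W M n (M + 1 + 1) j - hx W M n (M + 1) j) *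
        (hy H M R n (M + 1) (j + 1) - hy H M R n (M + 1) j) =
      (W - PX n (M + 1) 0) * BY n H R M 0 +
      ∑ j ∈ Finset.range (R + 1), (W - PX n (M + 1) j) * sd (n M j) := by
    rw [Finset.sum_range_succ', add_comm]
    congr 1
    · rw [hx_hi, hx_lo (by omega), hy_zero, hy_right, Nat.zero_sub]
      ring
    · refine Finset.sum_congr rfl (fun j hj => ?_)
      rw [Finset.mem_range] at hj
      rw [hx_hi, hx_mid (by omega), hy_right, hy_right, BY_succ (by omega)]
      ring
  have h3 : ∑ i ∈ Finset.range (M + 1), ∑ j ∈ Finset.range (R + 1),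
      (hx W M n (i + 1) j - hx W M n (i + 1) (j + 1)) *
        (hy H M R n (i + 1) (j + 1) - hy H M R n i (j + 1)) =
      ∑ i ∈ Finset.range M, ∑ j ∈ Finset.range R,
        (BY n H R (i + 1) (j + 1) - BY n H R i (j + 1)) *
          (PX n (i + 1) j - PX n (i + 1) (j + 1)) := by
    rw [Finset.sum_range_succ]
    have e1 : ∑ j ∈ Finset.range (R + 1),
        (hx W M n (M + 1) j - hx W M n (M + 1) (j + 1)) *
          (hy H M R n (M + 1) (j + 1) - hy H M R n M (j + 1)) = 0 := by
      refine Finset.sum_eq_zero (fun j _ => ?_)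
      rw [hy_right, hy_mid le_rfl, sub_self, mul_zero]
    rw [e1, add_zero]
    refine Finset.sum_congr rfl (fun i hi => ?_)
    rw [Finset.mem_range] at hi
    rw [Finset.sum_range_succ']
    have e2 : hx W M n (i + 1) 0 - hx W M n (i + 1) (0 + 1) = 0 := by
      rw [hx_lo (by omega), hx_lo (by omega)]
      simp
    rw [e2, zero_mul, add_zero]
    refine Finset.sum_congr rfl (fun j hj => ?_)
    rw [hx_mid (by omega), hx_mid (by omega), hy_mid (by omega), hy_mid (by omega)]
    ring
  rw [Finset.sum_range_succ, Finset.sum_congr rfl h1, h2, h3, Finset.sum_add_distrib] at hA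
  rw [ar_cons, ar_nil]
  simp only at hA ⊢
  linarith

theorem pairwise_rev_range (k : ℕ) (f : ℕ → ℝ × ℝ) (h : ∀ i j, i ≤ j → j < k → (f i).1 ≤ (f j).1) :
    (((List.range k).map f).reverse).Pairwise (fun a b : ℝ × ℝ => b.1 ≤ a.1) := by
  rw [List.pairwise_reverse, List.pairwise_map]
  refine List.Pairwise.imp_of_mem ?_ (List.pairwise_lt_range (n := k))
  intro a b _ hb hab
  exact h a b hab.le (List.mem_range.1 hb)

theorem HB.walls_ok (g : HB W H M R n) : CbOK (walls W M R n) := by
  refine ⟨?_, ?_⟩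
  · intro a ha
    unfold walls at ha
    rw [List.mem_reverse, List.mem_map] at ha
    obtain ⟨j, hj, rfl⟩ := ha
    rw [List.mem_range] at hj
    have := g.xx (i := M + 1) (i' := M + 1) (j := j) (j' := 0) le_rfl le_rfl (by omega) (by omega)
    have h2 := g.hW
    exact ⟨by simp only; linarith, (sd_pos _).le⟩
  · unfold walls
    refine pairwise_rev_range _ _ ?_
    intro i j hij hj
    have := g.xx (i := M + 1) (i' := M + 1) (j := j) (j' := i) le_rfl le_rfl hij (by omega)
    simp only
    linarith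

theorem HB.bots_ok (g : HB W H M R n) : CbOK (bots H M R n) := by
  refine ⟨?_, ?_⟩
  · intro a ha
    unfold bots at ha
    rw [List.mem_reverse, List.mem_map] at ha
    obtain ⟨j, hj, rfl⟩ := ha
    rw [List.mem_range] at hj
    exact ⟨g.BY_zero (by omega), (sd_pos _).le⟩
  · unfold bots
    refine pairwise_rev_range _ _ ?_
    intro i j hij hj
    exact g.yy hij (by omega) le_rfl (by omega)

theorem HB.list_ok (g : HB W H M R n) :
    ∀ c ∈ (walls W M R n :: bots H M R n :: [(BY n H R M 0, W - PX n (M + 1) 0)] ::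
      holes H M R n), CbOK c := by
  intro c hc
  rcases List.mem_cons.1 hc with rfl | hc
  · exact g.walls_ok
  rcases List.mem_cons.1 hc with rfl | hc
  · exact g.bots_ok
  rcases List.mem_cons.1 hc with rfl | hc
  · exact ok_single (g.BY_zero le_rfl) (by linarith [g.hW])
  · unfold holes at hc
    obtain ⟨q, hq, rfl⟩ := List.mem_map.1 hc
    rw [mem_prs] at hq
    refine ok_single ?_ ?_
    · have := g.yy (i := q.1) (i' := q.1 + 1) (j := q.2 + 1) (j' := q.2 + 1) (by omega) (by omega)
        le_rfl (by omega)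
      linarith
    · have := g.xx (i := q.1 + 1) (i' := q.1 + 1) (j := q.2 + 1) (j' := q.2) le_rfl (by omega)
        (by omega) (by omega)
      linarith

/-- **Block rule for perfect packings.**  The single rectangle has thickness `H` and length `W`. -/
theorem PC.block {W₀ H₀ : ℝ} {C : List Cb} {P : Finset ℕ} (h : PC W₀ H₀ ([(H, W)] :: C) P)
    (g : HB W H M R n) (hP : ∀ i ≤ M, ∀ j ≤ R, n i j ∉ P) :
    PC W₀ H₀ (walls W M R n :: bots H M R n :: [(BY n H R M 0, W - PX n (M + 1) 0)] ::
      (holes H M R n ++ C)) (P ∪ hset M R n) := by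
  have h1 := LC.block g
  rw [ob_eq_St] at h1
  have h2 := h.loc (C' := walls W M R n :: bots H M R n ::
    [(BY n H R M 0, W - PX n (M + 1) 0)] :: holes H M R n) h1 g.list_ok ?_ ?_
  · exact h2
  · rw [g.area, ar_cons, ar_nil]
    simp only
    ring
  · rw [Finset.disjoint_left]
    intro k hk hk'
    obtain ⟨q, hq1, hq2, rfl⟩ := mem_hset.1 hk'
    exact hP q.1 hq1 q.2 hq2 hk

/-! Consecutive runs. -/

/-- index of the square `(i,j)` of a block of consecutive squares, row by row -/
def run (n0 m : ℕ) (i j : ℕ) : ℕ := n0 + j * m + i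

theorem HB.run {n0 : ℕ} (hW : ∑ i ∈ Finset.range (M + 1), sd (n0 + i) ≤ W)
    (hH : ∑ j ∈ Finset.range (R + 1), sd (n0 + j * (M + 1)) ≤ H) :
    HB W H M R (run n0 (M + 1)) := by
  refine ⟨?_, ?_, ?_, ?_, ?_⟩
  · intro i _ j _
    unfold LibMoserF.run; omega
  · intro i _ j _
    unfold LibMoserF.run
    nlinarith
  · unfold PX LibMoserF.run
    simpa using hW
  · unfold LibMoserF.run
    simpa using hH
  · intro i hi j hj i' hi' j' hj' e
    unfold LibMoserF.run at e
    have e2 : j * (M + 1) + i = j' * (M + 1) + i' := by omega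
    have h1 : (j * (M + 1) + i) / (M + 1) = j := by
      rw [Nat.add_comm, Nat.add_mul_div_right _ _ (Nat.succ_pos M), Nat.div_eq_of_lt (by omega)]
      omega
    have h2 : (j' * (M + 1) + i') / (M + 1) = j' := by
      rw [Nat.add_comm, Nat.add_mul_div_right _ _ (Nat.succ_pos M), Nat.div_eq_of_lt (by omega)]
      omega
    have h3 : j = j' := by rw [← h1, ← h2, e2]
    subst h3
    exact ⟨by omega, rfl⟩

theorem hset_run (n0 : ℕ) : hset M R (run n0 (M + 1)) = Finset.Ico n0 (n0 + (R + 1) * (M + 1)) := by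
  ext k
  rw [mem_hset, Finset.mem_Ico]
  constructor
  · rintro ⟨q, h1, h2, rfl⟩
    unfold LibMoserF.run
    constructor
    · omega
    · have : q.2 * (M + 1) ≤ R * (M + 1) := Nat.mul_le_mul_right _ h2
      have e : (R + 1) * (M + 1) = R * (M + 1) + (M + 1) := by ring
      omega
  · rintro ⟨h1, h2⟩
    refine ⟨((k - n0) % (M + 1), (k - n0) / (M + 1)), ?_, ?_, ?_⟩
    · have : (k - n0) % (M + 1) < M + 1 := Nat.mod_lt (k - n0) (Nat.succ_pos M)
      simp only
      omega
    · simp only
      have : (k - n0) / (M + 1) < R + 1 := by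
        rw [Nat.div_lt_iff_lt_mul (Nat.succ_pos M)]
        have e : (R + 1) * M.succ = (R + 1) * (M + 1) := rfl
        omega
      omega
    · unfold LibMoserF.run
      simp only
      have := Nat.div_add_mod (k - n0) (M + 1)
      have e : (k - n0) / (M + 1) * (M + 1) = (M + 1) * ((k - n0) / (M + 1)) := Nat.mul_comm _ _
      omega

theorem range'_pairwise (n0 K : ℕ) :
    (List.range' n0 K).Pairwise (fun m n => m ≤ n ∧ m ≠ n) := by
  have := List.pairwise_lt_range' (s := n0) (n := K)
  exact this.imp (fun h => ⟨h.le, h.ne⟩)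

theorem range'_toFinset (n0 K : ℕ) : (List.range' n0 K).toFinset = Finset.Ico n0 (n0 + K) := by
  ext k
  rw [List.mem_toFinset, List.mem_range'_1, Finset.mem_Ico]

end

end

end Pool.Agent.LibMoserF
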