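import Pool.Agent.LibMoserF.CombRow
set_option autoImplicit false
namespace Pool.Agent.LibMoserF
open Classical Pool.Agent.LibMoser5

noncomputable section

/-! Perfect packings with combs. -/

/-- area of a list of combs -/
def car (C : List Cb) : ℝ := (C.map ar).sum

theorem car_nil : car [] = 0 := by simp [car]
theorem car_cons (c : Cb) (C : List Cb) : car (c :: C) = ar c + car C := by simp [car]
theorem car_append (C D : List Cb) : car (C ++ D) = car C + car D := by simp [car]

/-- **Perfect packing with combs**: the combs `C` and the squares `P` fill `W × H`. -/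
structure PC (W H : ℝ) (C : List Cb) (P : Finset ℕ) : Prop where
  ok : ∀ c ∈ C, CbOK c
  lc : LC (ob 0 0 W H) C P
  area : car C + ∑ n ∈ P, sd n ^ 2 = W * H

section
variable {W H : ℝ} {C : List Cb} {P : Finset ℕ}

theorem ok_single {a b : ℝ} (ha : 0 ≤ a) (hb : 0 ≤ b) : CbOK [(a, b)] :=
  ⟨by simp [ha, hb], by simp⟩

theorem CbOK.tail {a : ℝ × ℝ} {c : Cb} (h : CbOK (a :: c)) : CbOK c :=
  ⟨fun b hb => h.1 b (List.mem_cons_of_mem _ hb), (List.pairwise_cons.1 h.2).2⟩

theorem CbOK.head {a : ℝ × ℝ} {c : Cb} (h : CbOK (a :: c)) : 0 ≤ a.1 ∧ 0 ≤ a.2 :=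
  h.1 a List.mem_cons_self

theorem CbOK.len {th l l' : ℝ} {c : Cb} (h : CbOK ((th, l) :: c)) (hl : 0 ≤ l') :
    CbOK ((th, l') :: c) := by
  refine ⟨?_, ?_⟩
  · intro b hb
    rcases List.mem_cons.1 hb with rfl | hb
    · exact ⟨h.head.1, hl⟩
    · exact h.1 b (List.mem_cons_of_mem _ hb)
  · have h2 := List.pairwise_cons.1 h.2
    exact List.pairwise_cons.2 ⟨fun b hb => h2.1 b hb, h2.2⟩

theorem PC.init (hW : 0 ≤ W) (hH : 0 ≤ H) : PC W H [[(H, W)]] ∅ := by
  refine ⟨?_, ?_, ?_⟩
  · intro c hc
    rw [List.mem_singleton] at hc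
    rw [hc]
    exact ok_single hH hW
  · refine LC.ofRegions [ob 0 0 W H] ?_ ?_ ?_
    · exact List.Forall₂.cons (isComb_ob 0 0 H W) List.Forall₂.nil
    · intro r hr
      rw [List.mem_singleton] at hr
      rw [hr]
    · exact List.pairwise_singleton _ _
  · simp only [car, ar, List.map_cons, List.map_nil, List.sum_cons, List.sum_nil,
      Finset.sum_empty]
    ring

/-- **local rule**: the head comb is replaced by a packing of its region -/
theorem PC.loc {c : Cb} {C' : List Cb} {P' : Finset ℕ} (h : PC W H (c :: C) P)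
    (h' : LC (St 0 0 c) C' P') (hok : ∀ d ∈ C', CbOK d)
    (ha : car C' + ∑ n ∈ P', sd n ^ 2 = ar c) (hP : Disjoint P P') :
    PC W H (C' ++ C) (P ∪ P') := by
  refine ⟨?_, h.lc.subst h' hP, ?_⟩
  · intro d hd
    rcases List.mem_append.1 hd with hd | hd
    · exact hok d hd
    · exact h.ok d (List.mem_cons_of_mem _ hd)
  · have h2 := h.area
    rw [car_cons] at h2
    rw [car_append, Finset.sum_union hP]
    linarith

/-- local rule without squares -/
theorem PC.loc0 {c : Cb} {C' : List Cb} (h : PC W H (c :: C) P)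
    (h' : LC (St 0 0 c) C' ∅) (hok : ∀ d ∈ C', CbOK d) (ha : car C' = ar c) :
    PC W H (C' ++ C) P := by
  have := h.loc h' hok (by simpa using ha) (Finset.disjoint_empty_right P)
  simpa using this

theorem PC.perm {C' : List Cb} (h : PC W H C P) (hp : C.Perm C') : PC W H C' P := by
  refine ⟨fun c hc => h.ok c (hp.symm.subset hc), h.lc.perm hp, ?_⟩
  rw [← h.area]
  congr 1
  exact ((hp.map ar).sum_eq).symm

/-- exchange the sides of a single rectangle -/
theorem PC.swap {a b : ℝ} (h : PC W H ([(a, b)] :: C) P) : PC W H ([(b, a)] :: C) P := by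
  have h0 := (h.ok _ List.mem_cons_self).head
  refine h.loc0 (C' := [[(b, a)]]) (LC.swapS a b) ?_ ?_
  · intro d hd
    rw [List.mem_singleton] at hd
    rw [hd]
    exact ok_single h0.2 h0.1
  · rw [car_cons, car_nil, ar_cons, ar_cons, ar_nil]
    simp only
    ring

/-- cut of the head tooth -/
theorem PC.cut {th l a : ℝ} {c : Cb} (h : PC W H (((th, l) :: c) :: C) P) (ha : 0 ≤ a)
    (hal : a ≤ l) : PC W H ([(th, a)] :: ((th, l - a) :: c) :: C) P := by
  have h0 := h.ok _ List.mem_cons_self
  have e : l = a + (l - a) := by ring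
  have h1 := LC.cutS th a (l - a) ha (by linarith) c
  rw [← e] at h1
  refine h.loc0 (C' := [[(th, a)], (th, l - a) :: c]) h1 ?_ ?_
  · intro d hd
    simp only [List.mem_cons, List.not_mem_nil, or_false] at hd
    rcases hd with rfl | rfl
    · exact ok_single h0.head.1 ha
    · exact h0.len (by linarith)
  · simp only [car_cons, car_nil, ar_cons, ar_nil]
    ring

/-- trim: the part of the head tooth above the next tooth becomes a single rectangle -/
theorem PC.trim {th l th' l' : ℝ} {c : Cb}
    (h : PC W H (((th, l) :: (th', l') :: c) :: C) P) :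
    PC W H ([(th - th', l)] :: ((th', l + l') :: c) :: C) P := by
  have h0 := h.ok _ List.mem_cons_self
  have h1 := h0.tail
  have h2 : th' ≤ th := (List.pairwise_cons.1 h0.2).1 (th', l') List.mem_cons_self
  have h3 : ∀ a ∈ c, a.1 ≤ th' := fun a ha => (List.pairwise_cons.1 h1.2).1 a ha
  have hl := h0.head.2
  have hl' := h1.head.2
  have ht' := h1.head.1
  simp only at hl hl' ht'
  refine h.loc0 (C' := [[(th - th', l)], (th', l + l') :: c]) (LC.trimS th l th' l' c ht' h3) ?_ ?_
  · intro d hd
    simp only [List.mem_cons, List.not_mem_nil, or_false] at hd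
    rcases hd with rfl | rfl
    · exact ok_single (by linarith) hl
    · exact h1.len (by linarith)
  · simp only [car_cons, car_nil, ar_cons, ar_nil]
    ring

/-- split of a comb -/
theorem PC.split {c1 c2 : Cb} (h : PC W H ((c1 ++ c2) :: C) P) : PC W H (c1 :: c2 :: C) P := by
  have h0 := h.ok _ List.mem_cons_self
  have h1 : CbOK c1 := ⟨fun a ha => h0.1 a (List.mem_append_left _ ha),
    (List.pairwise_append.1 h0.2).1⟩
  have h2 : CbOK c2 := ⟨fun a ha => h0.1 a (List.mem_append_right _ ha),
    (List.pairwise_append.1 h0.2).2.1⟩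
  refine h.loc0 (C' := [c1, c2]) (LC.splitS c1 c2 h1.1) ?_ ?_
  · intro d hd
    simp only [List.mem_cons, List.not_mem_nil, or_false] at hd
    rcases hd with rfl | rfl
    · exact h1
    · exact h2
  · simp only [car_cons, car_nil, ar_append]
    ring

/-- combs of area 0 can be forgotten -/
theorem PC.dropZ {c : Cb} (h : PC W H (c :: C) P) (h0 : ar c = 0) : PC W H C P := by
  have := h.loc0 (C' := []) (LC.nilS _) (by simp) (by rw [car_nil, h0])
  simpa using this

/-- a tooth of length 0 can be forgotten -/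
theorem PC.dropLen {c1 c2 : Cb} {t : ℝ} (h : PC W H ((c1 ++ (t, 0) :: c2) :: C) P) :
    PC W H ((c1 ++ c2) :: C) P := by
  have h0 := h.ok _ List.mem_cons_self
  refine h.loc0 (C' := [c1 ++ c2]) (LC.dropS c1 (t, 0) c2 rfl) ?_ ?_
  · intro d hd
    rw [List.mem_singleton] at hd
    rw [hd]
    refine ⟨?_, ?_⟩
    · intro a ha
      refine h0.1 a ?_
      rcases List.mem_append.1 ha with ha | ha
      · exact List.mem_append_left _ ha
      · exact List.mem_append_right _ (List.mem_cons_of_mem _ ha)
    · exact h0.2.sublist ((List.sublist_cons_self _ _).append_left c1)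
  · simp only [car_cons, car_nil, ar_append, ar_cons]
    ring

/-- teeth of thickness 0 at the end can be forgotten -/
theorem PC.dropEnd {c1 c2 : Cb} (h : PC W H ((c1 ++ c2) :: C) P) (h2 : ar c2 = 0) :
    PC W H (c1 :: C) P := by
  have h0 := h.split
  have h1 := h0.perm (List.Perm.swap c2 c1 C)
  exact h1.dropZ h2

/-- a full row in a single rectangle -/
theorem PC.rowS {th : ℝ} (u : List ℕ) (h : PC W H ([(th, (u.map sd).sum)] :: C) P)
    (hu : u.Pairwise (fun m n => m ≤ n ∧ m ≠ n)) (hth : ∀ n ∈ u, sd n ≤ th)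
    (hP : ∀ n ∈ u, n ∉ P) : PC W H (child th u :: C) (P ∪ u.toFinset) := by
  have hnd : u.Nodup := hu.imp (fun h => h.2)
  refine h.loc (C' := [child th u]) (LC.rowS th u hu hth) ?_ ?_ ?_
  · intro d hd
    rw [List.mem_singleton] at hd
    rw [hd]
    exact child_ok th u hu hth
  · rw [car_cons, car_nil, ar_cons, ar_nil, List.sum_toFinset _ hnd]
    simp only
    clear hP h hu hnd hth
    have h4 : ∀ l : List ℕ, ar (child th l) + (l.map (fun n => sd n ^ 2)).sum
        = th * (l.map sd).sum := by
      intro l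
      induction l with
      | nil => simp [ar, child]
      | cons a l ih =>
        rw [child, ar_append, ar_cons, ar_nil, List.map_cons, List.map_cons, List.sum_cons,
          List.sum_cons]
        simp only
        linear_combination ih
    have h5 := h4 u
    linarith
  · rw [Finset.disjoint_left]
    intro n hn hn'
    exact hP n (List.mem_toFinset.1 hn') hn

/-- **row** on the head tooth; the rest of the tooth is passed to the next tooth. -/
theorem PC.rowPass {th l th' l' : ℝ} {c : Cb} (u : List ℕ)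
    (h : PC W H (((th, l) :: (th', l') :: c) :: C) P)
    (hu : u.Pairwise (fun m n => m ≤ n ∧ m ≠ n)) (hth : ∀ n ∈ u, sd n ≤ th)
    (hsum : (u.map sd).sum ≤ l) (hP : ∀ n ∈ u, n ∉ P) :
    PC W H (child th u :: ((th', (l - (u.map sd).sum) + l') :: c) ::
      [(th - th', l - (u.map sd).sum)] :: C) (P ∪ u.toFinset) := by
  have hS : 0 ≤ (u.map sd).sum := List.sum_nonneg (fun x hx => by
    obtain ⟨m, _, rfl⟩ := List.mem_map.1 hx
    exact (sd_pos m).le)
  have h1 := h.cut hS hsum
  have h2 := (h1.rowS u hu hth hP).perm (List.Perm.swap _ _ _)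
  have h3 := h2.trim
  refine h3.perm ?_
  refine (List.Perm.swap _ _ _).trans ?_
  refine (List.Perm.cons _ (List.Perm.swap _ _ _)).trans ?_
  exact (List.Perm.swap _ _ _)

/-- **row** on the head tooth without passing. -/
theorem PC.row {th l : ℝ} {c : Cb} (u : List ℕ)
    (h : PC W H (((th, l) :: c) :: C) P)
    (hu : u.Pairwise (fun m n => m ≤ n ∧ m ≠ n)) (hth : ∀ n ∈ u, sd n ≤ th)
    (hsum : (u.map sd).sum ≤ l) (hP : ∀ n ∈ u, n ∉ P) :
    PC W H (child th u :: c :: [(th, l - (u.map sd).sum)] :: C) (P ∪ u.toFinset) := by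
  have hS : 0 ≤ (u.map sd).sum := List.sum_nonneg (fun x hx => by
    obtain ⟨m, _, rfl⟩ := List.mem_map.1 hx
    exact (sd_pos m).le)
  have h1 := h.cut hS hsum
  have h2 := (h1.rowS u hu hth hP).perm (List.Perm.swap _ _ _)
  have h3 : PC W H (([(th, l - (u.map sd).sum)] ++ c) :: child th u :: C) (P ∪ u.toFinset) := h2
  have h4 := h3.split
  refine h4.perm ?_
  refine (List.Perm.cons _ (List.Perm.swap _ _ _)).trans ?_
  refine (List.Perm.swap _ _ _).trans ?_
  exact List.Perm.cons _ (List.Perm.swap _ _ _)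

end

end

end Pool.Agent.LibMoserF
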