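import Pool.Agent.LibMoserF.Grid
set_option autoImplicit false
namespace Pool.Agent.LibMoserF
open Classical Pool.Agent.LibMoser5

/-! Perfect tilings: tilings together with the area identity. -/

/-- total area of a list of rectangles -/
noncomputable def ar (F : List (ℝ × ℝ)) : ℝ := (F.map (fun d => d.1 * d.2)).sum

/-- perfect tiling: free rectangles `F` and squares `P`, nothing is wasted -/
def PT (W H : ℝ) (F : List (ℝ × ℝ)) (P : Finset ℕ) : Prop :=
  Tiled W H F P ∧ ar F + ∑ n ∈ P, sd n ^ 2 = W * H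

theorem ar_nil : ar [] = 0 := by simp [ar]

theorem ar_cons (a : ℝ × ℝ) (F : List (ℝ × ℝ)) : ar (a :: F) = a.1 * a.2 + ar F := by
  simp [ar]

theorem ar_append (F G : List (ℝ × ℝ)) : ar (F ++ G) = ar F + ar G := by
  simp [ar]

theorem ar_perm {F G : List (ℝ × ℝ)} (h : F.Perm G) : ar F = ar G :=
  (h.map _).sum_eq

section
variable {W H : ℝ} {F : List (ℝ × ℝ)} {P : Finset ℕ}

theorem PT.init (hW : 0 ≤ W) (hH : 0 ≤ H) : PT W H [(W, H)] ∅ :=
  ⟨tiled_init hW hH, by simp [ar]⟩

theorem PT.perm {F' : List (ℝ × ℝ)} (h : PT W H F P) (hp : F.Perm F') : PT W H F' P :=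
  ⟨h.1.perm hp, by rw [← ar_perm hp]; exact h.2⟩

theorem PT.swap {a b : ℝ} (h : PT W H ((a, b) :: F) P) : PT W H ((b, a) :: F) P := by
  refine ⟨h.1.swap, ?_⟩
  have h2 := h.2
  rw [ar_cons] at h2 ⊢
  simp only at h2 ⊢
  linarith

theorem PT.mm {a : ℝ × ℝ} (h : PT W H (a :: F) P) : PT W H (mm a :: F) P := by
  obtain ⟨x, y⟩ := a
  rcases le_total x y with hxy | hxy
  · have : LibMoser5.mm (x, y) = (x, y) := by simp [LibMoser5.mm, hxy]
    rw [this]; exact h
  · have : LibMoser5.mm (x, y) = (y, x) := by simp [LibMoser5.mm, hxy]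
    rw [this]; exact h.swap

theorem PT.cut {a b b₁ : ℝ} (h : PT W H ((a, b) :: F) P) (h0 : 0 ≤ b₁) (h1 : b₁ ≤ b) :
    PT W H ((a, b₁) :: (a, b - b₁) :: F) P := by
  refine ⟨h.1.cut h0 h1, ?_⟩
  have h2 := h.2
  rw [ar_cons] at h2
  rw [ar_cons, ar_cons]
  simp only at h2 ⊢
  linarith

theorem PT.place {n : ℕ} (h : PT W H ((sd n, sd n) :: F) P) (hn : n ∉ P) :
    PT W H F (insert n P) := by
  refine ⟨h.1.place hn, ?_⟩
  have h2 := h.2
  rw [ar_cons] at h2
  rw [Finset.sum_insert hn]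
  simp only at h2
  linarith [sq (sd n)]

/-- one row of squares -/
theorem PT.row {τ b : ℝ} (u : List ℕ)
    (h : PT W H ((τ, b) :: F) P) (h1 : ∀ n ∈ u, sd n ≤ τ) (h2 : (u.map sd).sum ≤ b)
    (hnd : u.Nodup) (hdisj : ∀ n ∈ u, n ∉ P) :
    PT W H (u.map (fun n => (τ - sd n, sd n)) ++ (τ, b - (u.map sd).sum) :: F)
      (P ∪ u.toFinset) := by
  refine ⟨tiled_row u h.1 h1 h2 hnd hdisj, ?_⟩
  have h3 := h.2
  rw [ar_cons] at h3
  rw [ar_append, ar_cons]
  have hd : Disjoint P u.toFinset := by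
    rw [Finset.disjoint_left]
    intro n hn hn'
    exact hdisj n (List.mem_toFinset.1 hn') hn
  rw [Finset.sum_union hd, List.sum_toFinset _ hnd]
  have h4 : ∀ l : List ℕ, ar (l.map (fun n => (τ - sd n, sd n))) + (l.map (fun n => sd n ^ 2)).sum
      = τ * (l.map sd).sum := by
    intro l
    induction l with
    | nil => simp [ar]
    | cons a l ih =>
      rw [List.map_cons, List.map_cons, List.map_cons, ar_cons, List.sum_cons, List.sum_cons]
      simp only
      linear_combination ih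
  have h5 := h4 u
  simp only at h3 ⊢
  linear_combination h3 + h5

theorem PT.subst {d : ℝ × ℝ} {F' : List (ℝ × ℝ)} {P' : Finset ℕ}
    (h : PT W H (d :: F) P) (h' : PT d.1 d.2 F' P') (hP : Disjoint P P') :
    PT W H (F' ++ F) (P ∪ P') := by
  refine ⟨Tiled.subst h.1 h'.1 hP, ?_⟩
  have h2 := h.2
  have h3 := h'.2
  rw [ar_cons] at h2
  rw [ar_append, Finset.sum_union hP]
  linarith

/-- free rectangles of area 0 can be forgotten -/
theorem PT.drop {a : ℝ × ℝ} (h : PT W H (a :: F) P) (ha : a.1 * a.2 = 0) : PT W H F P := by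
  refine ⟨Tiled.sublist h.1 (List.sublist_cons_self a F), ?_⟩
  have h2 := h.2
  rw [ar_cons, ha] at h2
  linarith

end

theorem prs_sum (m r : ℕ) (f : ℕ × ℕ → ℝ) :
    ((prs m r).map f).sum = ∑ i ∈ Finset.range m, ∑ j ∈ Finset.range r, f (i, j) := by
  have h1 : ((prs m r).map f).sum = ∑ q ∈ (prs m r).toFinset, f q :=
    (List.sum_toFinset f (prs_nodup m r)).symm
  rw [h1, ← Finset.sum_product']
  refine Finset.sum_congr ?_ (fun _ _ => rfl)
  ext q
  rw [List.mem_toFinset, mem_prs, Finset.mem_product, Finset.mem_range, Finset.mem_range]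

/-- telescoping identity -/
theorem grid_telescope (m r : ℕ) (x y : ℕ → ℕ → ℝ) :
    ∑ i ∈ Finset.range m, ∑ j ∈ Finset.range r,
      ((x (i + 1) j - x i j) * (y i (j + 1) - y i j) +
        (x (i + 1) j - x (i + 1) (j + 1)) * (y (i + 1) (j + 1) - y i (j + 1))) =
      ∑ j ∈ Finset.range r, ((x m j * y m (j + 1) - x 0 j * y 0 (j + 1)) -
        (x m j * y m j - x 0 j * y 0 j)) +
      ∑ i ∈ Finset.range m, ((x (i + 1) r * y i r - x (i + 1) 0 * y i 0) -
        (x (i + 1) r * y (i + 1) r - x (i + 1) 0 * y (i + 1) 0)) := by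
  have e1 : ∀ i j, (x (i + 1) j - x i j) * (y i (j + 1) - y i j) +
        (x (i + 1) j - x (i + 1) (j + 1)) * (y (i + 1) (j + 1) - y i (j + 1)) =
      ((x (i + 1) j * y (i + 1) (j + 1) - x (i + 1) j * y (i + 1) j) -
        (x i j * y i (j + 1) - x i j * y i j)) +
      ((x (i + 1) (j + 1) * y i (j + 1) - x (i + 1) (j + 1) * y (i + 1) (j + 1)) -
        (x (i + 1) j * y i j - x (i + 1) j * y (i + 1) j)) := by
    intro i j; ring
  simp only [e1, Finset.sum_add_distrib]
  congr 1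
  · rw [Finset.sum_comm]
    refine Finset.sum_congr rfl (fun j _ => ?_)
    rw [Finset.sum_range_sub (fun i => x i j * y i (j + 1) - x i j * y i j)]
    ring
  · refine Finset.sum_congr rfl (fun i _ => ?_)
    rw [Finset.sum_range_sub (fun j => x (i + 1) j * y i j - x (i + 1) j * y (i + 1) j)]
    ring

theorem grid_area {W H : ℝ} {m r : ℕ} {x y : ℕ → ℕ → ℝ} (g : Grid W H (m + 1) (r + 1) x y) :
    ∑ i ∈ Finset.range (m + 1), ∑ j ∈ Finset.range (r + 1),
      (x (i + 1) j - x i j) * (y i (j + 1) - y i j) +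
    ∑ i ∈ Finset.range m, ∑ j ∈ Finset.range r,
      (x (i + 1) j - x (i + 1) (j + 1)) * (y (i + 1) (j + 1) - y i (j + 1)) = W * H := by
  let y' : ℕ → ℕ → ℝ := fun i j => if i < m + 1 then y i j else y m j
  have hy : ∀ i j, i < m + 1 → y' i j = y i j := fun i j h => if_pos h
  have hym : ∀ j, y' (m + 1) j = y m j := fun j => if_neg (by omega)
  have ht := grid_telescope (m + 1) (r + 1) x y'
  simp only [Finset.sum_add_distrib] at ht
  have h1 : ∑ i ∈ Finset.range (m + 1), ∑ j ∈ Finset.range (r + 1),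
      (x (i + 1) j - x i j) * (y' i (j + 1) - y' i j) =
      ∑ i ∈ Finset.range (m + 1), ∑ j ∈ Finset.range (r + 1),
      (x (i + 1) j - x i j) * (y i (j + 1) - y i j) := by
    refine Finset.sum_congr rfl (fun i hi => Finset.sum_congr rfl (fun j _ => ?_))
    rw [Finset.mem_range] at hi
    rw [hy i _ hi, hy i _ hi]
  have h2 : ∑ i ∈ Finset.range (m + 1), ∑ j ∈ Finset.range (r + 1),
      (x (i + 1) j - x (i + 1) (j + 1)) * (y' (i + 1) (j + 1) - y' i (j + 1)) =
      ∑ i ∈ Finset.range m, ∑ j ∈ Finset.range r,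
      (x (i + 1) j - x (i + 1) (j + 1)) * (y (i + 1) (j + 1) - y i (j + 1)) := by
    rw [Finset.sum_range_succ]
    have e1 : ∑ j ∈ Finset.range (r + 1),
        (x (m + 1) j - x (m + 1) (j + 1)) * (y' (m + 1) (j + 1) - y' m (j + 1)) = 0 := by
      refine Finset.sum_eq_zero (fun j _ => ?_)
      rw [hym, hy m _ (by omega), sub_self, mul_zero]
    rw [e1, add_zero]
    refine Finset.sum_congr rfl (fun i hi => ?_)
    rw [Finset.mem_range] at hi
    rw [Finset.sum_range_succ, hy (i + 1) _ (by omega), hy i _ (by omega),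
      g.yr (i + 1) (by omega), g.yr i (by omega), sub_self, mul_zero, add_zero]
    refine Finset.sum_congr rfl (fun j _ => ?_)
    rw [hy (i + 1) _ (by omega), hy i _ (by omega)]
  have h3 : ∑ j ∈ Finset.range (r + 1), (x (m + 1) j * y' (m + 1) (j + 1) - x 0 j * y' 0 (j + 1)) -
      ∑ j ∈ Finset.range (r + 1), (x (m + 1) j * y' (m + 1) j - x 0 j * y' 0 j) = W * H := by
    rw [← Finset.sum_sub_distrib]
    have : ∀ j ∈ Finset.range (r + 1), (x (m + 1) j * y' (m + 1) (j + 1) - x 0 j * y' 0 (j + 1)) -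
        (x (m + 1) j * y' (m + 1) j - x 0 j * y' 0 j) = W * y m (j + 1) - W * y m j := by
      intro j hj
      rw [Finset.mem_range] at hj
      rw [g.xm j hj, g.x0 j hj, hym, hym]
      ring
    rw [Finset.sum_congr rfl this, Finset.sum_range_sub (fun j => W * y m j),
      g.yr m (by omega), g.y0 m (by omega)]
    ring
  have h4 : ∑ i ∈ Finset.range (m + 1), (x (i + 1) (r + 1) * y' i (r + 1) - x (i + 1) 0 * y' i 0) -
      ∑ i ∈ Finset.range (m + 1),
        (x (i + 1) (r + 1) * y' (i + 1) (r + 1) - x (i + 1) 0 * y' (i + 1) 0) = 0 := by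
    rw [← Finset.sum_sub_distrib]
    refine Finset.sum_eq_zero (fun i hi => ?_)
    rw [Finset.mem_range] at hi
    have a1 : y' i (r + 1) = H := by rw [hy i _ hi, g.yr i hi]
    have a2 : y' i 0 = 0 := by rw [hy i _ hi, g.y0 i hi]
    have a3 : y' (i + 1) (r + 1) = H := by
      rcases Nat.lt_or_ge (i + 1) (m + 1) with h | h
      · rw [hy _ _ h, g.yr _ h]
      · have : i + 1 = m + 1 := by omega
        rw [this, hym, g.yr m (by omega)]
    have a4 : y' (i + 1) 0 = 0 := by
      rcases Nat.lt_or_ge (i + 1) (m + 1) with h | h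
      · rw [hy _ _ h, g.y0 _ h]
      · have : i + 1 = m + 1 := by omega
        rw [this, hym, g.y0 m (by omega)]
    rw [a1, a2, a3, a4]
    ring
  simp only [Finset.sum_sub_distrib] at ht h1 h2 h3 h4 ⊢
  linarith

end Pool.Agent.LibMoserF
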