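import Pool.Agent.LibMoserF.StripStep
set_option autoImplicit false
namespace Pool.Agent.LibMoserF
open Classical Pool.Agent.LibMoser5

noncomputable section

/-! Comb-shaped free regions.  A comb is a list of teeth `(thickness, length)`, thickest first,
side by side on a flat line. -/

/-- a comb -/
abbrev Cb := List (ℝ × ℝ)

/-- open box -/
def ob (x y w h : ℝ) : Set (ℝ × ℝ) := {q | x < q.1 ∧ q.1 < x + w ∧ y < q.2 ∧ q.2 < y + h}

/-- open square number `n` at `p` -/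
def sqr (n : ℕ) (p : ℝ × ℝ) : Set (ℝ × ℝ) := ob p.1 p.2 (sd n) (sd n)

/-- staircase region between the vertical line `x0` and the teeth, the first tooth ends at
`x + length` -/
def St (x0 : ℝ) : ℝ → Cb → Set (ℝ × ℝ)
  | _, [] => ∅
  | x, a :: c => {q | x0 < q.1 ∧ q.1 < x + a.2 ∧ 0 < q.2 ∧ q.2 < a.1} ∪ St x0 (x + a.2) c

/-- total length -/
def cl (c : Cb) : ℝ := (c.map Prod.snd).sum

theorem cl_nil : cl [] = 0 := by simp [cl]

theorem cl_cons (a : ℝ × ℝ) (c : Cb) : cl (a :: c) = a.2 + cl c := by simp [cl]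

theorem cl_append (c d : Cb) : cl (c ++ d) = cl c + cl d := by simp [cl]

/-- admissible combs -/
def CbOK (c : Cb) : Prop := (∀ a ∈ c, 0 ≤ a.1 ∧ 0 ≤ a.2) ∧ c.Pairwise (fun a b => b.1 ≤ a.1)

theorem cl_nonneg {c : Cb} (h : ∀ a ∈ c, 0 ≤ a.1 ∧ 0 ≤ a.2) : 0 ≤ cl c := by
  unfold cl
  apply List.sum_nonneg
  intro x hx
  obtain ⟨a, ha, rfl⟩ := List.mem_map.1 hx
  exact (h a ha).2

theorem St_append (x0 x : ℝ) (c d : Cb) : St x0 x (c ++ d) = St x0 x c ∪ St x0 (x + cl c) d := by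
  induction c generalizing x with
  | nil => simp [St, cl_nil]
  | cons a c ih =>
    rw [List.cons_append]
    simp only [St]
    rw [ih, Set.union_assoc, cl_cons, add_assoc]

theorem St_shift (x0 x d : ℝ) (c : Cb) :
    (fun q : ℝ × ℝ => (q.1 - d, q.2)) ⁻¹' (St x0 x c) = St (x0 + d) (x + d) c := by
  induction c generalizing x with
  | nil => simp [St]
  | cons a c ih =>
    simp only [St]
    rw [Set.preimage_union, ih]
    have e : x + a.2 + d = x + d + a.2 := by ring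
    rw [e]
    congr 1
    ext q
    simp only [Set.mem_preimage, Set.mem_ofPred_eq]
    constructor
    · rintro ⟨h1, h2, h3, h4⟩
      exact ⟨by linarith, by linarith, h3, h4⟩
    · rintro ⟨h1, h2, h3, h4⟩
      exact ⟨by linarith, by linarith, h3, h4⟩

theorem St_mono {x0 x0' x : ℝ} {c : Cb} (h : x0' ≤ x0) : St x0 x c ⊆ St x0' x c := by
  induction c generalizing x with
  | nil => simp [St]
  | cons a c ih =>
    simp only [St]
    refine Set.union_subset_union ?_ ih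
    rintro q ⟨h1, h2, h3, h4⟩
    exact ⟨by linarith, h2, h3, h4⟩

theorem St_bound {x0 x : ℝ} {c : Cb} (hc : ∀ a ∈ c, 0 ≤ a.1 ∧ 0 ≤ a.2) {q : ℝ × ℝ}
    (hq : q ∈ St x0 x c) : x0 < q.1 ∧ q.1 < x + cl c ∧ 0 < q.2 := by
  induction c generalizing x with
  | nil => simp [St] at hq
  | cons a c ih =>
    have hn := cl_nonneg (c := c) (fun b hb => hc b (List.mem_cons_of_mem _ hb))
    simp only [St] at hq
    rw [cl_cons]
    rcases hq with ⟨h1, h2, h3, h4⟩ | hq
    · exact ⟨h1, by linarith, h3⟩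
    · obtain ⟨h1, h2, h3⟩ := ih (fun b hb => hc b (List.mem_cons_of_mem _ hb)) hq
      exact ⟨h1, by linarith, h3⟩

theorem St_x0 {x0 x : ℝ} {c : Cb} {q : ℝ × ℝ} (hq : q ∈ St x0 x c) : x0 < q.1 ∧ 0 < q.2 := by
  induction c generalizing x with
  | nil => simp [St] at hq
  | cons a c ih =>
    simp only [St] at hq
    rcases hq with ⟨h1, h2, h3, h4⟩ | hq
    · exact ⟨h1, h3⟩
    · exact ih hq

theorem St_height {x0 x t : ℝ} {c : Cb} (hc : ∀ a ∈ c, a.1 ≤ t) {q : ℝ × ℝ}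
    (hq : q ∈ St x0 x c) : q.2 < t := by
  induction c generalizing x with
  | nil => simp [St] at hq
  | cons a c ih =>
    simp only [St] at hq
    rcases hq with ⟨h1, h2, h3, h4⟩ | hq
    · exact lt_of_lt_of_le h4 (hc a List.mem_cons_self)
    · exact ih (fun b hb => hc b (List.mem_cons_of_mem _ hb)) hq

/-! ### isometries -/

/-- isometries of the plane which preserve the directions of the axes -/
def IsIso (φ : ℝ × ℝ → ℝ × ℝ) : Prop :=
  ∃ a b σ τ : ℝ, (σ = 1 ∨ σ = -1) ∧ (τ = 1 ∨ τ = -1) ∧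
    ((∀ q, φ q = (a + σ * q.1, b + τ * q.2)) ∨ (∀ q, φ q = (a + σ * q.2, b + τ * q.1)))

theorem isIso_id : IsIso (fun q => q) :=
  ⟨0, 0, 1, 1, Or.inl rfl, Or.inl rfl, Or.inl (fun q => by simp)⟩

theorem isIso_shift (u v : ℝ) : IsIso (fun q => (q.1 - u, q.2 - v)) :=
  ⟨-u, -v, 1, 1, Or.inl rfl, Or.inl rfl, Or.inl (fun q => Prod.ext (by simp; ring) (by simp; ring))⟩

theorem isIso_rot (u v : ℝ) : IsIso (fun q => (u - q.1, v - q.2)) :=
  ⟨u, v, -1, -1, Or.inr rfl, Or.inr rfl, Or.inl (fun q => Prod.ext (by simp; ring) (by simp; ring))⟩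

theorem isIso_swap (u v : ℝ) : IsIso (fun q => (q.2 - u, q.1 - v)) :=
  ⟨-u, -v, 1, 1, Or.inl rfl, Or.inl rfl, Or.inr (fun q => Prod.ext (by simp; ring) (by simp; ring))⟩

theorem isIso_swaprot (u v : ℝ) : IsIso (fun q => (u - q.2, v - q.1)) :=
  ⟨u, v, -1, -1, Or.inr rfl, Or.inr rfl, Or.inr (fun q => Prod.ext (by simp; ring) (by simp; ring))⟩

/-- general signs -/
theorem isIso_gen (a b σ τ : ℝ) (hσ : σ = 1 ∨ σ = -1) (hτ : τ = 1 ∨ τ = -1) (sw : Bool) :
    IsIso (fun q => if sw then (a + σ * q.2, b + τ * q.1) else (a + σ * q.1, b + τ * q.2)) := by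
  cases sw
  · exact ⟨a, b, σ, τ, hσ, hτ, Or.inl (fun q => by simp)⟩
  · exact ⟨a, b, σ, τ, hσ, hτ, Or.inr (fun q => by simp)⟩

theorem sign_mul {σ τ : ℝ} (hσ : σ = 1 ∨ σ = -1) (hτ : τ = 1 ∨ τ = -1) :
    σ * τ = 1 ∨ σ * τ = -1 := by
  rcases hσ with rfl | rfl <;> rcases hτ with rfl | rfl <;> norm_num

theorem IsIso.comp {φ ψ : ℝ × ℝ → ℝ × ℝ} (h : IsIso φ) (h' : IsIso ψ) :
    IsIso (fun q => φ (ψ q)) := by
  obtain ⟨a, b, σ, τ, hσ, hτ, h⟩ := h
  obtain ⟨a', b', σ', τ', hσ', hτ', h'⟩ := h'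
  rcases h with h | h <;> rcases h' with h' | h'
  · refine ⟨a + σ * a', b + τ * b', σ * σ', τ * τ', sign_mul hσ hσ', sign_mul hτ hτ', Or.inl ?_⟩
    intro q
    show φ (ψ q) = _
    rw [h, h']
    exact Prod.ext (by simp only []; ring) (by simp only []; ring)
  · refine ⟨a + σ * a', b + τ * b', σ * σ', τ * τ', sign_mul hσ hσ', sign_mul hτ hτ', Or.inr ?_⟩
    intro q
    show φ (ψ q) = _
    rw [h, h']
    exact Prod.ext (by simp only []; ring) (by simp only []; ring)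
  · refine ⟨a + σ * b', b + τ * a', σ * τ', τ * σ', sign_mul hσ hτ', sign_mul hτ hσ', Or.inr ?_⟩
    intro q
    show φ (ψ q) = _
    rw [h, h']
    exact Prod.ext (by simp only []; ring) (by simp only []; ring)
  · refine ⟨a + σ * b', b + τ * a', σ * τ', τ * σ', sign_mul hσ hτ', sign_mul hτ hσ', Or.inl ?_⟩
    intro q
    show φ (ψ q) = _
    rw [h, h']
    exact Prod.ext (by simp only []; ring) (by simp only []; ring)

/-- the preimage of an open box is an open box with the same or the exchanged dimensions -/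
theorem IsIso.box {φ : ℝ × ℝ → ℝ × ℝ} (h : IsIso φ) (x y w k : ℝ) :
    ∃ x' y', φ ⁻¹' (ob x y w k) = ob x' y' w k ∨ φ ⁻¹' (ob x y w k) = ob x' y' k w := by
  obtain ⟨a, b, σ, τ, hσ, hτ, h⟩ := h
  rcases h with h | h
  · refine ⟨if σ = 1 then x - a else a - x - w, if τ = 1 then y - b else b - y - k, Or.inl ?_⟩
    ext q
    simp only [Set.mem_preimage, h, ob, Set.mem_ofPred_eq]
    rcases hσ with rfl | rfl <;> rcases hτ with rfl | rfl
    · simp only [if_true, one_mul]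
      constructor <;> rintro ⟨h1, h2, h3, h4⟩ <;> refine ⟨?_, ?_, ?_, ?_⟩ <;> linarith
    · rw [if_pos rfl, if_neg (by norm_num)]
      constructor <;> rintro ⟨h1, h2, h3, h4⟩ <;> refine ⟨?_, ?_, ?_, ?_⟩ <;> linarith
    · rw [if_pos rfl, if_neg (by norm_num)]
      constructor <;> rintro ⟨h1, h2, h3, h4⟩ <;> refine ⟨?_, ?_, ?_, ?_⟩ <;> linarith
    · rw [if_neg (by norm_num), if_neg (by norm_num)]
      constructor <;> rintro ⟨h1, h2, h3, h4⟩ <;> refine ⟨?_, ?_, ?_, ?_⟩ <;> linarith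
  · refine ⟨if τ = 1 then y - b else b - y - k, if σ = 1 then x - a else a - x - w, Or.inr ?_⟩
    ext q
    simp only [Set.mem_preimage, h, ob, Set.mem_ofPred_eq]
    rcases hσ with rfl | rfl <;> rcases hτ with rfl | rfl
    · simp only [if_true, one_mul]
      constructor <;> rintro ⟨h1, h2, h3, h4⟩ <;> refine ⟨?_, ?_, ?_, ?_⟩ <;> linarith
    · rw [if_pos rfl, if_neg (by norm_num)]
      constructor <;> rintro ⟨h1, h2, h3, h4⟩ <;> refine ⟨?_, ?_, ?_, ?_⟩ <;> linarith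
    · rw [if_pos rfl, if_neg (by norm_num)]
      constructor <;> rintro ⟨h1, h2, h3, h4⟩ <;> refine ⟨?_, ?_, ?_, ?_⟩ <;> linarith
    · rw [if_neg (by norm_num), if_neg (by norm_num)]
      constructor <;> rintro ⟨h1, h2, h3, h4⟩ <;> refine ⟨?_, ?_, ?_, ?_⟩ <;> linarith

theorem IsIso.sqr {φ : ℝ × ℝ → ℝ × ℝ} (h : IsIso φ) (n : ℕ) (p : ℝ × ℝ) :
    ∃ p', φ ⁻¹' (sqr n p) = sqr n p' := by
  obtain ⟨x', y', h1⟩ := h.box p.1 p.2 (sd n) (sd n)
  refine ⟨(x', y'), ?_⟩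
  unfold LibMoserF.sqr
  rcases h1 with h1 | h1 <;> rw [h1]

/-! ### local packings -/

/-- the region `r` is a copy of the comb `c` -/
def IsComb (r : Set (ℝ × ℝ)) (c : Cb) : Prop := ∃ φ, IsIso φ ∧ r = φ ⁻¹' (St 0 0 c)

/-- the combs `C` and the squares `P` are placed in `S` without overlap -/
def LC (S : Set (ℝ × ℝ)) (C : List Cb) (P : Finset ℕ) : Prop :=
  ∃ (R : List (Set (ℝ × ℝ))) (p : ℕ → ℝ × ℝ), List.Forall₂ IsComb R C ∧
    (∀ r ∈ R, r ⊆ S) ∧ R.Pairwise Disjoint ∧ (∀ n ∈ P, sqr n (p n) ⊆ S) ∧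
    (∀ r ∈ R, ∀ n ∈ P, Disjoint r (sqr n (p n))) ∧
    (∀ m ∈ P, ∀ n ∈ P, m ≠ n → Disjoint (sqr m (p m)) (sqr n (p n)))

theorem IsComb.pre {r : Set (ℝ × ℝ)} {c : Cb} (h : IsComb r c) {φ : ℝ × ℝ → ℝ × ℝ}
    (hφ : IsIso φ) : IsComb (φ ⁻¹' r) c := by
  obtain ⟨ψ, hψ, rfl⟩ := h
  exact ⟨fun q => ψ (φ q), hψ.comp hφ, rfl⟩

theorem LC.pre {S : Set (ℝ × ℝ)} {C : List Cb} {P : Finset ℕ} (h : LC S C P)
    {φ : ℝ × ℝ → ℝ × ℝ} (hφ : IsIso φ) : LC (φ ⁻¹' S) C P := by
  obtain ⟨R, p, h1, h2, h3, h4, h5, h6⟩ := h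
  have hp : ∀ n, ∃ p', φ ⁻¹' (sqr n (p n)) = sqr n p' := fun n => hφ.sqr n (p n)
  refine ⟨R.map (fun r => φ ⁻¹' r), fun n => Classical.choose (hp n), ?_, ?_, ?_, ?_, ?_, ?_⟩
  · rw [List.forall₂_map_left_iff]
    exact h1.imp (fun r c hr => hr.pre hφ)
  · intro r hr
    obtain ⟨r', hr', rfl⟩ := List.mem_map.1 hr
    exact Set.preimage_mono (h2 r' hr')
  · rw [List.pairwise_map]
    exact h3.imp (fun {a b} hab => Disjoint.preimage φ hab)
  · intro n hn
    rw [← Classical.choose_spec (hp n)]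
    exact Set.preimage_mono (h4 n hn)
  · intro r hr n hn
    obtain ⟨r', hr', rfl⟩ := List.mem_map.1 hr
    rw [← Classical.choose_spec (hp n)]
    exact Disjoint.preimage φ (h5 r' hr' n hn)
  · intro m hm n hn hmn
    rw [← Classical.choose_spec (hp n), ← Classical.choose_spec (hp m)]
    exact Disjoint.preimage φ (h6 m hm n hn hmn)

/-- **Substitution**: the first comb is replaced by a packing of its region. -/
theorem LC.subst {S : Set (ℝ × ℝ)} {c : Cb} {C C' : List Cb} {P P' : Finset ℕ}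
    (h : LC S (c :: C) P) (h' : LC (St 0 0 c) C' P') (hP : Disjoint P P') :
    LC S (C' ++ C) (P ∪ P') := by
  obtain ⟨R, p, h1, h2, h3, h4, h5, h6⟩ := h
  rw [List.forall₂_cons_right_iff] at h1
  obtain ⟨r, R0, ⟨φ, hφ, hr⟩, hR0, rfl⟩ := h1
  have h'' := h'.pre hφ
  rw [← hr] at h''
  obtain ⟨R', p', g1, g2, g3, g4, g5, g6⟩ := h''
  rw [List.pairwise_cons] at h3
  have hrS := h2 r List.mem_cons_self
  let q : ℕ → ℝ × ℝ := fun n => if n ∈ P' then p' n else p n
  have hq' : ∀ n ∈ P', q n = p' n := fun n hn => if_pos hn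
  have hq : ∀ n ∈ P, q n = p n := fun n hn => if_neg (Finset.disjoint_left.1 hP hn)
  refine ⟨R' ++ R0, q, List.rel_append g1 hR0, ?_, ?_, ?_, ?_, ?_⟩
  · intro a ha
    rcases List.mem_append.1 ha with ha | ha
    · exact (g2 a ha).trans hrS
    · exact h2 a (List.mem_cons_of_mem _ ha)
  · rw [List.pairwise_append]
    refine ⟨g3, h3.2, ?_⟩
    intro a ha b hb
    exact (h3.1 b hb).mono_left (g2 a ha)
  · intro n hn
    rcases Finset.mem_union.1 hn with hn | hn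
    · rw [hq n hn]; exact h4 n hn
    · rw [hq' n hn]; exact (g4 n hn).trans hrS
  · intro a ha n hn
    rcases List.mem_append.1 ha with ha | ha
    · rcases Finset.mem_union.1 hn with hn | hn
      · rw [hq n hn]
        exact (h5 r List.mem_cons_self n hn).mono_left (g2 a ha)
      · rw [hq' n hn]; exact g5 a ha n hn
    · rcases Finset.mem_union.1 hn with hn | hn
      · rw [hq n hn]; exact h5 a (List.mem_cons_of_mem _ ha) n hn
      · rw [hq' n hn]
        exact ((h3.1 a ha).symm).mono_right (g4 n hn)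
  · intro m hm n hn hmn
    rcases Finset.mem_union.1 hm with hm | hm
    · rcases Finset.mem_union.1 hn with hn | hn
      · rw [hq m hm, hq n hn]; exact h6 m hm n hn hmn
      · rw [hq m hm, hq' n hn]
        exact ((h5 r List.mem_cons_self m hm).symm).mono_right (g4 n hn)
    · rcases Finset.mem_union.1 hn with hn | hn
      · rw [hq' m hm, hq n hn]
        exact (h5 r List.mem_cons_self n hn).mono_left (g4 m hm)
      · rw [hq' m hm, hq' n hn]; exact g6 m hm n hn hmn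

theorem LC.perm {S : Set (ℝ × ℝ)} {C C' : List Cb} {P : Finset ℕ} (h : LC S C P)
    (hp : C.Perm C') : LC S C' P := by
  obtain ⟨R, p, h1, h2, h3, h4, h5, h6⟩ := h
  have h7 : Relation.Comp (List.Forall₂ (fun (c : Cb) (r : Set (ℝ × ℝ)) => IsComb r c))
      List.Perm C' R := by
    apply List.perm_comp_forall₂
    · exact hp.symm
    · exact h1.flip
  obtain ⟨R', h8, h9⟩ := h7
  refine ⟨R', p, h8.flip, ?_, ?_, h4, ?_, h6⟩
  · intro b hb
    exact h2 b (h9.subset hb)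
  · exact (h9.symm.pairwise_iff (fun {a b} h => h.symm)).1 h3
  · intro b hb
    exact h5 b (h9.subset hb)

end

end Pool.Agent.LibMoserF
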