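import Pool.Agent.LibMoserF.CombPT
set_option autoImplicit false
namespace Pool.Agent.LibMoserF
open Classical Pool.Agent.LibMoser5

noncomputable section

/-! The hanging block: `M+1` columns and `R+1` rows of squares hanging from the upper side of the
frame `W × H`.  The square in column `i`, row `j` (from below) has index `n i j`. -/

/-- lower side of the square `(i,j)` -/
def BY (n : ℕ → ℕ → ℕ) (H : ℝ) (R i j : ℕ) : ℝ :=
  H - ∑ l ∈ Finset.Ico j (R + 1), sd (n i l)

/-- hypotheses of the hanging block -/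
structure HB (W H : ℝ) (M R : ℕ) (n : ℕ → ℕ → ℕ) : Prop where
  mi : ∀ i < M, ∀ j ≤ R, n i j ≤ n (i + 1) j
  mj : ∀ i ≤ M, ∀ j < R, n i j ≤ n i (j + 1)
  hW : PX n (M + 1) 0 ≤ W
  hH : ∑ l ∈ Finset.range (R + 1), sd (n 0 l) ≤ H
  inj : ∀ i ≤ M, ∀ j ≤ R, ∀ i' ≤ M, ∀ j' ≤ R, n i j = n i' j' → i = i' ∧ j = j'

/-- coordinates of the extended grid -/
def hx (W : ℝ) (M : ℕ) (n : ℕ → ℕ → ℕ) (i j : ℕ) : ℝ :=
  if i ≤ M + 1 then PX n i (j - 1) else W

def hy (H : ℝ) (M R : ℕ) (n : ℕ → ℕ → ℕ) (i j : ℕ) : ℝ :=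
  if j = 0 then 0 else BY n H R (min i M) (j - 1)

section
variable {W H : ℝ} {M R : ℕ} {n : ℕ → ℕ → ℕ}

theorem BY_succ {i j : ℕ} (hj : j ≤ R) : BY n H R i (j + 1) = BY n H R i j + sd (n i j) := by
  unfold BY
  rw [Finset.sum_eq_sum_Ico_succ_bot (by omega : j < R + 1)]
  ring

theorem BY_top {i : ℕ} : BY n H R i (R + 1) = H := by
  unfold BY; simp

theorem HB.PX_anti (g : HB W H M R n) {i j : ℕ} (hi : i ≤ M + 1) (hj : j < R) :
    PX n i (j + 1) ≤ PX n i j := by
  unfold PX
  refine Finset.sum_le_sum (fun k hk => sd_anti (g.mj k ?_ j hj))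
  rw [Finset.mem_range] at hk
  omega

theorem HB.BY_mono (g : HB W H M R n) {i j : ℕ} (hi : i < M) :
    BY n H R i j ≤ BY n H R (i + 1) j := by
  unfold BY
  have : ∑ l ∈ Finset.Ico j (R + 1), sd (n (i + 1) l) ≤ ∑ l ∈ Finset.Ico j (R + 1), sd (n i l) := by
    refine Finset.sum_le_sum (fun k hk => sd_anti (g.mi i hi k ?_))
    rw [Finset.mem_Ico] at hk
    omega
  linarith

theorem HB.BY_zero (g : HB W H M R n) {i : ℕ} (hi : i ≤ M) : 0 ≤ BY n H R i 0 := by
  induction i with
  | zero =>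
    unfold BY
    have := g.hH
    rw [Finset.range_eq_Ico] at this
    linarith
  | succ i ih => exact (ih (by omega)).trans (g.BY_mono (by omega))

theorem PX_succ' (i j : ℕ) : PX n (i + 1) j = PX n i j + sd (n i j) := by
  unfold PX; rw [Finset.sum_range_succ]

theorem hx_lo {i j : ℕ} (hi : i ≤ M + 1) : hx W M n i j = PX n i (j - 1) := if_pos hi
theorem hx_mid {i j : ℕ} (hi : i ≤ M + 1) : hx W M n i (j + 1) = PX n i j := by
  rw [hx_lo hi, Nat.add_sub_cancel]
theorem hx_hi {j : ℕ} : hx W M n (M + 2) j = W := if_neg (by omega)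
theorem hy_zero {i : ℕ} : hy H M R n i 0 = 0 := if_pos rfl
theorem hy_mid {i j : ℕ} (hi : i ≤ M) : hy H M R n i (j + 1) = BY n H R i j := by
  unfold hy
  rw [if_neg (by omega), min_eq_left hi, Nat.add_sub_cancel]
theorem hy_right {j : ℕ} : hy H M R n (M + 1) (j + 1) = BY n H R M j := by
  unfold hy
  rw [if_neg (by omega), Nat.add_sub_cancel]
  congr 1
  omega

/-- the extended grid -/
theorem HB.grid (g : HB W H M R n) : Grid W H (M + 2) (R + 2) (hx W M n) (hy H M R n) := by
  have hXX : ∀ i ≤ M + 1, ∀ j' ≤ R, ∀ j, j ≤ j' → PX n i j' ≤ PX n i j := by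
    intro i hi j' hj' j hjj
    induction j', hjj using Nat.le_induction with
    | base => exact le_rfl
    | succ k hk ih => exact (g.PX_anti hi (by omega)).trans (ih (by omega))
  refine ⟨?_, ?_, ?_, ?_, ?_, ?_, ?_, ?_⟩
  · intro i hi j hj
    rcases Nat.lt_or_ge i (M + 1) with h | h
    · rw [hx_lo (by omega), hx_lo (by omega), PX_succ']
      linarith [sd_pos (n i (j - 1))]
    · have : i = M + 1 := by omega
      subst this
      rw [hx_lo (by omega), hx_hi]
      exact (hXX (M + 1) le_rfl _ (by omega) 0 (by omega)).trans g.hW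
  · intro i hi j hj
    rcases Nat.lt_or_ge i (M + 2) with h | h
    · rw [hx_lo (by omega), hx_lo (by omega)]
      exact hXX i (by omega) _ (by omega) _ (by omega)
    · have : i = M + 2 := by omega
      subst this
      rw [hx_hi, hx_hi]
  · intro i hi j hj
    have hmono : ∀ i ≤ M, ∀ j < R + 2, hy H M R n i j ≤ hy H M R n i (j + 1) := by
      intro i hi j hj
      rcases Nat.eq_zero_or_pos j with h0 | h0
      · subst h0
        rw [hy_zero, hy_mid hi]
        exact g.BY_zero hi
      · obtain ⟨k, rfl⟩ : ∃ k, j = k + 1 := ⟨j - 1, by omega⟩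
        rw [hy_mid hi, hy_mid hi, BY_succ (by omega)]
        linarith [sd_pos (n i k)]
    rcases Nat.lt_or_ge i (M + 1) with h | h
    · exact hmono i (by omega) j hj
    · have e : ∀ j, hy H M R n i j = hy H M R n M j := by
        intro j
        unfold hy
        have : min i M = min M M := by omega
        rw [this]
      rw [e, e]
      exact hmono M le_rfl j hj
  · intro i hi j hj
    rcases Nat.eq_zero_or_pos j with h0 | h0
    · subst h0
      rw [hy_zero, hy_zero]
    · obtain ⟨k, rfl⟩ : ∃ k, j = k + 1 := ⟨j - 1, by omega⟩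
      rcases Nat.lt_or_ge i M with h | h
      · rw [hy_mid h.le, hy_mid h]
        exact g.BY_mono h
      · have : i = M := by omega
        subst this
        rw [hy_mid le_rfl, hy_right]
  · intro j hj
    rw [hx_lo (by omega)]
    simp [PX]
  · intro j hj
    exact hx_hi
  · intro i hi
    exact hy_zero
  · intro i hi
    rcases Nat.lt_or_ge i (M + 1) with h | h
    · rw [hy_mid (by omega), BY_top]
    · have : i = M + 1 := by omega
      subst this
      rw [hy_right, BY_top]

/-- pieces beside the block, thickest first -/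
def walls (W : ℝ) (M R : ℕ) (n : ℕ → ℕ → ℕ) : Cb :=
  ((List.range (R + 1)).map (fun j => (W - PX n (M + 1) j, sd (n M j)))).reverse

/-- pieces below the block, thickest first -/
def bots (H : ℝ) (M R : ℕ) (n : ℕ → ℕ → ℕ) : Cb :=
  ((List.range (M + 1)).map (fun i => (BY n H R i 0, sd (n i 0)))).reverse

/-- the holes of the block -/
def holes (H : ℝ) (M R : ℕ) (n : ℕ → ℕ → ℕ) : List Cb :=
  (prs M R).map (fun q => [(BY n H R (q.1 + 1) (q.2 + 1) - BY n H R q.1 (q.2 + 1),
    PX n (q.1 + 1) q.2 - PX n (q.1 + 1) (q.2 + 1))])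

/-- membership in the region of a reversed list of teeth -/
theorem mem_St_rev (f G : ℕ → ℝ) (k : ℕ) (x0 x : ℝ) (q : ℝ × ℝ) :
    q ∈ St x0 x (((List.range k).map (fun i => (f i, G (i + 1) - G i))).reverse) ↔
      ∃ i < k, x0 < q.1 ∧ q.1 < x + (G k - G i) ∧ 0 < q.2 ∧ q.2 < f i := by
  induction k generalizing x with
  | zero => simp [St]
  | succ k ih =>
    rw [List.range_succ, List.map_append, List.map_cons, List.map_nil, List.reverse_append]
    simp only [List.reverse_cons, List.reverse_nil, List.nil_append, List.cons_append]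
    simp only [St]
    rw [Set.mem_union, ih]
    constructor
    · rintro (⟨h1, h2, h3, h4⟩ | ⟨i, hi, h1, h2, h3, h4⟩)
      · exact ⟨k, by omega, h1, h2, h3, h4⟩
      · exact ⟨i, by omega, h1, by linarith, h3, h4⟩
    · rintro ⟨i, hi, h1, h2, h3, h4⟩
      rcases Nat.lt_or_ge i k with h | h
      · right
        exact ⟨i, h, h1, by linarith, h3, h4⟩
      · left
        have : i = k := by omega
        subst this
        exact ⟨h1, h2, h3, h4⟩

/-- region of the walls -/
def wallR (W H : ℝ) (M R : ℕ) (n : ℕ → ℕ → ℕ) : Set (ℝ × ℝ) :=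
  (fun q : ℝ × ℝ => (H - q.2, W - q.1)) ⁻¹' (St 0 0 (walls W M R n))

/-- region of the bottoms -/
def botR (H : ℝ) (M R : ℕ) (n : ℕ → ℕ → ℕ) : Set (ℝ × ℝ) :=
  (fun q : ℝ × ℝ => (PX n (M + 1) 0 - q.1, q.2)) ⁻¹' (St 0 0 (bots H M R n))

theorem mem_wallR {q : ℝ × ℝ} : q ∈ wallR W H M R n ↔ ∃ j < R + 1,
    BY n H R M j < q.2 ∧ q.2 < H ∧ PX n (M + 1) j < q.1 ∧ q.1 < W := by
  unfold wallR walls
  have e : (List.range (R + 1)).map (fun j => (W - PX n (M + 1) j, sd (n M j))) =
      (List.range (R + 1)).map (fun j => (W - PX n (M + 1) j,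
        BY n H R M (j + 1) - BY n H R M j)) := by
    refine List.map_congr_left (fun j hj => ?_)
    rw [List.mem_range] at hj
    rw [BY_succ (by omega)]
    congr 1
    ring
  rw [e, Set.mem_preimage, mem_St_rev (fun j => W - PX n (M + 1) j) (fun j => BY n H R M j)]
  simp only [BY_top]
  constructor
  · rintro ⟨j, hj, h1, h2, h3, h4⟩
    exact ⟨j, hj, by linarith, by linarith, by linarith, by linarith⟩
  · rintro ⟨j, hj, h1, h2, h3, h4⟩
    exact ⟨j, hj, by linarith, by linarith, by linarith, by linarith⟩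

theorem mem_botR {q : ℝ × ℝ} : q ∈ botR H M R n ↔ ∃ i < M + 1,
    PX n i 0 < q.1 ∧ q.1 < PX n (M + 1) 0 ∧ 0 < q.2 ∧ q.2 < BY n H R i 0 := by
  unfold botR bots
  have e : (List.range (M + 1)).map (fun i => (BY n H R i 0, sd (n i 0))) =
      (List.range (M + 1)).map (fun i => (BY n H R i 0, PX n (i + 1) 0 - PX n i 0)) := by
    refine List.map_congr_left (fun j hj => ?_)
    rw [PX_succ']
    congr 1
    ring
  rw [e, Set.mem_preimage, mem_St_rev (fun i => BY n H R i 0) (fun i => PX n i 0)]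
  constructor
  · rintro ⟨j, hj, h1, h2, h3, h4⟩
    exact ⟨j, hj, by linarith, by linarith, by linarith, by linarith⟩
  · rintro ⟨j, hj, h1, h2, h3, h4⟩
    exact ⟨j, hj, by linarith, by linarith, by linarith, by linarith⟩

theorem HB.xx (g : HB W H M R n) {i i' j j' : ℕ} (h : i ≤ i') (h' : i' ≤ M + 1) (k : j' ≤ j)
    (k' : j ≤ R) : PX n i j ≤ PX n i' j' := by
  have := g.grid.xx (i := i) (i' := i') (j := j + 1) (j' := j' + 1) h (by omega) (by omega)
    (by omega)
  rwa [hx_mid (by omega), hx_mid (by omega)] at this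

theorem HB.yy (g : HB W H M R n) {i i' j j' : ℕ} (h : i ≤ i') (h' : i' ≤ M) (k : j ≤ j')
    (k' : j' ≤ R + 1) : BY n H R i j ≤ BY n H R i' j' := by
  have := g.grid.yy (i := i) (i' := i') (j := j + 1) (j' := j' + 1) h (by omega) (by omega)
    (by omega)
  rwa [hy_mid (by omega), hy_mid (by omega)] at this

theorem disjoint_of_sep {b b' : Box} (h : b.Sep b') : Disjoint (bs b) (bs b') := by
  rw [Set.disjoint_left]
  intro q hq hq'
  simp only [bs, ob, Set.mem_ofPred_eq] at hq hq'
  rcases h with h | h | h | h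
  · linarith [hq.2.1, hq'.1]
  · linarith [hq'.2.1, hq.1]
  · linarith [hq.2.2.2, hq'.2.2.1]
  · linarith [hq'.2.2.2, hq.2.2.1]

theorem subset_of_inside {b : Box} (h : b.Inside W H) : bs b ⊆ ob 0 0 W H := by
  intro q hq
  obtain ⟨h1, h2, h3, h4, h5, h6⟩ := h
  simp only [bs, ob, Set.mem_ofPred_eq] at hq ⊢
  exact ⟨by linarith [hq.1], by linarith [hq.2.1], by linarith [hq.2.2.1],
    by linarith [hq.2.2.2]⟩

/-- the hole `(i,j)` as a box -/
def hbox (H : ℝ) (R : ℕ) (n : ℕ → ℕ → ℕ) (q : ℕ × ℕ) : Box :=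
  ⟨PX n (q.1 + 1) (q.2 + 1), BY n H R q.1 (q.2 + 1), PX n (q.1 + 1) q.2 - PX n (q.1 + 1) (q.2 + 1),
    BY n H R (q.1 + 1) (q.2 + 1) - BY n H R q.1 (q.2 + 1)⟩

/-- the square `(i,j)` as a box -/
def sbox (H : ℝ) (R : ℕ) (n : ℕ → ℕ → ℕ) (q : ℕ × ℕ) : Box :=
  sq (n q.1 q.2) (PX n q.1 q.2, BY n H R q.1 q.2)

theorem hbox_eq {q : ℕ × ℕ} (h1 : q.1 < M) :
    hbox H R n q = ghole (hx W M n) (hy H M R n) (q.1, q.2 + 1) := by
  unfold hbox ghole
  simp only
  rw [hx_mid (by omega), hx_mid (by omega), hy_mid (by omega), hy_mid (by omega)]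

theorem sbox_eq {q : ℕ × ℕ} (h1 : q.1 ≤ M) (h2 : q.2 ≤ R) :
    sbox H R n q = gcell (hx W M n) (hy H M R n) (q.1, q.2 + 1) := by
  unfold sbox gcell LibMoser5.sq
  simp only
  rw [hx_mid (by omega), hx_mid (by omega), hy_mid (by omega), hy_mid (by omega), PX_succ',
    BY_succ (by omega)]
  congr 1 <;> ring

/-- the squares of the block -/
def hset (M R : ℕ) (n : ℕ → ℕ → ℕ) : Finset ℕ :=
  (Finset.range (M + 1) ×ˢ Finset.range (R + 1)).image (fun q => n q.1 q.2)

theorem mem_hset {k : ℕ} : k ∈ hset M R n ↔ ∃ q : ℕ × ℕ, q.1 ≤ M ∧ q.2 ≤ R ∧ n q.1 q.2 = k := by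
  unfold hset
  rw [Finset.mem_image]
  constructor
  · rintro ⟨q, hq, rfl⟩
    rw [Finset.mem_product, Finset.mem_range, Finset.mem_range] at hq
    exact ⟨q, by omega, by omega, rfl⟩
  · rintro ⟨q, hi, hj, rfl⟩
    refine ⟨q, ?_, rfl⟩
    rw [Finset.mem_product, Finset.mem_range, Finset.mem_range]
    omega

/-- **Block rule.** -/
theorem LC.block (g : HB W H M R n) :
    LC (ob 0 0 W H) (walls W M R n :: bots H M R n ::
      [(BY n H R M 0, W - PX n (M + 1) 0)] :: holes H M R n) (hset M R n) := by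
  -- position function
  have hpos : ∀ k, ∃ p : ℝ × ℝ, ∀ q : ℕ × ℕ, q.1 ≤ M → q.2 ≤ R → n q.1 q.2 = k →
      p = (PX n q.1 q.2, BY n H R q.1 q.2) := by
    intro k
    by_cases hk : ∃ q : ℕ × ℕ, q.1 ≤ M ∧ q.2 ≤ R ∧ n q.1 q.2 = k
    · obtain ⟨q, h1, h2, h3⟩ := hk
      refine ⟨(PX n q.1 q.2, BY n H R q.1 q.2), ?_⟩
      intro q' h1' h2' h3'
      have := g.inj q'.1 h1' q'.2 h2' q.1 h1 q.2 h2 (h3'.trans h3.symm)
      rw [this.1, this.2]
    · refine ⟨(0, 0), ?_⟩
      intro q h1 h2 h3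
      exact absurd ⟨q, h1, h2, h3⟩ hk
  choose p hp using hpos
  have hsq : ∀ q : ℕ × ℕ, q.1 ≤ M → q.2 ≤ R → sqr (n q.1 q.2) (p (n q.1 q.2)) =
      bs (sbox H R n q) := by
    intro q h1 h2
    rw [hp _ q h1 h2 rfl]
    rfl
  -- membership in squares
  have msq : ∀ (q : ℕ × ℕ) (z : ℝ × ℝ), q.1 ≤ M → q.2 ≤ R → z ∈ bs (sbox H R n q) →
      PX n q.1 q.2 < z.1 ∧ z.1 < PX n (q.1 + 1) q.2 ∧ BY n H R q.1 q.2 < z.2 ∧
        z.2 < BY n H R q.1 (q.2 + 1) := by
    intro q z h1 h2 hz
    rw [PX_succ', BY_succ h2]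
    exact hz
  have mho : ∀ (q : ℕ × ℕ) (z : ℝ × ℝ), z ∈ bs (hbox H R n q) →
      PX n (q.1 + 1) (q.2 + 1) < z.1 ∧ z.1 < PX n (q.1 + 1) q.2 ∧ BY n H R q.1 (q.2 + 1) < z.2 ∧
        z.2 < BY n H R (q.1 + 1) (q.2 + 1) := by
    intro q z hz
    simp only [bs, ob, hbox, Set.mem_ofPred_eq] at hz
    exact ⟨hz.1, by linarith [hz.2.1], hz.2.2.1, by linarith [hz.2.2.2]⟩
  have mco : ∀ z : ℝ × ℝ, z ∈ ob (PX n (M + 1) 0) 0 (W - PX n (M + 1) 0) (BY n H R M 0) →
      PX n (M + 1) 0 < z.1 ∧ z.1 < W ∧ 0 < z.2 ∧ z.2 < BY n H R M 0 := by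
    intro z hz
    simp only [ob, Set.mem_ofPred_eq] at hz
    exact ⟨hz.1, by linarith [hz.2.1], hz.2.2.1, by linarith [hz.2.2.2]⟩
  have hPX0 : ∀ j, PX n 0 j = 0 := fun j => by simp [PX]
  refine ⟨wallR W H M R n :: botR H M R n ::
    ob (PX n (M + 1) 0) 0 (W - PX n (M + 1) 0) (BY n H R M 0) ::
    (prs M R).map (fun q => bs (hbox H R n q)), p, ?_, ?_, ?_, ?_, ?_, ?_⟩
  · refine List.Forall₂.cons ?_ (List.Forall₂.cons ?_ (List.Forall₂.cons ?_ ?_))
    · exact ⟨_, isIso_swaprot H W, rfl⟩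
    · refine ⟨_, ?_, rfl⟩
      refine ⟨PX n (M + 1) 0, 0, -1, 1, Or.inr rfl, Or.inl rfl, Or.inl (fun q => ?_)⟩
      exact Prod.ext (by simp; ring) (by simp)
    · exact isComb_ob _ _ _ _
    · unfold holes
      rw [List.forall₂_map_left_iff, List.forall₂_map_right_iff]
      exact List.forall₂_same.2 (fun q _ => isComb_ob _ _ _ _)
  · intro r hr
    rcases List.mem_cons.1 hr with rfl | hr
    · intro z hz
      obtain ⟨j, hj, h1, h2, h3, h4⟩ := mem_wallR.1 hz
      have h5 := g.yy (i := 0) (i' := M) (j := 0) (j' := j) (by omega) le_rfl (by omega) (by omega)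
      have h6 := g.BY_zero (i := 0) (by omega)
      have h7 := g.xx (i := 0) (i' := M + 1) (j := j) (j' := j) (by omega) le_rfl le_rfl (by omega)
      rw [hPX0] at h7
      simp only [ob, Set.mem_ofPred_eq]
      exact ⟨by linarith, by linarith, by linarith, by linarith⟩
    rcases List.mem_cons.1 hr with rfl | hr
    · intro z hz
      obtain ⟨i, hi, h1, h2, h3, h4⟩ := mem_botR.1 hz
      have h5 := g.yy (i := i) (i' := i) (j := 0) (j' := R + 1) le_rfl (by omega) (by omega) le_rfl
      rw [BY_top] at h5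
      have h7 := g.xx (i := 0) (i' := i) (j := 0) (j' := 0) (by omega) (by omega) le_rfl (by omega)
      rw [hPX0] at h7
      have h8 := g.hW
      simp only [ob, Set.mem_ofPred_eq]
      exact ⟨by linarith, by linarith, by linarith, by linarith⟩
    rcases List.mem_cons.1 hr with rfl | hr
    · intro z hz
      obtain ⟨h1, h2, h3, h4⟩ := mco z hz
      have h5 := g.yy (i := M) (i' := M) (j := 0) (j' := R + 1) le_rfl (by omega) (by omega) le_rfl
      rw [BY_top] at h5
      have h7 := g.xx (i := 0) (i' := M + 1) (j := 0) (j' := 0) (by omega) le_rfl le_rfl (by omega)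
      rw [hPX0] at h7
      simp only [ob, Set.mem_ofPred_eq]
      exact ⟨by linarith, by linarith, by linarith, by linarith⟩
    · obtain ⟨q, hq, rfl⟩ := List.mem_map.1 hr
      rw [mem_prs] at hq
      rw [hbox_eq hq.1]
      exact subset_of_inside (g.grid.hole_inside (by simp only; omega) (by simp only; omega))
  · refine List.Pairwise.cons ?_ (List.Pairwise.cons ?_ (List.Pairwise.cons ?_ ?_))
    · intro r hr
      rw [Set.disjoint_left]
      intro z hz hz'
      obtain ⟨j, hj, h1, h2, h3, h4⟩ := mem_wallR.1 hz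
      rcases List.mem_cons.1 hr with rfl | hr
      · obtain ⟨i, hi, k1, k2, k3, k4⟩ := mem_botR.1 hz'
        have := g.yy (i := i) (i' := M) (j := 0) (j' := j) (by omega) le_rfl (by omega) (by omega)
        linarith
      rcases List.mem_cons.1 hr with rfl | hr
      · obtain ⟨k1, k2, k3, k4⟩ := mco z hz'
        have := g.yy (i := M) (i' := M) (j := 0) (j' := j) (by omega) le_rfl (by omega) (by omega)
        linarith
      · obtain ⟨q, hq, rfl⟩ := List.mem_map.1 hr
        rw [mem_prs] at hq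
        obtain ⟨k1, k2, k3, k4⟩ := mho q z hz'
        rcases Nat.lt_or_ge q.2 j with h | h
        · have := g.yy (i := q.1 + 1) (i' := M) (j := q.2 + 1) (j' := j) (by omega) le_rfl
            (by omega) (by omega)
          linarith
        · have := g.xx (i := q.1 + 1) (i' := M + 1) (j := q.2) (j' := j) (by omega) le_rfl
            (by omega) (by omega)
          linarith
    · intro r hr
      rw [Set.disjoint_left]
      intro z hz hz'
      obtain ⟨i, hi, h1, h2, h3, h4⟩ := mem_botR.1 hz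
      rcases List.mem_cons.1 hr with rfl | hr
      · obtain ⟨k1, k2, k3, k4⟩ := mco z hz'
        linarith
      · obtain ⟨q, hq, rfl⟩ := List.mem_map.1 hr
        rw [mem_prs] at hq
        obtain ⟨k1, k2, k3, k4⟩ := mho q z hz'
        rcases Nat.lt_or_ge q.1 i with h | h
        · have := g.xx (i := q.1 + 1) (i' := i) (j := q.2) (j' := 0) (by omega) (by omega)
            (by omega) (by omega)
          linarith
        · have := g.yy (i := i) (i' := q.1) (j := 0) (j' := q.2 + 1) (by omega) (by omega)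
            (by omega) (by omega)
          linarith
    · intro r hr
      rw [Set.disjoint_left]
      intro z hz hz'
      obtain ⟨h1, h2, h3, h4⟩ := mco z hz
      obtain ⟨q, hq, rfl⟩ := List.mem_map.1 hr
      rw [mem_prs] at hq
      obtain ⟨k1, k2, k3, k4⟩ := mho q z hz'
      have := g.xx (i := q.1 + 1) (i' := M + 1) (j := q.2) (j' := 0) (by omega) (by omega)
        (by omega) (by omega)
      linarith
    · rw [List.pairwise_map]
      refine (prs_nodup M R).pairwise_of_forall_ne ?_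
      intro a ha b hb hab
      rw [mem_prs] at ha hb
      rw [hbox_eq ha.1, hbox_eq hb.1]
      refine disjoint_of_sep (g.grid.hole_hole (by simp only; omega) (by simp only; omega)
        (by simp only; omega) (by simp only; omega) ?_)
      intro e
      rw [Prod.mk.injEq] at e
      exact hab (Prod.ext e.1 (by omega))
  · intro k hk
    obtain ⟨q, h1, h2, rfl⟩ := mem_hset.1 hk
    rw [hsq q h1 h2, sbox_eq h1 h2]
    exact subset_of_inside (g.grid.cell_inside (by simp only; omega) (by simp only; omega))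
  · intro r hr k hk
    obtain ⟨q, hq1, hq2, rfl⟩ := mem_hset.1 hk
    rw [hsq q hq1 hq2]
    rcases List.mem_cons.1 hr with rfl | hr
    · rw [Set.disjoint_left]
      intro z hz hz'
      obtain ⟨j, hj, h1, h2, h3, h4⟩ := mem_wallR.1 hz
      obtain ⟨k1, k2, k3, k4⟩ := msq q z hq1 hq2 hz'
      rcases Nat.lt_or_ge q.2 j with h | h
      · have := g.yy (i := q.1) (i' := M) (j := q.2 + 1) (j' := j) (by omega) le_rfl
          (by omega) (by omega)
        linarith
      · have := g.xx (i := q.1 + 1) (i' := M + 1) (j := q.2) (j' := j) (by omega) le_rfl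
          (by omega) (by omega)
        linarith
    rcases List.mem_cons.1 hr with rfl | hr
    · rw [Set.disjoint_left]
      intro z hz hz'
      obtain ⟨i, hi, h1, h2, h3, h4⟩ := mem_botR.1 hz
      obtain ⟨k1, k2, k3, k4⟩ := msq q z hq1 hq2 hz'
      rcases Nat.lt_or_ge q.1 i with h | h
      · have := g.xx (i := q.1 + 1) (i' := i) (j := q.2) (j' := 0) (by omega) (by omega)
          (by omega) (by omega)
        linarith
      · have := g.yy (i := i) (i' := q.1) (j := 0) (j' := q.2) (by omega) (by omega)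
          (by omega) (by omega)
        linarith
    rcases List.mem_cons.1 hr with rfl | hr
    · rw [Set.disjoint_left]
      intro z hz hz'
      obtain ⟨h1, h2, h3, h4⟩ := mco z hz
      obtain ⟨k1, k2, k3, k4⟩ := msq q z hq1 hq2 hz'
      have := g.xx (i := q.1 + 1) (i' := M + 1) (j := q.2) (j' := 0) (by omega) (by omega)
        (by omega) (by omega)
      linarith
    · obtain ⟨q', hq', rfl⟩ := List.mem_map.1 hr
      rw [mem_prs] at hq'
      rw [hbox_eq hq'.1, sbox_eq hq1 hq2]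
      refine (disjoint_of_sep (g.grid.cell_hole (by simp only; omega) (by simp only; omega)
        (by simp only; omega) (by simp only; omega))).symm
  · intro k hk l hl hkl
    obtain ⟨q, hq1, hq2, rfl⟩ := mem_hset.1 hk
    obtain ⟨q', hq1', hq2', rfl⟩ := mem_hset.1 hl
    rw [hsq q hq1 hq2, hsq q' hq1' hq2', sbox_eq hq1 hq2, sbox_eq hq1' hq2']
    refine disjoint_of_sep (g.grid.cell_cell (by simp only; omega) (by simp only; omega)
      (by simp only; omega) (by simp only; omega) ?_)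
    intro e
    rw [Prod.mk.injEq] at e
    apply hkl
    rw [show q = q' from Prod.ext e.1 (by omega)]

end

end

end Pool.Agent.LibMoserF
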