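import Pool.Agent.LibMoserF.CombPC
set_option autoImplicit false
namespace Pool.Agent.LibMoserF
open Classical Pool.Agent.LibMoser5

noncomputable section

/-! From packings with combs to packings with rectangles. -/

/-- open set of a box -/
def bs (b : Box) : Set (ℝ × ℝ) := ob b.x b.y b.w b.h

theorem sep_of_disjoint {b b' : Box} (hw : 0 < b.w) (hh : 0 < b.h) (hw' : 0 < b'.w)
    (hh' : 0 < b'.h) (h : Disjoint (bs b) (bs b')) : b.Sep b' := by
  by_contra hc
  unfold Box.Sep at hc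
  rw [not_or, not_or, not_or, not_le, not_le, not_le, not_le] at hc
  obtain ⟨h1, h2, h3, h4⟩ := hc
  obtain ⟨u, hu1, hu2⟩ : ∃ u, max b.x b'.x < u ∧ u < min (b.x + b.w) (b'.x + b'.w) := by
    refine exists_between ?_
    rw [max_lt_iff, lt_min_iff, lt_min_iff]
    exact ⟨⟨by linarith, h2⟩, ⟨h1, by linarith⟩⟩
  obtain ⟨v, hv1, hv2⟩ : ∃ v, max b.y b'.y < v ∧ v < min (b.y + b.h) (b'.y + b'.h) := by
    refine exists_between ?_
    rw [max_lt_iff, lt_min_iff, lt_min_iff]
    exact ⟨⟨by linarith, h4⟩, ⟨h3, by linarith⟩⟩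
  rw [max_lt_iff] at hu1 hv1
  rw [lt_min_iff] at hu2 hv2
  exact Set.disjoint_left.1 h
    (show ((u, v) : ℝ × ℝ) ∈ bs b from ⟨hu1.1, hu2.1, hv1.1, hv2.1⟩)
    ⟨hu1.2, hu2.2, hv1.2, hv2.2⟩

theorem inside_of_subset {W H : ℝ} {b : Box} (hw : 0 < b.w) (hh : 0 < b.h)
    (h : bs b ⊆ ob 0 0 W H) : b.Inside W H := by
  have key : ∀ u v : ℝ, b.x < u → u < b.x + b.w → b.y < v → v < b.y + b.h →
      0 < u ∧ u < W ∧ 0 < v ∧ v < H := by
    intro u v h1 h2 h3 h4
    have := h (a := (u, v)) ⟨h1, h2, h3, h4⟩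
    simp only [ob, Set.mem_ofPred_eq, zero_add] at this
    exact this
  have hm1 : b.x < b.x + b.w / 2 := by linarith
  have hm2 : b.x + b.w / 2 < b.x + b.w := by linarith
  have hm3 : b.y < b.y + b.h / 2 := by linarith
  have hm4 : b.y + b.h / 2 < b.y + b.h := by linarith
  refine ⟨hw.le, hh.le, ?_, ?_, ?_, ?_⟩
  · by_contra hc
    rw [not_le] at hc
    obtain ⟨u, hu1, hu2⟩ : ∃ u, b.x < u ∧ u < min 0 (b.x + b.w) :=
      exists_between (lt_min hc (by linarith))
    rw [lt_min_iff] at hu2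
    linarith [(key u _ hu1 hu2.2 hm3 hm4).1]
  · by_contra hc
    rw [not_le] at hc
    obtain ⟨u, hu1, hu2⟩ : ∃ u, max b.x W < u ∧ u < b.x + b.w :=
      exists_between (max_lt (by linarith) hc)
    rw [max_lt_iff] at hu1
    linarith [(key u _ hu1.1 hu2 hm3 hm4).2.1]
  · by_contra hc
    rw [not_le] at hc
    obtain ⟨u, hu1, hu2⟩ : ∃ u, b.y < u ∧ u < min 0 (b.y + b.h) :=
      exists_between (lt_min hc (by linarith))
    rw [lt_min_iff] at hu2
    linarith [(key _ u hm1 hm2 hu1 hu2.2).2.2.1]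
  · by_contra hc
    rw [not_le] at hc
    obtain ⟨u, hu1, hu2⟩ : ∃ u, max b.y H < u ∧ u < b.y + b.h :=
      exists_between (max_lt (by linarith) hc)
    rw [max_lt_iff] at hu1
    linarith [(key _ u hm1 hm2 hu1.1 hu2).2.2.2]

/-- the positive teeth -/
def posT (c : Cb) : Cb := c.filter (fun a => 0 < a.1 ∧ 0 < a.2)

theorem ar_posT {c : Cb} (h : ∀ a ∈ c, 0 ≤ a.1 ∧ 0 ≤ a.2) : ar (posT c) = ar c := by
  unfold posT
  induction c with
  | nil => rfl
  | cons a c ih =>
    have h0 := h a List.mem_cons_self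
    have ih' := ih (fun b hb => h b (List.mem_cons_of_mem _ hb))
    rw [List.filter_cons]
    split_ifs with hp
    · rw [ar_cons, ar_cons, ih']
    · rw [ar_cons, ih']
      have : a.1 * a.2 = 0 := by
        simp only [decide_eq_true_eq, not_and_or, not_lt] at hp
        rcases hp with hp | hp
        · rw [le_antisymm hp h0.1, zero_mul]
        · rw [le_antisymm hp h0.2, mul_zero]
      linarith

theorem posT_append (c d : Cb) : posT (c ++ d) = posT c ++ posT d := by
  unfold posT; rw [List.filter_append]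

/-- boxes of the teeth -/
theorem tooth_boxes (c : Cb) (x : ℝ) (hx : 0 ≤ x) (hc : ∀ a ∈ c, 0 ≤ a.1 ∧ 0 ≤ a.2) :
    ∃ B : List Box, List.Forall₂ Box.Dims B (posT c) ∧
      (∀ b ∈ B, 0 < b.w ∧ 0 < b.h ∧ x ≤ b.x ∧ bs b ⊆ St 0 x c) ∧
      B.Pairwise (fun b b' => Disjoint (bs b) (bs b')) := by
  induction c generalizing x with
  | nil => exact ⟨[], by simp [posT], by simp, List.Pairwise.nil⟩
  | cons a c ih =>
    have h0 := hc a List.mem_cons_self
    obtain ⟨B, h1, h2, h3⟩ := ih (x + a.2) (by linarith)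
      (fun b hb => hc b (List.mem_cons_of_mem _ hb))
    have h2' : ∀ b ∈ B, 0 < b.w ∧ 0 < b.h ∧ x ≤ b.x ∧ bs b ⊆ St 0 x (a :: c) := by
      intro b hb
      obtain ⟨g1, g2, g3, g4⟩ := h2 b hb
      exact ⟨g1, g2, by linarith, g4.trans Set.subset_union_right⟩
    by_cases hp : 0 < a.1 ∧ 0 < a.2
    · refine ⟨⟨x, 0, a.2, a.1⟩ :: B, ?_, ?_, ?_⟩
      · have : posT (a :: c) = a :: posT c := by
          unfold posT
          rw [List.filter_cons_of_pos (by simpa using hp)]
        rw [this]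
        exact List.Forall₂.cons (Or.inr ⟨rfl, rfl⟩) h1
      · intro b hb
        rcases List.mem_cons.1 hb with rfl | hb
        · refine ⟨hp.2, hp.1, le_rfl, ?_⟩
          intro q hq
          simp only [bs, ob, Set.mem_ofPred_eq, zero_add] at hq
          left
          exact ⟨by linarith [hq.1], hq.2.1, hq.2.2.1, hq.2.2.2⟩
        · exact h2' b hb
      · refine List.Pairwise.cons ?_ h3
        intro b hb
        rw [Set.disjoint_left]
        intro q hq hq'
        simp only [bs, ob, Set.mem_ofPred_eq] at hq hq'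
        have := (h2 b hb).2.2.1
        linarith [hq.2.1, hq'.1]
    · refine ⟨B, ?_, h2', h3⟩
      have : posT (a :: c) = posT c := by
        unfold posT
        rw [List.filter_cons_of_neg (by simpa using hp)]
      rw [this]
      exact h1

/-- transport of a box by an isometry -/
theorem IsIso.bx {φ : ℝ × ℝ → ℝ × ℝ} (h : IsIso φ) (b : Box) :
    ∃ b' : Box, bs b' = φ ⁻¹' (bs b) ∧ (∀ d, b.Dims d → b'.Dims d) ∧
      (0 < b.w → 0 < b.h → 0 < b'.w ∧ 0 < b'.h) := by
  obtain ⟨x', y', h1 | h1⟩ := h.box b.x b.y b.w b.h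
  · refine ⟨⟨x', y', b.w, b.h⟩, ?_, ?_, fun h1 h2 => ⟨h1, h2⟩⟩
    · rw [bs, bs, h1]
    · exact fun d hd => hd
  · refine ⟨⟨x', y', b.h, b.w⟩, ?_, ?_, fun h1 h2 => ⟨h2, h1⟩⟩
    · rw [bs, bs, h1]
    · intro d hd
      rcases hd with hd | hd
      · exact Or.inr ⟨hd.2, hd.1⟩
      · exact Or.inl ⟨hd.2, hd.1⟩

/-- boxes of a list of combs -/
theorem comb_boxes {R : List (Set (ℝ × ℝ))} {C : List Cb} (h : List.Forall₂ IsComb R C)
    (hd : R.Pairwise Disjoint) (hc : ∀ c ∈ C, ∀ a ∈ c, 0 ≤ a.1 ∧ 0 ≤ a.2) :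
    ∃ B : List Box, List.Forall₂ Box.Dims B (posT C.flatten) ∧
      (∀ b ∈ B, 0 < b.w ∧ 0 < b.h ∧ ∃ r ∈ R, bs b ⊆ r) ∧
      B.Pairwise (fun b b' => Disjoint (bs b) (bs b')) := by
  induction h with
  | nil => exact ⟨[], by simp [posT], by simp, List.Pairwise.nil⟩
  | @cons r c R C hr _ ih =>
    rw [List.pairwise_cons] at hd
    obtain ⟨B, h1, h2, h3⟩ := ih hd.2 (fun d hd => hc d (List.mem_cons_of_mem _ hd))
    obtain ⟨φ, hφ, rfl⟩ := hr
    obtain ⟨A, g1, g2, g3⟩ := tooth_boxes c 0 le_rfl (hc c List.mem_cons_self)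
    choose f hf using fun b : Box => hφ.bx b
    refine ⟨A.map f ++ B, ?_, ?_, ?_⟩
    · rw [List.flatten_cons, posT_append]
      refine List.rel_append ?_ h1
      rw [List.forall₂_map_left_iff]
      exact g1.imp (fun b d hb => (hf b).2.1 d hb)
    · intro b hb
      rcases List.mem_append.1 hb with hb | hb
      · obtain ⟨a, ha, rfl⟩ := List.mem_map.1 hb
        obtain ⟨k1, k2, k3, k4⟩ := g2 a ha
        have k5 := (hf a).2.2 k1 k2
        refine ⟨k5.1, k5.2, _, List.mem_cons_self, ?_⟩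
        rw [(hf a).1]
        exact Set.preimage_mono k4
      · obtain ⟨k1, k2, r, hr, k3⟩ := h2 b hb
        exact ⟨k1, k2, r, List.mem_cons_of_mem _ hr, k3⟩
    · rw [List.pairwise_append]
      refine ⟨?_, h3, ?_⟩
      · rw [List.pairwise_map]
        refine g3.imp ?_
        intro a b hab
        rw [(hf a).1, (hf b).1]
        exact Disjoint.preimage φ hab
      · intro a ha b hb
        obtain ⟨a', ha', rfl⟩ := List.mem_map.1 ha
        obtain ⟨_, _, r, hr, k3⟩ := h2 b hb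
        rw [(hf a').1]
        exact (hd.1 r hr).mono (Set.preimage_mono (g2 a' ha').2.2.2) k3

theorem bs_sq (n : ℕ) (p : ℝ × ℝ) : bs (sq n p) = sqr n p := rfl

/-- **From combs to rectangles.** -/
theorem PC.toPT {W H : ℝ} {C : List Cb} {P : Finset ℕ} (h : PC W H C P) :
    PT W H (posT C.flatten) P := by
  have hc : ∀ c ∈ C, ∀ a ∈ c, 0 ≤ a.1 ∧ 0 ≤ a.2 := fun c hc => (h.ok c hc).1
  refine ⟨?_, ?_⟩
  · obtain ⟨R, p, h1, h2, h3, h4, h5, h6⟩ := h.lc
    obtain ⟨B, k1, k2, k3⟩ := comb_boxes h1 h3 hc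
    refine ⟨B, p, k1, ?_, ?_, ?_, ?_, ?_⟩
    · intro b hb
      obtain ⟨a1, a2, r, hr, a3⟩ := k2 b hb
      exact inside_of_subset a1 a2 (a3.trans (h2 r hr))
    · refine List.Pairwise.imp_of_mem ?_ k3
      intro a b ha hb hab
      exact sep_of_disjoint (k2 a ha).1 (k2 a ha).2.1 (k2 b hb).1 (k2 b hb).2.1 hab
    · intro n hn
      exact inside_of_subset (sd_pos n) (sd_pos n) (h4 n hn)
    · intro b hb n hn
      obtain ⟨a1, a2, r, hr, a3⟩ := k2 b hb
      refine sep_of_disjoint a1 a2 (sd_pos n) (sd_pos n) ?_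
      rw [bs_sq]
      exact (h5 r hr n hn).mono_left a3
    · intro m hm n hn hmn
      refine sep_of_disjoint (sd_pos m) (sd_pos m) (sd_pos n) (sd_pos n) ?_
      rw [bs_sq, bs_sq]
      exact h6 m hm n hn hmn
  · have e : ar (posT C.flatten) = car C := by
      rw [ar_posT]
      · unfold car
        clear h
        induction C with
        | nil => rfl
        | cons c C ih =>
          rw [List.flatten_cons, ar_append, List.map_cons, List.sum_cons,
            ih (fun d hd => hc d (List.mem_cons_of_mem _ hd))]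
      · intro a ha
        obtain ⟨c, hc1, hc2⟩ := List.mem_flatten.1 ha
        exact hc c hc1 a hc2
    rw [e]
    exact h.area

end

end Pool.Agent.LibMoserF
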