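import Pool.Agent.LibMoserF.Comb
set_option autoImplicit false
namespace Pool.Agent.LibMoserF
open Classical Pool.Agent.LibMoser5

noncomputable section

/-! Local rules for combs: cut, trim, row. -/

theorem isComb_self (c : Cb) : IsComb (St 0 0 c) c := ⟨fun q => q, isIso_id, rfl⟩

theorem isComb_shift (c : Cb) (x0 : ℝ) : IsComb (St x0 x0 c) c := by
  refine ⟨fun q => (q.1 - x0, q.2), ?_, ?_⟩
  · have := isIso_shift x0 0
    simpa using this
  · rw [St_shift, zero_add]

theorem St_single (x0 x a b : ℝ) :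
    St x0 x [(a, b)] = {q | x0 < q.1 ∧ q.1 < x + b ∧ 0 < q.2 ∧ q.2 < a} := by
  simp [St]

theorem ob_eq_St (a b : ℝ) : ob 0 0 b a = St 0 0 [(a, b)] := by
  rw [St_single]
  ext q
  simp only [ob, Set.mem_ofPred_eq, zero_add]

theorem isComb_ob (x y a b : ℝ) : IsComb (ob x y b a) [(a, b)] := by
  refine ⟨fun q => (q.1 - x, q.2 - y), isIso_shift x y, ?_⟩
  rw [St_single]
  ext q
  simp only [ob, Set.mem_preimage, Set.mem_ofPred_eq]
  constructor <;> rintro ⟨h1, h2, h3, h4⟩ <;> refine ⟨?_, ?_, ?_, ?_⟩ <;> linarith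

theorem isComb_ob' (x y a b : ℝ) : IsComb (ob x y a b) [(a, b)] := by
  refine ⟨fun q => (q.2 - y, q.1 - x), isIso_swap y x, ?_⟩
  rw [St_single]
  ext q
  simp only [ob, Set.mem_preimage, Set.mem_ofPred_eq]
  constructor
  · rintro ⟨h1, h2, h3, h4⟩
    refine ⟨?_, ?_, ?_, ?_⟩ <;> linarith
  · rintro ⟨h1, h2, h3, h4⟩
    refine ⟨?_, ?_, ?_, ?_⟩ <;> linarith

/-- packings without squares -/
theorem LC.ofRegions {S : Set (ℝ × ℝ)} {C : List Cb} (R : List (Set (ℝ × ℝ)))
    (h1 : List.Forall₂ IsComb R C) (h2 : ∀ r ∈ R, r ⊆ S) (h3 : R.Pairwise Disjoint) :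
    LC S C ∅ :=
  ⟨R, fun _ => (0, 0), h1, h2, h3, by simp, by simp, by simp⟩

/-- exchange of the two sides of a single rectangle -/
theorem LC.swapS (a b : ℝ) : LC (St 0 0 [(a, b)]) [[(b, a)]] ∅ := by
  refine LC.ofRegions [St 0 0 [(a, b)]] ?_ ?_ ?_
  · refine List.Forall₂.cons ?_ List.Forall₂.nil
    rw [← ob_eq_St]
    exact isComb_ob' 0 0 b a
  · intro r hr
    rw [List.mem_singleton] at hr
    rw [hr]
  · exact List.pairwise_singleton _ _

/-- vertical cut through the head tooth (or in front of it) -/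
theorem LC.cutS (th a r : ℝ) (ha : 0 ≤ a) (hr : 0 ≤ r) (c : Cb) :
    LC (St 0 0 ((th, a + r) :: c)) [[(th, a)], (th, r) :: c] ∅ := by
  refine LC.ofRegions [ob 0 0 a th, St a a ((th, r) :: c)] ?_ ?_ ?_
  · exact List.Forall₂.cons (isComb_ob 0 0 th a)
      (List.Forall₂.cons (isComb_shift _ a) List.Forall₂.nil)
  · intro s hs
    simp only [List.mem_cons, List.not_mem_nil, or_false] at hs
    rcases hs with rfl | rfl
    · intro q hq
      simp only [ob, Set.mem_ofPred_eq] at hq
      simp only [St]
      left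
      exact ⟨hq.1, by linarith [hq.2.1], hq.2.2.1, by linarith [hq.2.2.2]⟩
    · intro q hq
      simp only [St] at hq ⊢
      rcases hq with ⟨h1, h2, h3, h4⟩ | hq
      · left
        exact ⟨by linarith, by linarith, h3, h4⟩
      · right
        have e : (0 : ℝ) + (a + r) = a + r := by ring
        rw [e]
        exact St_mono ha hq
  · rw [List.pairwise_cons]
    refine ⟨?_, List.pairwise_singleton _ _⟩
    intro s hs
    rw [List.mem_singleton] at hs
    rw [hs, Set.disjoint_left]
    intro q hq hq'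
    simp only [ob, Set.mem_ofPred_eq] at hq
    simp only [St] at hq'
    rcases hq' with ⟨h1, _⟩ | hq'
    · linarith [hq.2.1]
    · have h := (St_x0 hq').1
      linarith [hq.2.1]

theorem LC.nilS (S : Set (ℝ × ℝ)) : LC S [] ∅ :=
  LC.ofRegions [] List.Forall₂.nil (by simp) List.Pairwise.nil

/-- the part of the head tooth which is thicker than the next one -/
theorem LC.trimS (th r th' l' : ℝ) (c : Cb) (h0 : 0 ≤ th') (hc : ∀ a ∈ c, a.1 ≤ th') :
    LC (St 0 0 ((th, r) :: (th', l') :: c)) [[(th - th', r)], (th', r + l') :: c] ∅ := by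
  refine LC.ofRegions [ob 0 th' r (th - th'), St 0 0 ((th', r + l') :: c)] ?_ ?_ ?_
  · exact List.Forall₂.cons (isComb_ob 0 th' (th - th') r)
      (List.Forall₂.cons (isComb_self _) List.Forall₂.nil)
  · intro s hs
    simp only [List.mem_cons, List.not_mem_nil, or_false] at hs
    rcases hs with rfl | rfl
    · intro q hq
      simp only [ob, Set.mem_ofPred_eq] at hq
      simp only [St]
      left
      exact ⟨hq.1, by linarith [hq.2.1], by linarith [hq.2.2.1], by linarith [hq.2.2.2]⟩
    · intro q hq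
      simp only [St] at hq ⊢
      right
      rw [← add_assoc] at hq
      exact hq
  · rw [List.pairwise_cons]
    refine ⟨?_, List.pairwise_singleton _ _⟩
    intro s hs
    rw [List.mem_singleton] at hs
    rw [hs, Set.disjoint_left]
    intro q hq hq'
    simp only [ob, Set.mem_ofPred_eq] at hq
    have h : q.2 < th' := by
      refine St_height ?_ hq'
      intro a ha
      rcases List.mem_cons.1 ha with rfl | ha
      · exact le_rfl
      · exact hc a ha
    linarith [hq.2.2.1]

/-- splitting of a comb -/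
theorem LC.splitS (c1 c2 : Cb) (h1 : ∀ a ∈ c1, 0 ≤ a.1 ∧ 0 ≤ a.2) :
    LC (St 0 0 (c1 ++ c2)) [c1, c2] ∅ := by
  refine LC.ofRegions [St 0 0 c1, St (cl c1) (cl c1) c2] ?_ ?_ ?_
  · exact List.Forall₂.cons (isComb_self _)
      (List.Forall₂.cons (isComb_shift _ _) List.Forall₂.nil)
  · intro s hs
    simp only [List.mem_cons, List.not_mem_nil, or_false] at hs
    rw [St_append]
    rcases hs with rfl | rfl
    · exact Set.subset_union_left
    · rw [zero_add]
      exact (St_mono (cl_nonneg h1)).trans Set.subset_union_right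
  · rw [List.pairwise_cons]
    refine ⟨?_, List.pairwise_singleton _ _⟩
    intro s hs
    rw [List.mem_singleton] at hs
    rw [hs, Set.disjoint_left]
    intro q hq hq'
    have h3 := St_bound h1 hq
    have h4 := (St_x0 hq').1
    rw [zero_add] at h3
    linarith [h3.2.1]

/-- a tooth of length 0 or thickness 0 can be forgotten -/
theorem LC.dropS (c1 : Cb) (a : ℝ × ℝ) (c2 : Cb) (ha : a.2 = 0) :
    LC (St 0 0 (c1 ++ a :: c2)) [c1 ++ c2] ∅ := by
  refine LC.ofRegions [St 0 0 (c1 ++ c2)] ?_ ?_ ?_
  · exact List.Forall₂.cons (isComb_self _) List.Forall₂.nil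
  · intro s hs
    rw [List.mem_singleton] at hs
    rw [hs, St_append, St_append]
    refine Set.union_subset_union le_rfl ?_
    simp only [St]
    rw [ha, add_zero]
    exact Set.subset_union_right
  · exact List.pairwise_singleton _ _

/-- last tooth of thickness 0 -/
theorem LC.dropLastS (c1 c2 : Cb) : LC (St 0 0 (c1 ++ c2)) [c1] ∅ := by
  refine LC.ofRegions [St 0 0 c1] ?_ ?_ ?_
  · exact List.Forall₂.cons (isComb_self _) List.Forall₂.nil
  · intro s hs
    rw [List.mem_singleton] at hs
    rw [hs, St_append]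
    exact Set.subset_union_left
  · exact List.pairwise_singleton _ _

/-- the pieces above a row of squares, thickest first -/
def child (th : ℝ) : List ℕ → Cb
  | [] => []
  | n :: u => child th u ++ [(th - sd n, sd n)]

theorem cl_child (th : ℝ) (u : List ℕ) : cl (child th u) = (u.map sd).sum := by
  induction u with
  | nil => simp [child, cl_nil]
  | cons n u ih =>
    rw [child, cl_append, ih, cl_cons, cl_nil]
    simp only [List.map_cons, List.sum_cons]
    ring

theorem child_eq (th : ℝ) (u : List ℕ) :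
    child th u = (u.map (fun n => (th - sd n, sd n))).reverse := by
  induction u with
  | nil => simp [child]
  | cons n u ih => rw [child, ih]; simp

theorem mem_child {th : ℝ} {u : List ℕ} {a : ℝ × ℝ} (h : a ∈ child th u) :
    ∃ n ∈ u, a = (th - sd n, sd n) := by
  rw [child_eq, List.mem_reverse, List.mem_map] at h
  obtain ⟨n, hn, rfl⟩ := h
  exact ⟨n, hn, rfl⟩

/-- placement of a row -/
theorem row_place (th : ℝ) (u : List ℕ) (hu : u.Pairwise (fun m n => m ≤ n ∧ m ≠ n))
    (hth : ∀ n ∈ u, sd n ≤ th) :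
    ∃ p : ℕ → ℝ × ℝ,
      (∀ n ∈ u, (p n).2 = 0 ∧ 0 ≤ (p n).1 ∧ (p n).1 + sd n ≤ (u.map sd).sum) ∧
      (∀ n ∈ u, Disjoint ((fun q : ℝ × ℝ => ((u.map sd).sum - q.1, th - q.2)) ⁻¹'
        (St 0 0 (child th u))) (sqr n (p n))) ∧
      (∀ m ∈ u, ∀ n ∈ u, m ≠ n → Disjoint (sqr m (p m)) (sqr n (p n))) := by
  induction u with
  | nil => exact ⟨fun _ => (0, 0), by simp, by simp, by simp⟩
  | cons n u ih =>
    rw [List.pairwise_cons] at hu
    obtain ⟨p, h1, h2, h3⟩ := ih hu.2 (fun m hm => hth m (List.mem_cons_of_mem _ hm))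
    have hs : ((n :: u).map sd).sum = sd n + (u.map sd).sum := by
      rw [List.map_cons, List.sum_cons]
    have hS : 0 ≤ (u.map sd).sum := List.sum_nonneg (fun x hx => by
      obtain ⟨m, _, rfl⟩ := List.mem_map.1 hx
      exact (sd_pos m).le)
    have hn0 := sd_pos n
    have hnu : n ∉ u := fun h => (hu.1 n h).2 rfl
    have hcn : ∀ a ∈ child th u, 0 ≤ a.1 ∧ 0 ≤ a.2 := by
      intro a ha
      obtain ⟨m, hm, rfl⟩ := mem_child ha
      exact ⟨by simp only; linarith [hth m (List.mem_cons_of_mem _ hm)], (sd_pos m).le⟩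
    let P : ℕ → ℝ × ℝ := fun m => if m = n then (0, 0) else ((p m).1 + sd n, 0)
    have hPn : P n = (0, 0) := if_pos rfl
    have hPm : ∀ m ∈ u, P m = ((p m).1 + sd n, 0) := by
      intro m hm
      have hne : m ≠ n := by
        rintro rfl
        exact hnu hm
      exact if_neg hne
    have hreg : ∀ q : ℝ × ℝ, ((sd n + (u.map sd).sum) - q.1, th - q.2) ∈
        St 0 0 (child th (n :: u)) →
        (((u.map sd).sum - (q.1 - sd n), th - q.2) ∈ St 0 0 (child th u)) ∨ sd n < q.2 := by
      intro q hq
      rw [child, St_append] at hq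
      rcases hq with hq | hq
      · left
        have e : (u.map sd).sum - (q.1 - sd n) = sd n + (u.map sd).sum - q.1 := by ring
        rw [e]
        exact hq
      · right
        rw [St_single] at hq
        have h4 := hq.2.2.2
        simp only at h4
        linarith
    refine ⟨P, ?_, ?_, ?_⟩
    · intro m hm
      rw [hs]
      rcases List.mem_cons.1 hm with rfl | hm
      · rw [hPn]
        exact ⟨rfl, le_rfl, by simp only; linarith⟩
      · rw [hPm m hm]
        obtain ⟨a1, a2, a3⟩ := h1 m hm
        exact ⟨rfl, by simp only; linarith, by simp only; linarith⟩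
    · intro m hm
      rw [hs, Set.disjoint_left]
      intro q hq hq'
      rw [Set.mem_preimage] at hq
      have hq1 := hreg q hq
      rcases List.mem_cons.1 hm with rfl | hm
      · rw [hPn] at hq'
        simp only [sqr, ob, Set.mem_ofPred_eq] at hq'
        rcases hq1 with hq1 | hq1
        · have h5 := St_bound hcn hq1
          rw [cl_child] at h5
          simp only at h5
          linarith [h5.2.1, hq'.2.1]
        · linarith [hq'.2.2.2]
      · rw [hPm m hm] at hq'
        simp only [sqr, ob, Set.mem_ofPred_eq] at hq'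
        rcases hq1 with hq1 | hq1
        · have h6 : ((q.1 - sd n, q.2) : ℝ × ℝ) ∈ sqr m (p m) := by
            simp only [sqr, ob, Set.mem_ofPred_eq]
            rw [(h1 m hm).1]
            exact ⟨by linarith [hq'.1], by linarith [hq'.2.1], hq'.2.2.1, hq'.2.2.2⟩
          exact Set.disjoint_left.1 (h2 m hm) (Set.mem_preimage.2 hq1) h6
        · have h7 := sd_anti (hu.1 m hm).1
          linarith [hq'.2.2.2]
    · intro m hm k hk hmk
      rcases List.mem_cons.1 hm with e | hm'
      · rcases List.mem_cons.1 hk with e' | hk'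
        · exact absurd (e.trans e'.symm) hmk
        · rw [e, hPn, hPm k hk', Set.disjoint_left]
          intro q hq hq'
          simp only [sqr, ob, Set.mem_ofPred_eq] at hq hq'
          linarith [hq.2.1, hq'.1, (h1 k hk').2.1]
      · rcases List.mem_cons.1 hk with e' | hk'
        · rw [e', hPn, hPm m hm', Set.disjoint_left]
          intro q hq hq'
          simp only [sqr, ob, Set.mem_ofPred_eq] at hq hq'
          linarith [hq'.2.1, hq.1, (h1 m hm').2.1]
        · rw [hPm k hk', hPm m hm', Set.disjoint_left]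
          intro q hq hq'
          simp only [sqr, ob, Set.mem_ofPred_eq] at hq hq'
          have g1 : ((q.1 - sd n, q.2) : ℝ × ℝ) ∈ sqr m (p m) := by
            simp only [sqr, ob, Set.mem_ofPred_eq]
            rw [(h1 m hm').1]
            exact ⟨by linarith [hq.1], by linarith [hq.2.1], hq.2.2.1, hq.2.2.2⟩
          have g2 : ((q.1 - sd n, q.2) : ℝ × ℝ) ∈ sqr k (p k) := by
            simp only [sqr, ob, Set.mem_ofPred_eq]
            rw [(h1 k hk').1]
            exact ⟨by linarith [hq'.1], by linarith [hq'.2.1], hq'.2.2.1, hq'.2.2.2⟩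
          exact Set.disjoint_left.1 (h3 m hm' k hk' hmk) g1 g2

/-- a full row of squares in a single rectangle -/
theorem LC.rowS (th : ℝ) (u : List ℕ) (hu : u.Pairwise (fun m n => m ≤ n ∧ m ≠ n))
    (hth : ∀ n ∈ u, sd n ≤ th) :
    LC (St 0 0 [(th, (u.map sd).sum)]) [child th u] u.toFinset := by
  obtain ⟨p, h1, h2, h3⟩ := row_place th u hu hth
  have hcn : ∀ a ∈ child th u, 0 ≤ a.1 ∧ 0 ≤ a.2 := by
    intro a ha
    obtain ⟨m, hm, rfl⟩ := mem_child ha
    exact ⟨by simp only; linarith [hth m hm], (sd_pos m).le⟩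
  refine ⟨[(fun q : ℝ × ℝ => ((u.map sd).sum - q.1, th - q.2)) ⁻¹' (St 0 0 (child th u))], p,
    ?_, ?_, List.pairwise_singleton _ _, ?_, ?_, ?_⟩
  · exact List.Forall₂.cons ⟨_, isIso_rot _ _, rfl⟩ List.Forall₂.nil
  · intro r hr
    rw [List.mem_singleton] at hr
    rw [hr]
    intro q hq
    rw [Set.mem_preimage] at hq
    have h4 := St_bound hcn hq
    have h5 : th - q.2 < th := by
      refine St_height ?_ hq
      intro a ha
      obtain ⟨m, hm, rfl⟩ := mem_child ha
      simp only
      linarith [sd_pos m]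
    rw [cl_child] at h4
    rw [St_single]
    simp only at h4
    refine ⟨by linarith [h4.2.1], by linarith [h4.1], by linarith, by linarith [h4.2.2]⟩
  · intro n hn
    rw [List.mem_toFinset] at hn
    obtain ⟨a1, a2, a3⟩ := h1 n hn
    intro q hq
    simp only [sqr, ob, Set.mem_ofPred_eq] at hq
    rw [St_single]
    rw [a1] at hq
    refine ⟨by linarith [hq.1], by linarith [hq.2.1], hq.2.2.1, by linarith [hq.2.2.2, hth n hn]⟩
  · intro r hr n hn
    rw [List.mem_singleton] at hr
    rw [List.mem_toFinset] at hn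
    rw [hr]
    exact h2 n hn
  · intro m hm n hn hmn
    rw [List.mem_toFinset] at hm hn
    exact h3 m hm n hn hmn

theorem child_ok (th : ℝ) (u : List ℕ) (hu : u.Pairwise (fun m n => m ≤ n ∧ m ≠ n))
    (hth : ∀ n ∈ u, sd n ≤ th) : CbOK (child th u) := by
  refine ⟨?_, ?_⟩
  · intro a ha
    obtain ⟨m, hm, rfl⟩ := mem_child ha
    exact ⟨by simp only; linarith [hth m hm], (sd_pos m).le⟩
  · rw [child_eq, List.pairwise_reverse, List.pairwise_map]
    refine hu.imp ?_
    intro m n h
    have := sd_anti h.1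
    simp only
    linarith

end

end Pool.Agent.LibMoserF
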