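import Pool.Agent.LibMoserF.Fill
set_option autoImplicit false
namespace Pool.Agent.LibMoserF
open Classical Pool.Agent.LibMoser5

noncomputable section

/-- shifted index sequence -/
def shu (u : ℕ → ℕ) (o : ℕ) : ℕ → ℕ := fun k => u (o + k)

/-- a strip: offset, columns - 1, rows - 1 -/
structure StripD where
  o : ℕ
  M : ℕ
  R : ℕ

/-- number of squares of the strip -/
def StripD.n (s : StripD) : ℕ := (s.M + 1) * (s.R + 1)

/-- the strips `S` are consecutive: they start at `o` and end at `o'` -/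
def Chain : ℕ → List StripD → ℕ → Prop
  | o, [], o' => o = o'
  | o, s :: S, o' => s.o = o ∧ Chain (o + s.n) S o'

theorem Chain.le {S : List StripD} {o o' : ℕ} (h : Chain o S o') : o ≤ o' := by
  induction S generalizing o with
  | nil => exact le_of_eq h
  | cons s S ih =>
    have h1 := ih h.2
    omega

/-- number of squares in the strips -/
theorem Chain.sum {S : List StripD} {o o' : ℕ} (h : Chain o S o') :
    o + (S.map StripD.n).sum = o' := by
  induction S generalizing o with
  | nil =>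
    have : o = o' := h
    simpa using this
  | cons s S ih =>
    have h1 := ih h.2
    rw [List.map_cons, List.sum_cons]
    omega

/-- the controlled pieces of the strip -/
def StripD.right (u : ℕ → ℕ) (s : StripD) : List (ℝ × ℝ) := stripRight s.M s.R (shu u s.o)

/-- the uncontrolled pieces inside the strip -/
def StripD.unc (u : ℕ → ℕ) (s : StripD) : List (ℝ × ℝ) := stripU s.M s.R (shu u s.o)

section
variable {W H : ℝ} {M : ℕ} {u : ℕ → ℕ} {L : ℕ}

/-- area used by one strip -/
theorem strip_area {a c η : ℝ} {R : ℕ} {v : ℕ → ℕ}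
    (hv : ∀ k l, k < l → l < (M + 1) * (R + 1) → v k < v l)
    (h2 : a ≤ hH M R v + sd (v 0))
    (hη : sd (v 0) ≤ (1 + η) * sd (v ((M + 1) * (R + 1) - 1)))
    (hη0 : 0 ≤ η)
    (hc : ((R : ℝ) + 2) / (R + 1) * (1 + η) ^ 2 ≤ c) :
    hW M v * a ≤ c * ∑ k ∈ Finset.range ((M + 1) * (R + 1)), sd (v k) ^ 2 := by
  set s0 := sd (v 0) with hs0
  set s1 := sd (v ((M + 1) * (R + 1) - 1)) with hs1
  have p0 : 0 < s0 := sd_pos _
  have p1 : 0 < s1 := sd_pos _
  have hWle : hW M v ≤ ((M : ℝ) + 1) * s0 := by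
    unfold hW
    have : ∀ k ∈ Finset.range (M + 1), sd (v k) ≤ s0 := by
      intro k hk
      rw [Finset.mem_range] at hk
      rcases Nat.eq_zero_or_pos k with h | h
      · rw [h]
      · apply sd_anti
        have : k < (M + 1) * (R + 1) := by nlinarith
        exact (hv 0 k h this).le
    refine (Finset.sum_le_sum this).trans ?_
    rw [Finset.sum_const, Finset.card_range, nsmul_eq_mul]
    push_cast
    exact le_rfl
  have hHle : hH M R v ≤ ((R : ℝ) + 1) * s0 := by
    unfold hH
    have : ∀ l ∈ Finset.range (R + 1), sd (rm M v 0 l) ≤ s0 := by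
      intro l hl
      rw [Finset.mem_range] at hl
      exact rm_le hv (Nat.zero_le M) (by omega)
    refine (Finset.sum_le_sum this).trans ?_
    rw [Finset.sum_const, Finset.card_range, nsmul_eq_mul]
    push_cast
    exact le_rfl
  have hsum : ((M : ℝ) + 1) * ((R : ℝ) + 1) * s1 ^ 2 ≤
      ∑ k ∈ Finset.range ((M + 1) * (R + 1)), sd (v k) ^ 2 := by
    have : ∀ k ∈ Finset.range ((M + 1) * (R + 1)), s1 ^ 2 ≤ sd (v k) ^ 2 := by
      intro k hk
      rw [Finset.mem_range] at hk
      apply pow_le_pow_left₀ p1.le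
      apply sd_anti
      rcases Nat.lt_or_ge k ((M + 1) * (R + 1) - 1) with h9 | h9
      · exact (hv _ _ h9 (by omega)).le
      · have : k = (M + 1) * (R + 1) - 1 := by omega
        rw [this]
    have h := Finset.sum_le_sum this
    rw [Finset.sum_const, Finset.card_range, nsmul_eq_mul] at h
    push_cast at h
    exact h
  have ha : a ≤ ((R : ℝ) + 2) * s0 := by linarith
  have hW0 : 0 ≤ hW M v := Finset.sum_nonneg (fun k _ => (sd_pos _).le)
  have hR : (0 : ℝ) < (R : ℝ) + 1 := by positivity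
  have hM : (0 : ℝ) < (M : ℝ) + 1 := by positivity
  have hc0 : 0 < c := lt_of_lt_of_le (by positivity) hc
  have hc' : ((R : ℝ) + 2) * (1 + η) ^ 2 ≤ c * ((R : ℝ) + 1) := by
    rw [div_mul_eq_mul_div, div_le_iff₀ hR] at hc
    exact hc
  have hs : s0 ^ 2 ≤ (1 + η) ^ 2 * s1 ^ 2 := by
    rw [← mul_pow]
    exact pow_le_pow_left₀ p0.le hη 2
  calc hW M v * a ≤ hW M v * (((R : ℝ) + 2) * s0) := mul_le_mul_of_nonneg_left ha hW0
    _ ≤ (((M : ℝ) + 1) * s0) * (((R : ℝ) + 2) * s0) := mul_le_mul_of_nonneg_right hWle (by positivity)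
    _ = ((M : ℝ) + 1) * ((R : ℝ) + 2) * s0 ^ 2 := by ring
    _ ≤ ((M : ℝ) + 1) * ((R : ℝ) + 2) * ((1 + η) ^ 2 * s1 ^ 2) := by
        exact mul_le_mul_of_nonneg_left hs (by positivity)
    _ = (((R : ℝ) + 2) * (1 + η) ^ 2) * (((M : ℝ) + 1) * s1 ^ 2) := by ring
    _ ≤ (c * ((R : ℝ) + 1)) * (((M : ℝ) + 1) * s1 ^ 2) :=
        mul_le_mul_of_nonneg_right hc' (by positivity)
    _ = c * (((M : ℝ) + 1) * ((R : ℝ) + 1) * s1 ^ 2) := by ring
    _ ≤ _ := mul_le_mul_of_nonneg_left hsum hc0.le

theorem Chain.mem {S : List StripD} {o o' : ℕ} (h : Chain o S o') {s : StripD} (hs : s ∈ S) :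
    o ≤ s.o ∧ s.o + s.n ≤ o' := by
  induction S generalizing o with
  | nil => simp at hs
  | cons t S ih =>
    rcases List.mem_cons.1 hs with rfl | hs
    · have := h.2.le
      have := h.1
      omega
    · have := ih h.2 hs
      omega

theorem sum_shu (o n : ℕ) : ∑ k ∈ Finset.range n, sd (shu u o k) ^ 2 =
    ∑ k ∈ Finset.Ico o (o + n), sd (u k) ^ 2 := by
  rw [Finset.sum_Ico_eq_sum_range]
  have : o + n - o = n := by omega
  rw [this]
  rfl

theorem image_shu (o n : ℕ) : (Finset.range n).image (shu u o) = (Finset.Ico o (o + n)).image u := by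
  ext x
  rw [Finset.mem_image, Finset.mem_image]
  constructor
  · rintro ⟨k, hk, rfl⟩
    rw [Finset.mem_range] at hk
    exact ⟨o + k, by rw [Finset.mem_Ico]; omega, rfl⟩
  · rintro ⟨k, hk, rfl⟩
    rw [Finset.mem_Ico] at hk
    refine ⟨k - o, by rw [Finset.mem_range]; omega, ?_⟩
    unfold shu
    congr 1
    omega

/-- **Filling the fat rectangle with strips.**  `step` chooses the next strip. -/
theorem fat_fill {W H κ A0 A1 c : ℝ} {u : ℕ → ℕ} {L thr : ℕ} {Q : StripD → Prop}
    (hκ : 1 ≤ κ) (hthr : 0 < thr)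
    (hu : ∀ k l, k < l → l < L → u k < u l)
    (step : ∀ (o : ℕ) (a b : ℝ), 0 < a → a ≤ b → b ≤ κ * a → a * b ≤ A1 → o + thr ≤ L →
      A0 + c * ∑ k ∈ Finset.Ico o L, sd (u k) ^ 2 ≤ a * b →
      ∃ s : StripD, s.o = o ∧ o + s.n ≤ L ∧ hH s.M s.R (shu u o) ≤ a ∧
        a - hH s.M s.R (shu u o) ≤ sd (u o) ∧
        hW s.M (shu u o) * a ≤ c * ∑ k ∈ Finset.range s.n, sd (shu u o k) ^ 2 ∧
        hW s.M (shu u o) * κ ≤ a * (κ - 1) ∧ Q s) :
    ∀ (d o : ℕ) (a b : ℝ) (F : List (ℝ × ℝ)) (P : Finset ℕ), L - o ≤ d → o ≤ L →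
      PT W H ((a, b) :: F) P → 0 < a → a ≤ b → b ≤ κ * a → a * b ≤ A1 →
      A0 + c * ∑ k ∈ Finset.Ico o L, sd (u k) ^ 2 ≤ a * b →
      (∀ k, o ≤ k → k < L → u k ∉ P) →
      ∃ (S : List StripD) (E : List (ℝ × ℝ)) (a' b' : ℝ) (o' : ℕ),
        Chain o S o' ∧ o' ≤ L ∧ L < o' + thr ∧ (∀ s ∈ S, Q s) ∧
        List.Forall₂ (fun s e => 0 ≤ e.1 ∧ e.1 ≤ sd (u s.o) ∧ e.2 = hW s.M (shu u s.o)) S E ∧
        0 < a' ∧ a' ≤ b' ∧ b' ≤ κ * a' ∧
        A0 + c * ∑ k ∈ Finset.Ico o' L, sd (u k) ^ 2 ≤ a' * b' ∧ a' * b' ≤ a * b ∧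
        PT W H ((a', b') :: (S.flatMap (StripD.right u) ++ (S.flatMap (StripD.unc u) ++ (E ++ F))))
          (P ∪ (Finset.Ico o o').image u) := by
  intro d
  induction d with
  | zero =>
    intro o a b F P hd ho h ha hab hba hA1 hA hP
    refine ⟨[], [], a, b, o, rfl, ho, by omega, by simp, List.Forall₂.nil, ha, hab, hba, hA,
      le_rfl, ?_⟩
    simpa using h
  | succ d ih =>
    intro o a b F P hd ho h ha hab hba hA1 hA hP
    rcases Nat.lt_or_ge L (o + thr) with hlt | hge
    · refine ⟨[], [], a, b, o, rfl, ho, hlt, by simp, List.Forall₂.nil, ha, hab, hba, hA,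
        le_rfl, ?_⟩
      simpa using h
    · obtain ⟨s, so, sL, sH, sH', sA, sW, sQ⟩ := step o a b ha hab hba hA1 hge hA
      set w := hW s.M (shu u o) with hw
      set hh := hH s.M s.R (shu u o) with hhh
      have hn : 0 < s.n := by unfold StripD.n; positivity
      have hw0 : 0 ≤ w := Finset.sum_nonneg (fun k _ => (sd_pos _).le)
      have hκ0 : 0 < κ := by linarith
      have hwa : w < a := by
        have h1 : w * κ < a * κ := by nlinarith
        exact lt_of_mul_lt_mul_right h1 hκ0.le
      have hvu : ∀ k l, k < l → l < (s.M + 1) * (s.R + 1) → shu u o k < shu u o l := by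
        intro k l hkl hl
        have : s.n = (s.M + 1) * (s.R + 1) := rfl
        exact hu _ _ (by omega) (by omega)
      have h1 := h.strip (M := s.M) (R := s.R) (u := shu u o) hvu
        (by
          intro k hk
          have : s.n = (s.M + 1) * (s.R + 1) := rfl
          exact hP (o + k) (by omega) (by omega))
        (by linarith) sH
      rw [image_shu] at h1
      have hnn : (s.M + 1) * (s.R + 1) = s.n := rfl
      rw [hnn] at h1
      -- the new fat rectangle
      obtain ⟨a1, b1, ha1, hab1, hba1, hprod, h2⟩ : ∃ a1 b1 : ℝ, 0 < a1 ∧ a1 ≤ b1 ∧ b1 ≤ κ * a1 ∧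
          a1 * b1 = a * b - w * a ∧
          PT W H ((a1, b1) :: ((a - hh, w) :: (stripList s.M s.R (shu u o) ++ F)))
            (P ∪ (Finset.Ico o (o + s.n)).image u) := by
        rcases le_or_gt a (b - w) with hc1 | hc1
        · exact ⟨a, b - w, ha, hc1, by linarith, by ring, h1⟩
        · refine ⟨b - w, a, by linarith, hc1.le, ?_, by ring, h1.swap⟩
          nlinarith
      have hsum : ∑ k ∈ Finset.Ico o L, sd (u k) ^ 2 =
          ∑ k ∈ Finset.range s.n, sd (shu u o k) ^ 2 +
            ∑ k ∈ Finset.Ico (o + s.n) L, sd (u k) ^ 2 := by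
        rw [sum_shu, Finset.sum_Ico_consecutive _ (by omega) (by omega)]
      obtain ⟨S, E, a', b', o', c1, c2, c3, c4, c5, c6, c7, c8, c9, c10, c11⟩ :=
        ih (o + s.n) a1 b1 ((a - hh, w) :: (stripList s.M s.R (shu u o) ++ F))
          (P ∪ (Finset.Ico o (o + s.n)).image u) (by omega) sL h2 ha1 hab1 hba1
          (by nlinarith)
          (by rw [hprod]; rw [hsum] at hA; linarith)
          (by
            intro k hk hkL hmem
            rcases Finset.mem_union.1 hmem with hm | hm
            · exact hP k (by omega) hkL hm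
            · obtain ⟨l, hl, e⟩ := Finset.mem_image.1 hm
              rw [Finset.mem_Ico] at hl
              have := hu l k (by omega) hkL
              omega)
      refine ⟨s :: S, (a - hh, w) :: E, a', b', o', ⟨so, c1⟩, c2, c3, ?_, ?_, c6, c7, c8, c9, ?_, ?_⟩
      · intro t ht
        rcases List.mem_cons.1 ht with rfl | ht
        · exact sQ
        · exact c4 t ht
      · refine List.Forall₂.cons ?_ c5
        rw [so]
        exact ⟨by simp only; linarith, sH', rfl⟩
      · rw [hprod] at c10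
        nlinarith
      · have e1 : P ∪ (Finset.Ico o (o + s.n)).image u ∪ (Finset.Ico (o + s.n) o').image u =
            P ∪ (Finset.Ico o o').image u := by
          rw [Finset.union_assoc, ← Finset.image_union, Finset.Ico_union_Ico_eq_Ico (by omega) c1.le]
        rw [e1] at c11
        refine c11.perm (List.Perm.cons _ ?_)
        rw [List.flatMap_cons, List.flatMap_cons]
        have e2 : StripD.right u s = stripRight s.M s.R (shu u o) := by
          unfold StripD.right; rw [so]
        have e3 : StripD.unc u s = stripU s.M s.R (shu u o) := by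
          unfold StripD.unc; rw [so]
        rw [e2, e3]
        set A := S.flatMap (StripD.right u)
        set B := S.flatMap (StripD.unc u)
        set X := stripRight s.M s.R (shu u o)
        set Y := stripU s.M s.R (shu u o)
        have p1 : (stripList s.M s.R (shu u o)).Perm (X ++ Y) := stripList_perm
        set e := (a - hh, w)
        -- A ++ (B ++ (E ++ e :: (stripList ++ F))) ~ X ++ A ++ (Y ++ B ++ (e :: E ++ F))
        have q1 : (A ++ (B ++ (E ++ e :: (stripList s.M s.R (shu u o) ++ F)))).Perm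
            (A ++ (B ++ (E ++ e :: ((X ++ Y) ++ F)))) :=
          List.Perm.append_left _ (List.Perm.append_left _ (List.Perm.append_left _
            (List.Perm.cons _ (List.Perm.append_right _ p1))))
        refine q1.trans ?_
        rw [← Multiset.coe_eq_coe]
        simp only [← Multiset.coe_add, ← Multiset.cons_coe, ← Multiset.singleton_add]
        abel

end

end

end Pool.Agent.LibMoserF
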