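import Pool.Agent.LibMoserF.Strip
set_option autoImplicit false
namespace Pool.Agent.LibMoserF
open Classical Pool.Agent.LibMoser5

noncomputable section

section
variable {W H : ℝ} {F : List (ℝ × ℝ)} {P : Finset ℕ}

/-- cut a strip off a free rectangle and fill it -/
theorem PT.strip {a b : ℝ} {M R : ℕ} {u : ℕ → ℕ} (h : PT W H ((a, b) :: F) P)
    (hu : ∀ k l, k < l → l < (M + 1) * (R + 1) → u k < u l)
    (hd : ∀ k < (M + 1) * (R + 1), u k ∉ P) (hb : hW M u ≤ b) (ha : hH M R u ≤ a) :
    PT W H ((a, b - hW M u) :: (a - hH M R u, hW M u) :: (stripList M R u ++ F))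
      (P ∪ (Finset.range ((M + 1) * (R + 1))).image u) := by
  have hW0 : 0 ≤ hW M u := Finset.sum_nonneg (fun k _ => (sd_pos _).le)
  have hH0 : 0 ≤ hH M R u := Finset.sum_nonneg (fun k _ => (sd_pos _).le)
  have h1 := ((h.cut hW0 hb).swap).cut hH0 ha
  -- (hW, hH) :: (hW, a - hH) :: (a, b - hW) :: F
  have hdis : Disjoint P ((Finset.range ((M + 1) * (R + 1))).image u) := by
    rw [Finset.disjoint_left]
    intro k hk hk'
    obtain ⟨i, hi, rfl⟩ := Finset.mem_image.1 hk'
    rw [Finset.mem_range] at hi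
    exact hd i hi hk
  have h2 := h1.subst (strip_pt hu) hdis
  have h3 : PT W H ((hW M u, a - hH M R u) :: ((a, b - hW M u) :: (stripList M R u ++ F)))
      (P ∪ (Finset.range ((M + 1) * (R + 1))).image u) := by
    refine h2.perm ?_
    refine (List.perm_middle).trans ?_
    refine List.Perm.cons _ ?_
    exact List.perm_middle
  exact h3.swap.perm (List.Perm.swap _ _ _)

end

section
variable {M R : ℕ} {u : ℕ → ℕ}

theorem hH_succ : hH M (R + 1) u = hH M R u + sd (rm M u 0 (R + 1)) := by
  unfold hH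
  rw [Finset.sum_range_succ]

theorem hH_zero : hH M 0 u = sd (u 0) := by
  unfold hH rm
  simp

theorem hH_ge {L : ℕ} (hu : ∀ k l, k < l → l < L → u k < u l)
    (hR : (M + 1) * (R + 1) ≤ L) : (R + 1 : ℝ) * sd (u (L - 1)) ≤ hH M R u := by
  unfold hH
  have h : ∑ _l ∈ Finset.range (R + 1), sd (u (L - 1)) ≤
      ∑ l ∈ Finset.range (R + 1), sd (rm M u 0 l) := by
    refine Finset.sum_le_sum (fun l hl => ?_)
    rw [Finset.mem_range] at hl
    unfold rm
    apply sd_anti
    have h2 : l * (M + 1) + 0 < L := by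
      have : l * (M + 1) ≤ R * (M + 1) := Nat.mul_le_mul_right _ (by omega)
      nlinarith
    rcases Nat.lt_or_ge (l * (M + 1) + 0) (L - 1) with h3 | h3
    · exact (hu _ _ h3 (by omega)).le
    · have : l * (M + 1) + 0 = L - 1 := by omega
      rw [this]
  rw [Finset.sum_const, Finset.card_range, nsmul_eq_mul] at h
  push_cast at h
  exact h

/-- the maximal number of rows -/
theorem exists_rows {a : ℝ} {L : ℕ} (hu : ∀ k l, k < l → l < L → u k < u l)
    (h0 : sd (u 0) ≤ a) (K : ℕ) (hK : a < K * sd (u (L - 1))) (hL : (M + 1) * (K + 1) ≤ L) :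
    ∃ R : ℕ, (M + 1) * (R + 2) ≤ L ∧ R < K ∧ hH M R u ≤ a ∧
      a < hH M R u + sd (u ((M + 1) * (R + 1))) := by
  have hfit : ∀ R, hH M R u ≤ a → (M + 1) * (R + 1) ≤ L → R < K := by
    intro R h1 h2
    have h3 := hH_ge (M := M) hu h2
    have h4 : ((R : ℝ) + 1) * sd (u (L - 1)) < K * sd (u (L - 1)) := by linarith
    have h5 := lt_of_mul_lt_mul_right h4 (sd_pos _).le
    have h6 : ((R + 1 : ℕ) : ℝ) < (K : ℝ) := by push_cast; linarith
    have h7 : R + 1 < K := by exact_mod_cast h6
    omega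
  -- find the greatest R with hH ≤ a
  have hex : ∃ R, ¬ hH M R u ≤ a := by
    by_contra hcon
    push_neg at hcon
    have hK1 : (M + 1) * (K + 1) ≤ L := hL
    exact absurd (hfit K (hcon K) hK1) (lt_irrefl _)
  have hspec := Nat.find_spec hex
  have hmin : ∀ m < Nat.find hex, hH M m u ≤ a := fun m hm => by
    have := Nat.find_min hex hm
    simpa using this
  set N := Nat.find hex with hN
  have hN0 : 0 < N := by
    rcases Nat.eq_zero_or_pos N with h | h
    · exfalso
      rw [h, hH_zero] at hspec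
      exact hspec h0
    · exact h
  obtain ⟨R, hR⟩ : ∃ R, N = R + 1 := ⟨N - 1, by omega⟩
  have h1 : hH M R u ≤ a := hmin R (by omega)
  have hRK : R < K := by
    by_contra hcon
    push_neg at hcon
    have h2 : hH M K u ≤ a := hmin K (by omega)
    exact absurd (hfit K h2 hL) (lt_irrefl _)
  refine ⟨R, ?_, hRK, h1, ?_⟩
  · exact (Nat.mul_le_mul_left _ (by omega)).trans hL
  · rw [hR, hH_succ] at hspec
    push_neg at hspec
    have e : rm M u 0 (R + 1) = u ((M + 1) * (R + 1)) := by
      unfold rm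
      congr 1
      ring
    rw [e] at hspec
    exact hspec

end

end

end Pool.Agent.LibMoserF
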