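import Pool.Agent.LibMoserF.StripU
set_option autoImplicit false
namespace Pool.Agent.LibMoserF
open Classical Pool.Agent.LibMoser5

/-- fill all the jobs of a list (job = free rectangle `τ × len` and the indices `u` of the squares
put into it side by side): the new free rectangles are the pieces above the squares (`newS`) and
the end pieces (`newE`). -/
theorem PT.fill {W H : ℝ} {F : List (ℝ × ℝ)} {P : Finset ℕ} (L : List FJob)
    (h : PT W H (L.map (fun x => (x.τ, x.len)) ++ F) P)
    (hok : ∀ x ∈ L, x.Ok) (hnd : (L.flatMap FJob.u).Nodup)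
    (hdisj : ∀ n ∈ L.flatMap FJob.u, n ∉ P) :
    PT W H (newS L ++ newE L ++ F) (P ∪ (L.flatMap FJob.u).toFinset) := by
  induction L generalizing F P with
  | nil => simpa [newS, newE] using h
  | cons x L ih =>
    rw [List.flatMap_cons] at hnd hdisj
    have hndx := (List.nodup_append.1 hnd).1
    have hndL := (List.nodup_append.1 hnd).2.1
    have hne := (List.nodup_append.1 hnd).2.2
    have hx := hok x (by simp)
    rw [List.map_cons, List.cons_append] at h
    have t1 := h.row x.u hx.1 hx.2 hndx (fun n hn => hdisj n (List.mem_append_left _ hn))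
    set A := x.u.map (fun n => (x.τ - sd n, sd n)) with hA
    set e := (x.τ, x.len - (x.u.map sd).sum) with he
    set B := L.map (fun x => (x.τ, x.len)) with hB
    have t2 : PT W H (e :: (A ++ (B ++ F))) (P ∪ x.u.toFinset) := t1.perm List.perm_middle
    have t4 : PT W H (B ++ (e :: (A ++ F))) (P ∪ x.u.toFinset) := by
      refine t2.perm ?_
      refine List.Perm.trans ?_ List.perm_middle.symm
      refine List.Perm.cons _ ?_
      rw [← List.append_assoc, ← List.append_assoc]
      exact List.Perm.append_right _ List.perm_append_comm
    have t5 := ih t4 (fun y hy => hok y (by simp [hy])) hndL (by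
      intro n hn hmem
      rcases Finset.mem_union.1 hmem with hm | hm
      · exact hdisj n (List.mem_append_right _ hn) hm
      · exact hne n (List.mem_toFinset.1 hm) n hn rfl)
    have e1 : P ∪ x.u.toFinset ∪ (L.flatMap FJob.u).toFinset
        = P ∪ ((x :: L).flatMap FJob.u).toFinset := by
      rw [List.flatMap_cons, List.toFinset_append, Finset.union_assoc]
    rw [e1] at t5
    refine t5.perm ?_
    have e2 : newS (x :: L) = A ++ newS L := by simp [newS, hA]
    have e3 : newE (x :: L) = e :: newE L := by simp [newE, he]
    rw [e2, e3]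
    generalize newS L = S
    generalize newE L = E
    have p1 : (S ++ E ++ e :: (A ++ F)).Perm (e :: (S ++ E ++ (A ++ F))) := List.perm_middle
    have p2 : (A ++ S ++ e :: E ++ F).Perm (e :: (A ++ S ++ E ++ F)) := by
      rw [List.append_assoc, List.cons_append]
      refine List.perm_middle.trans ?_
      rw [List.append_assoc (A ++ S)]
    refine p1.trans (List.Perm.trans ?_ p2.symm)
    refine List.Perm.cons _ ?_
    rw [← List.append_assoc]
    refine List.Perm.append_right _ ?_
    rw [List.append_assoc A]
    exact List.perm_append_comm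

/-- orientation of the free rectangles does not matter -/
theorem PT.map_mm {W H : ℝ} {F G : List (ℝ × ℝ)} {P : Finset ℕ} (h : PT W H (F ++ G) P) :
    PT W H (F.map LibMoser5.mm ++ G) P := by
  induction F generalizing G with
  | nil => simpa using h
  | cons a F ih =>
    rw [List.cons_append] at h
    have h1 : PT W H (F ++ (LibMoser5.mm a :: G)) P := h.mm.perm List.perm_middle.symm
    have h2 := ih h1
    rw [List.map_cons, List.cons_append]
    exact h2.perm List.perm_middle

/-- forget the free rectangles -/
theorem PT.pack {W H : ℝ} {F : List (ℝ × ℝ)} {P : Finset ℕ} (h : PT W H F P) :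
    ∃ p : ℕ → ℝ × ℝ, (∀ n ∈ P, (LibMoser5.sq n (p n)).Inside W H) ∧
      (∀ m ∈ P, ∀ n ∈ P, m ≠ n → (LibMoser5.sq m (p m)).Sep (LibMoser5.sq n (p n))) :=
  h.1.pack

end Pool.Agent.LibMoserF
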