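import Pool.Agent.LibMoserF.Subst
set_option autoImplicit false
namespace Pool.Agent.LibMoserF
open Classical Pool.Agent.LibMoser5

/-! Pinwheel grid: points `(x i j, y i j)`, `x` increasing in `i` and decreasing in `j`,
`y` increasing in `i` and in `j`.  The cells and the holes tile the frame. -/

/-- the cell `(i,j)` -/
def gcell (x y : ℕ → ℕ → ℝ) (q : ℕ × ℕ) : Box :=
  ⟨x q.1 q.2, y q.1 q.2, x (q.1 + 1) q.2 - x q.1 q.2, y q.1 (q.2 + 1) - y q.1 q.2⟩

/-- the hole `(i,j)` -/
def ghole (x y : ℕ → ℕ → ℝ) (q : ℕ × ℕ) : Box :=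
  ⟨x (q.1 + 1) (q.2 + 1), y q.1 (q.2 + 1), x (q.1 + 1) q.2 - x (q.1 + 1) (q.2 + 1),
    y (q.1 + 1) (q.2 + 1) - y q.1 (q.2 + 1)⟩

/-- grid with `m` columns and `r` rows in the frame `[0,W] × [0,H]` -/
structure Grid (W H : ℝ) (m r : ℕ) (x y : ℕ → ℕ → ℝ) : Prop where
  xi : ∀ i < m, ∀ j < r, x i j ≤ x (i + 1) j
  xj : ∀ i ≤ m, ∀ j, j + 1 < r → x i (j + 1) ≤ x i j
  yj : ∀ i < m, ∀ j < r, y i j ≤ y i (j + 1)
  yi : ∀ i, i + 1 < m → ∀ j ≤ r, y i j ≤ y (i + 1) j
  x0 : ∀ j < r, x 0 j = 0
  xm : ∀ j < r, x m j = W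
  y0 : ∀ i < m, y i 0 = 0
  yr : ∀ i < m, y i r = H

section
variable {W H : ℝ} {m r : ℕ} {x y : ℕ → ℕ → ℝ}

theorem Grid.xi' (g : Grid W H m r x y) {i i' j : ℕ} (h : i ≤ i') (h' : i' ≤ m) (hj : j < r) :
    x i j ≤ x i' j := by
  induction i', h using Nat.le_induction with
  | base => exact le_rfl
  | succ k hk ih => exact (ih (by omega)).trans (g.xi k (by omega) j hj)

theorem Grid.xj' (g : Grid W H m r x y) {i j j' : ℕ} (h : j ≤ j') (h' : j' < r) (hi : i ≤ m) :
    x i j' ≤ x i j := by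
  induction j', h using Nat.le_induction with
  | base => exact le_rfl
  | succ k hk ih => exact (g.xj i hi k h').trans (ih (by omega))

theorem Grid.yj' (g : Grid W H m r x y) {i j j' : ℕ} (h : j ≤ j') (h' : j' ≤ r) (hi : i < m) :
    y i j ≤ y i j' := by
  induction j', h using Nat.le_induction with
  | base => exact le_rfl
  | succ k hk ih => exact (ih (by omega)).trans (g.yj i hi k (by omega))

theorem Grid.yi' (g : Grid W H m r x y) {i i' j : ℕ} (h : i ≤ i') (h' : i' < m) (hj : j ≤ r) :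
    y i j ≤ y i' j := by
  induction i', h using Nat.le_induction with
  | base => exact le_rfl
  | succ k hk ih => exact (ih (by omega)).trans (g.yi k h' j hj)

theorem Grid.xx (g : Grid W H m r x y) {i i' j j' : ℕ} (h : i ≤ i') (h' : i' ≤ m)
    (k : j' ≤ j) (k' : j < r) : x i j ≤ x i' j' :=
  (g.xi' h h' k').trans (g.xj' k k' h')

theorem Grid.yy (g : Grid W H m r x y) {i i' j j' : ℕ} (h : i ≤ i') (h' : i' < m)
    (k : j ≤ j') (k' : j' ≤ r) : y i j ≤ y i' j' :=
  (g.yi' h h' (k.trans k')).trans (g.yj' k k' h')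

theorem Grid.cell_inside (g : Grid W H m r x y) {q : ℕ × ℕ} (h1 : q.1 < m) (h2 : q.2 < r) :
    (gcell x y q).Inside W H := by
  have a1 := g.xi q.1 h1 q.2 h2
  have a2 := g.yj q.1 h1 q.2 h2
  have a3 := g.xi' (Nat.zero_le q.1) h1.le h2
  have a4 := g.xi' h1 (Nat.le_refl m) h2
  have a5 := g.yj' (Nat.zero_le q.2) h2.le h1
  have a6 := g.yj' h2 (Nat.le_refl r) h1
  rw [g.x0 q.2 h2] at a3
  rw [g.xm q.2 h2] at a4
  rw [g.y0 q.1 h1] at a5
  rw [g.yr q.1 h1] at a6
  refine ⟨?_, ?_, ?_, ?_, ?_, ?_⟩ <;> simp only [gcell] <;> linarith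

theorem Grid.hole_inside (g : Grid W H m r x y) {q : ℕ × ℕ} (h1 : q.1 + 1 < m)
    (h2 : q.2 + 1 < r) : (ghole x y q).Inside W H := by
  have a1 := g.xj (q.1 + 1) h1.le q.2 h2
  have a2 := g.yi q.1 h1 (q.2 + 1) h2.le
  have a3 := g.xi' (Nat.zero_le (q.1 + 1)) h1.le h2
  have a4 := g.xi' (h1.le) (Nat.le_refl m) (by omega : q.2 < r)
  have a5 := g.yj' (Nat.zero_le (q.2 + 1)) h2.le (by omega : q.1 < m)
  have a6 := g.yj' (h2.le) (Nat.le_refl r) h1
  rw [g.x0 (q.2 + 1) h2] at a3
  rw [g.xm q.2 (by omega)] at a4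
  rw [g.y0 q.1 (by omega)] at a5
  rw [g.yr (q.1 + 1) h1] at a6
  refine ⟨?_, ?_, ?_, ?_, ?_, ?_⟩ <;> simp only [ghole] <;> linarith

theorem Grid.cell_cell_aux (g : Grid W H m r x y) {q q' : ℕ × ℕ} (h1' : q'.1 < m)
    (h2 : q.2 < r) (h2' : q'.2 < r) (hlt : q.1 < q'.1) :
    (gcell x y q).Sep (gcell x y q') := by
  rcases le_or_gt q'.2 q.2 with h | h
  · left
    have := g.xx (Nat.succ_le_of_lt hlt) h1'.le h h2
    simp only [gcell]
    simp only [Nat.succ_eq_add_one] at this
    linarith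
  · right; right; left
    have := g.yy hlt.le h1' (Nat.succ_le_of_lt h) h2'.le
    simp only [gcell]
    simp only [Nat.succ_eq_add_one] at this
    linarith

theorem Grid.cell_cell (g : Grid W H m r x y) {q q' : ℕ × ℕ} (h1 : q.1 < m) (h1' : q'.1 < m)
    (h2 : q.2 < r) (h2' : q'.2 < r) (hne : q ≠ q') :
    (gcell x y q).Sep (gcell x y q') := by
  rcases lt_trichotomy q.1 q'.1 with h | h | h
  · exact g.cell_cell_aux h1' h2 h2' h
  · rcases lt_trichotomy q.2 q'.2 with k | k | k
    · right; right; left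
      have := g.yy h.le h1' (Nat.succ_le_of_lt k) h2'.le
      simp only [gcell]
      simp only [Nat.succ_eq_add_one] at this
      linarith
    · exact absurd (Prod.ext h k) hne
    · right; right; right
      have := g.yy h.ge h1 (Nat.succ_le_of_lt k) h2.le
      simp only [gcell]
      simp only [Nat.succ_eq_add_one] at this
      linarith
  · exact sep_symm (g.cell_cell_aux h1 h2' h2 h)

/-- cell against hole -/
theorem Grid.cell_hole (g : Grid W H m r x y) {q q' : ℕ × ℕ} (h1 : q.1 < m) (h2 : q.2 < r)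
    (h1' : q'.1 + 1 < m) (h2' : q'.2 + 1 < r) :
    (gcell x y q).Sep (ghole x y q') := by
  rcases le_or_gt q.1 q'.1 with h | h
  · rcases le_or_gt q.2 q'.2 with k | k
    · -- the cell is below the hole
      right; right; left
      have := g.yy h (by omega : q'.1 < m) (Nat.succ_le_succ k) h2'.le
      simp only [gcell, ghole]
      simp only [Nat.succ_eq_add_one] at this
      linarith
    · -- the cell is left of the hole
      left
      have := g.xx (Nat.succ_le_succ h) h1'.le (Nat.succ_le_of_lt k) h2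
      simp only [gcell, ghole]
      simp only [Nat.succ_eq_add_one] at this
      linarith
  · rcases le_or_gt q.2 q'.2 with k | k
    · -- the cell is right of the hole
      right; left
      have := g.xx (Nat.succ_le_of_lt h) h1.le k (by omega : q'.2 < r)
      simp only [gcell, ghole]
      simp only [Nat.succ_eq_add_one] at this
      linarith
    · -- the cell is above the hole
      right; right; right
      have := g.yy (Nat.succ_le_of_lt h) h1 (Nat.succ_le_of_lt k) h2.le
      simp only [gcell, ghole]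
      simp only [Nat.succ_eq_add_one] at this
      linarith

theorem Grid.hole_hole_aux (g : Grid W H m r x y) {q q' : ℕ × ℕ} (h1' : q'.1 + 1 < m)
    (h2 : q.2 + 1 < r) (h2' : q'.2 + 1 < r) (hlt : q.1 < q'.1) :
    (ghole x y q).Sep (ghole x y q') := by
  rcases le_or_gt q.2 q'.2 with h | h
  · right; right; left
    have := g.yy (Nat.succ_le_of_lt hlt) (by omega : q'.1 < m) (Nat.succ_le_succ h) h2'.le
    simp only [ghole]
    simp only [Nat.succ_eq_add_one] at this
    linarith
  · left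
    have := g.xx (Nat.succ_le_succ hlt.le) h1'.le (Nat.succ_le_of_lt h) (by omega : q.2 < r)
    simp only [ghole]
    simp only [Nat.succ_eq_add_one] at this
    linarith

theorem Grid.hole_hole (g : Grid W H m r x y) {q q' : ℕ × ℕ} (h1 : q.1 + 1 < m)
    (h1' : q'.1 + 1 < m) (h2 : q.2 + 1 < r) (h2' : q'.2 + 1 < r) (hne : q ≠ q') :
    (ghole x y q).Sep (ghole x y q') := by
  rcases lt_trichotomy q.1 q'.1 with h | h | h
  · exact g.hole_hole_aux h1' h2 h2' h
  · rcases lt_trichotomy q.2 q'.2 with k | k | k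
    · right; left
      have := g.xx (Nat.succ_le_succ h.ge) h1.le (Nat.succ_le_of_lt k) (by omega : q'.2 < r)
      simp only [ghole]
      simp only [Nat.succ_eq_add_one] at this
      linarith
    · exact absurd (Prod.ext h k) hne
    · left
      have := g.xx (Nat.succ_le_succ h.le) h1'.le (Nat.succ_le_of_lt k) (by omega : q.2 < r)
      simp only [ghole]
      simp only [Nat.succ_eq_add_one] at this
      linarith
  · exact sep_symm (g.hole_hole_aux h1 h2' h2 h)

end

/-- dimensions of a box -/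
def bd (b : Box) : ℝ × ℝ := (b.w, b.h)

/-- all pairs `(i,j)` with `i < m`, `j < r` -/
def prs (m r : ℕ) : List (ℕ × ℕ) := List.product (List.range m) (List.range r)

theorem prs_nodup (m r : ℕ) : (prs m r).Nodup := List.nodup_range.product List.nodup_range

theorem mem_prs {m r : ℕ} {q : ℕ × ℕ} : q ∈ prs m r ↔ q.1 < m ∧ q.2 < r := by
  obtain ⟨a, b⟩ := q
  unfold prs
  rw [List.pair_mem_product, List.mem_range, List.mem_range]

theorem forall2_bd (B : List Box) : List.Forall₂ Box.Dims B (B.map bd) := by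
  rw [List.forall₂_map_right_iff]
  exact List.forall₂_same.2 (fun b _ => Or.inl ⟨rfl, rfl⟩)

theorem pairwise_map_of_nodup {α : Type} {l : List α} (hl : l.Nodup) (f : α → Box)
    (h : ∀ a ∈ l, ∀ b ∈ l, a ≠ b → (f a).Sep (f b)) : (l.map f).Pairwise Box.Sep := by
  rw [List.pairwise_map]
  exact hl.pairwise_of_forall_ne h

/-- **Grid lemma.** -/
theorem tiled_grid {W H : ℝ} {m r : ℕ} {x y : ℕ → ℕ → ℝ} (g : Grid W H m r x y) :
    Tiled W H ((prs m r).map (fun q => bd (gcell x y q)) ++
      (prs (m - 1) (r - 1)).map (fun q => bd (ghole x y q))) ∅ := by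
  refine ⟨(prs m r).map (gcell x y) ++ (prs (m - 1) (r - 1)).map (ghole x y), fun _ => (0, 0),
    ?_, ?_, ?_, ?_, ?_, ?_⟩
  · have h := forall2_bd ((prs m r).map (gcell x y) ++ (prs (m - 1) (r - 1)).map (ghole x y))
    rw [List.map_append, List.map_map, List.map_map] at h
    exact h
  · intro b hb
    rcases List.mem_append.1 hb with hb | hb
    · obtain ⟨q, hq, rfl⟩ := List.mem_map.1 hb
      rw [mem_prs] at hq
      exact g.cell_inside hq.1 hq.2
    · obtain ⟨q, hq, rfl⟩ := List.mem_map.1 hb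
      rw [mem_prs] at hq
      exact g.hole_inside (by omega) (by omega)
  · rw [List.pairwise_append]
    refine ⟨?_, ?_, ?_⟩
    · refine pairwise_map_of_nodup (prs_nodup _ _) _ (fun a ha b hb hab => ?_)
      rw [mem_prs] at ha hb
      exact g.cell_cell ha.1 hb.1 ha.2 hb.2 hab
    · refine pairwise_map_of_nodup (prs_nodup _ _) _ (fun a ha b hb hab => ?_)
      rw [mem_prs] at ha hb
      exact g.hole_hole (by omega) (by omega) (by omega) (by omega) hab
    · intro a ha b hb
      obtain ⟨q, hq, rfl⟩ := List.mem_map.1 ha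
      obtain ⟨q', hq', rfl⟩ := List.mem_map.1 hb
      rw [mem_prs] at hq hq'
      exact g.cell_hole hq.1 hq.2 (by omega) (by omega)
  · simp
  · simp
  · simp

end Pool.Agent.LibMoserF
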