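import Pool.Agent.LibMoserF.Area
set_option autoImplicit false
namespace Pool.Agent.LibMoserF
open Classical Pool.Agent.LibMoser5

noncomputable section

/-! The pinwheel block: `M+1` columns and `R+1` rows of squares; the square in column `i` and
row `j` has index `n i j`.  Column `i+1` starts `V i` above column `i`. -/

/-- left side of the square `(i,j)` -/
def PX (n : ℕ → ℕ → ℕ) (i j : ℕ) : ℝ := ∑ k ∈ Finset.range i, sd (n k j)

/-- lower side of the square `(i,j)` -/
def PY (n : ℕ → ℕ → ℕ) (V : ℕ → ℝ) (i j : ℕ) : ℝ :=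
  ∑ k ∈ Finset.range i, V k + ∑ l ∈ Finset.range j, sd (n i l)

/-- hypotheses of the pinwheel block in the frame `[0,W] × [0,H]` -/
structure PW (W H : ℝ) (M R : ℕ) (n : ℕ → ℕ → ℕ) (V : ℕ → ℝ) : Prop where
  hdec : ∀ i ≤ M, ∀ j < R, n i j ≤ n i (j + 1)
  hV : ∀ i < M, ∀ j ≤ R + 1, ∑ l ∈ Finset.range j, (sd (n i l) - sd (n (i + 1) l)) ≤ V i
  hW : PX n (M + 1) 0 ≤ W
  hH : ∀ i ≤ M, PY n V i (R + 1) ≤ H
  inj : ∀ i ≤ M, ∀ j ≤ R, ∀ i' ≤ M, ∀ j' ≤ R, n i j = n i' j' → i = i' ∧ j = j'

/-- the holes of the block -/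
def pwHole (M R : ℕ) (n : ℕ → ℕ → ℕ) (V : ℕ → ℝ) : List (ℝ × ℝ) :=
  (prs M R).map (fun q => (PX n (q.1 + 1) q.2 - PX n (q.1 + 1) (q.2 + 1),
    PY n V (q.1 + 1) (q.2 + 1) - PY n V q.1 (q.2 + 1)))

/-- the pieces at the right side -/
def pwRight (W : ℝ) (M R : ℕ) (n : ℕ → ℕ → ℕ) : List (ℝ × ℝ) :=
  (List.range (R + 1)).map (fun j => (W - PX n (M + 1) j, sd (n M j)))

/-- the pieces below the block -/
def pwBot (M : ℕ) (n : ℕ → ℕ → ℕ) (V : ℕ → ℝ) : List (ℝ × ℝ) :=
  (List.range M).map (fun i => (PY n V (i + 1) 0, sd (n (i + 1) 0)))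

/-- the pieces above the block -/
def pwTop (H : ℝ) (M R : ℕ) (n : ℕ → ℕ → ℕ) (V : ℕ → ℝ) : List (ℝ × ℝ) :=
  (List.range (M + 1)).map (fun i => (H - PY n V i (R + 1), sd (n i R)))

/-- the two corner pieces -/
def pwCorner (W H : ℝ) (M R : ℕ) (n : ℕ → ℕ → ℕ) (V : ℕ → ℝ) : List (ℝ × ℝ) :=
  [(W - PX n (M + 1) 0, PY n V M 0), (W - PX n (M + 1) R, H - PY n V M (R + 1))]

/-- all the free rectangles of the block -/
def pwList (W H : ℝ) (M R : ℕ) (n : ℕ → ℕ → ℕ) (V : ℕ → ℝ) : List (ℝ × ℝ) :=
  pwHole M R n V ++ (pwRight W M R n ++ (pwBot M n V ++ (pwTop H M R n V ++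
    pwCorner W H M R n V)))

/-- the squares of the block -/
def pwSet (M R : ℕ) (n : ℕ → ℕ → ℕ) : Finset ℕ :=
  (Finset.range (M + 1) ×ˢ Finset.range (R + 1)).image (fun q => n q.1 q.2)

/-- coordinates of the extended grid -/
def gx (W : ℝ) (M R : ℕ) (n : ℕ → ℕ → ℕ) (i j : ℕ) : ℝ :=
  if i ≤ M + 1 then PX n i (min (j - 1) R) else W

def gy (H : ℝ) (M R : ℕ) (n : ℕ → ℕ → ℕ) (V : ℕ → ℝ) (i j : ℕ) : ℝ :=
  if j = 0 then 0 else if j ≤ R + 2 then PY n V (min i M) (j - 1) else H

section
variable {W H : ℝ} {M R : ℕ} {n : ℕ → ℕ → ℕ} {V : ℕ → ℝ}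

theorem sd_anti {a b : ℕ} (h : a ≤ b) : sd b ≤ sd a := by
  unfold sd
  have : (a : ℝ) ≤ b := by exact_mod_cast h
  exact one_div_le_one_div_of_le (by positivity) (by linarith)

theorem sd_pos (a : ℕ) : 0 < sd a := by unfold sd; positivity

theorem PW.V0 (g : PW W H M R n V) {i : ℕ} (hi : i < M) : 0 ≤ V i := by
  simpa using g.hV i hi 0 (Nat.zero_le _)

theorem PX_succ (i j : ℕ) : PX n (i + 1) j = PX n i j + sd (n i j) := by
  unfold PX; rw [Finset.sum_range_succ]

theorem PY_succ (i j : ℕ) : PY n V i (j + 1) = PY n V i j + sd (n i j) := by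
  unfold PY; rw [Finset.sum_range_succ]; ring

theorem PW.PX_anti (g : PW W H M R n V) {i j : ℕ} (hi : i ≤ M + 1) (hj : j < R) :
    PX n i (j + 1) ≤ PX n i j := by
  unfold PX
  refine Finset.sum_le_sum (fun k hk => sd_anti (g.hdec k ?_ j hj))
  rw [Finset.mem_range] at hk
  omega

theorem PW.PY_mono (g : PW W H M R n V) {i j : ℕ} (hi : i < M) (hj : j ≤ R + 1) :
    PY n V i j ≤ PY n V (i + 1) j := by
  have h := g.hV i hi j hj
  rw [Finset.sum_sub_distrib] at h
  unfold PY
  rw [Finset.sum_range_succ]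
  linarith

theorem PW.PY_nonneg (g : PW W H M R n V) {i : ℕ} (hi : i ≤ M) : 0 ≤ PY n V i 0 := by
  unfold PY
  rw [Finset.sum_range_zero, add_zero]
  refine Finset.sum_nonneg (fun k hk => g.V0 ?_)
  rw [Finset.mem_range] at hk
  omega

theorem gx_lo {i j : ℕ} (hi : i ≤ M + 1) : gx W M R n i j = PX n i (min (j - 1) R) :=
  if_pos hi

theorem gx_mid {i j : ℕ} (hi : i ≤ M + 1) (hj : j ≤ R) : gx W M R n i (j + 1) = PX n i j := by
  rw [gx_lo hi, Nat.add_sub_cancel, min_eq_left hj]

theorem gx_zero {i : ℕ} (hi : i ≤ M + 1) : gx W M R n i 0 = PX n i 0 := by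
  rw [gx_lo hi]; simp

theorem gx_top {i : ℕ} (hi : i ≤ M + 1) : gx W M R n i (R + 2) = PX n i R := by
  rw [gx_lo hi]
  congr 1
  omega

theorem gx_hi {j : ℕ} : gx W M R n (M + 2) j = W := if_neg (by omega)

theorem gy_zero {i : ℕ} : gy H M R n V i 0 = 0 := if_pos rfl

theorem gy_mid {i j : ℕ} (hi : i ≤ M) (hj : j ≤ R + 1) :
    gy H M R n V i (j + 1) = PY n V i j := by
  unfold gy
  rw [if_neg (by omega), if_pos (by omega), min_eq_left hi, Nat.add_sub_cancel]

theorem gy_right {j : ℕ} (hj : j ≤ R + 1) :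
    gy H M R n V (M + 1) (j + 1) = PY n V M j := by
  unfold gy
  rw [if_neg (by omega), if_pos (by omega), Nat.add_sub_cancel]
  congr 1
  omega

theorem gy_top {i : ℕ} : gy H M R n V i (R + 3) = H := by
  unfold gy
  rw [if_neg (by omega), if_neg (by omega)]

/-- the extended grid -/
theorem PW.grid (g : PW W H M R n V) :
    Grid W H (M + 2) (R + 3) (gx W M R n) (gy H M R n V) := by
  have hXX : ∀ i ≤ M + 1, ∀ j ≤ R, ∀ j' ≤ R, j ≤ j' → PX n i j' ≤ PX n i j := by
    intro i hi j hj j' hj' hjj
    induction j', hjj using Nat.le_induction with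
    | base => exact le_rfl
    | succ k hk ih => exact (g.PX_anti hi (by omega)).trans (ih (by omega))
  refine ⟨?_, ?_, ?_, ?_, ?_, ?_, ?_, ?_⟩
  · intro i hi j hj
    rcases Nat.lt_or_ge i (M + 1) with h | h
    · rw [gx_lo (by omega), gx_lo (by omega), PX_succ]
      linarith [sd_pos (n i (min (j - 1) R))]
    · have : i = M + 1 := by omega
      subst this
      rw [gx_lo (by omega), gx_hi]
      exact (hXX (M + 1) le_rfl 0 (by omega) _ (by omega) (by omega)).trans g.hW
  · intro i hi j hj
    rcases Nat.lt_or_ge i (M + 2) with h | h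
    · rw [gx_lo (by omega), gx_lo (by omega)]
      exact hXX i (by omega) _ (by omega) _ (by omega) (by omega)
    · have : i = M + 2 := by omega
      subst this
      rw [gx_hi, gx_hi]
  · intro i hi j hj
    have hmono : ∀ i ≤ M, ∀ j < R + 3, gy H M R n V i j ≤ gy H M R n V i (j + 1) := by
      intro i hi j hj
      rcases Nat.eq_zero_or_pos j with h0 | h0
      · subst h0
        rw [gy_zero, gy_mid hi (by omega)]
        exact g.PY_nonneg hi
      · obtain ⟨k, rfl⟩ : ∃ k, j = k + 1 := ⟨j - 1, by omega⟩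
        rcases Nat.lt_or_ge k (R + 1) with h1 | h1
        · rw [gy_mid hi (by omega), gy_mid hi (by omega), PY_succ]
          linarith [sd_pos (n i k)]
        · have : k = R + 1 := by omega
          subst this
          rw [gy_mid hi (by omega), gy_top]
          exact g.hH i hi
    rcases Nat.lt_or_ge i (M + 1) with h | h
    · exact hmono i (by omega) j hj
    · have e : ∀ j, gy H M R n V i j = gy H M R n V M j := by
        intro j
        unfold gy
        have : min i M = min M M := by omega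
        rw [this]
      rw [e, e]
      exact hmono M le_rfl j hj
  · intro i hi j hj
    rcases Nat.eq_zero_or_pos j with h0 | h0
    · subst h0
      rw [gy_zero, gy_zero]
    · obtain ⟨k, rfl⟩ : ∃ k, j = k + 1 := ⟨j - 1, by omega⟩
      rcases Nat.lt_or_ge k (R + 2) with h1 | h1
      · rcases Nat.lt_or_ge i M with h | h
        · rw [gy_mid h.le (by omega), gy_mid h (by omega)]
          exact g.PY_mono h (by omega)
        · have : i = M := by omega
          subst this
          rw [gy_mid le_rfl (by omega), gy_right (by omega)]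
      · have : k = R + 2 := by omega
        subst this
        rw [gy_top, gy_top]
  · intro j hj
    rw [gx_lo (by omega)]
    simp [PX]
  · intro j hj
    exact gx_hi
  · intro i hi
    exact gy_zero
  · intro i hi
    exact gy_top

theorem mem_pwSet {k : ℕ} : k ∈ pwSet M R n ↔ ∃ i ≤ M, ∃ j ≤ R, n i j = k := by
  unfold pwSet
  rw [Finset.mem_image]
  constructor
  · rintro ⟨q, hq, rfl⟩
    rw [Finset.mem_product, Finset.mem_range, Finset.mem_range] at hq
    exact ⟨q.1, by omega, q.2, by omega, rfl⟩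
  · rintro ⟨i, hi, j, hj, rfl⟩
    refine ⟨(i, j), ?_, rfl⟩
    rw [Finset.mem_product, Finset.mem_range, Finset.mem_range]
    exact ⟨by simp only; omega, by simp only; omega⟩

/-- placing squares in cells of a grid -/
theorem tiled_grid_place {x y : ℕ → ℕ → ℝ} {m r : ℕ} (g : Grid W H m r x y)
    (Lc Lh : List (ℕ × ℕ)) (hc : Lc.Nodup) (hh : Lh.Nodup)
    (bc : ∀ q ∈ Lc, q.1 < m ∧ q.2 < r) (bh : ∀ q ∈ Lh, q.1 + 1 < m ∧ q.2 + 1 < r)
    (P : Finset ℕ) (pos : ℕ → ℕ × ℕ) (bp : ∀ k ∈ P, (pos k).1 < m ∧ (pos k).2 < r)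
    (hpos : ∀ k ∈ P, ∀ l ∈ P, k ≠ l → pos k ≠ pos l) (hpc : ∀ k ∈ P, pos k ∉ Lc)
    (hsd : ∀ k ∈ P, bd (gcell x y (pos k)) = (sd k, sd k)) :
    Tiled W H (Lc.map (fun q => bd (gcell x y q)) ++ Lh.map (fun q => bd (ghole x y q))) P := by
  have hsq : ∀ k ∈ P, sq k (x (pos k).1 (pos k).2, y (pos k).1 (pos k).2) =
      gcell x y (pos k) := by
    intro k hk
    have h := hsd k hk
    unfold bd at h
    rw [Prod.mk.injEq] at h
    unfold LibMoser5.sq gcell
    unfold gcell at h
    simp only at h
    rw [← h.1]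
    congr 1
    rw [h.1, ← h.2]
  refine ⟨Lc.map (gcell x y) ++ Lh.map (ghole x y),
    fun k => (x (pos k).1 (pos k).2, y (pos k).1 (pos k).2), ?_, ?_, ?_, ?_, ?_, ?_⟩
  · have h := forall2_bd (Lc.map (gcell x y) ++ Lh.map (ghole x y))
    rw [List.map_append, List.map_map, List.map_map] at h
    exact h
  · intro b hb
    rcases List.mem_append.1 hb with hb | hb
    · obtain ⟨q, hq, rfl⟩ := List.mem_map.1 hb
      exact g.cell_inside (bc q hq).1 (bc q hq).2
    · obtain ⟨q, hq, rfl⟩ := List.mem_map.1 hb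
      exact g.hole_inside (bh q hq).1 (bh q hq).2
  · rw [List.pairwise_append]
    refine ⟨?_, ?_, ?_⟩
    · refine pairwise_map_of_nodup hc _ (fun a ha b hb hab => ?_)
      exact g.cell_cell (bc a ha).1 (bc b hb).1 (bc a ha).2 (bc b hb).2 hab
    · refine pairwise_map_of_nodup hh _ (fun a ha b hb hab => ?_)
      exact g.hole_hole (bh a ha).1 (bh b hb).1 (bh a ha).2 (bh b hb).2 hab
    · intro a ha b hb
      obtain ⟨q, hq, rfl⟩ := List.mem_map.1 ha
      obtain ⟨q', hq', rfl⟩ := List.mem_map.1 hb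
      exact g.cell_hole (bc q hq).1 (bc q hq).2 (bh q' hq').1 (bh q' hq').2
  · intro k hk
    rw [hsq k hk]
    exact g.cell_inside (bp k hk).1 (bp k hk).2
  · intro b hb k hk
    rw [hsq k hk]
    rcases List.mem_append.1 hb with hb | hb
    · obtain ⟨q, hq, rfl⟩ := List.mem_map.1 hb
      refine g.cell_cell (bc q hq).1 (bp k hk).1 (bc q hq).2 (bp k hk).2 ?_
      intro e
      exact hpc k hk (e ▸ hq)
    · obtain ⟨q, hq, rfl⟩ := List.mem_map.1 hb
      exact sep_symm (g.cell_hole (bp k hk).1 (bp k hk).2 (bh q hq).1 (bh q hq).2)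
  · intro k hk l hl hkl
    rw [hsq k hk, hsq l hl]
    exact g.cell_cell (bp k hk).1 (bp l hl).1 (bp k hk).2 (bp l hl).2 (hpos k hk l hl hkl)

/-- indices of the free cells of the extended grid -/
def freeCells (M R : ℕ) : List (ℕ × ℕ) :=
  (List.range (R + 1)).map (fun j => (M + 1, j + 1)) ++
  ((List.range M).map (fun i => (i + 1, 0)) ++
  ((List.range (M + 1)).map (fun i => (i, R + 2)) ++ [(M + 1, 0), (M + 1, R + 2)]))

theorem freeCells_nodup (M R : ℕ) : (freeCells M R).Nodup := by
  unfold freeCells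
  have h1 : ((List.range (R + 1)).map (fun j => (M + 1, j + 1))).Nodup :=
    List.nodup_range.map (fun a b h => by
      simp only [Prod.mk.injEq] at h; omega)
  have h2 : ((List.range M).map (fun i => (i + 1, 0))).Nodup :=
    List.nodup_range.map (fun a b h => by
      simp only [Prod.mk.injEq] at h; omega)
  have h3 : ((List.range (M + 1)).map (fun i => (i, R + 2))).Nodup :=
    List.nodup_range.map (fun a b h => by
      simp only [Prod.mk.injEq] at h; omega)
  have h4 : ([(M + 1, 0), (M + 1, R + 2)] : List (ℕ × ℕ)).Nodup := by simp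
  rw [List.nodup_append']
  refine ⟨h1, ?_, ?_⟩
  · rw [List.nodup_append']
    refine ⟨h2, ?_, ?_⟩
    · rw [List.nodup_append']
      refine ⟨h3, h4, ?_⟩
      intro q hq hq'
      obtain ⟨i, hi, rfl⟩ := List.mem_map.1 hq
      rw [List.mem_range] at hi
      simp only [List.mem_cons, List.not_mem_nil, or_false, Prod.mk.injEq] at hq'
      omega
    · intro q hq hq'
      obtain ⟨i, hi, rfl⟩ := List.mem_map.1 hq
      rw [List.mem_range] at hi
      rcases List.mem_append.1 hq' with h | h
      · obtain ⟨j, hj, e⟩ := List.mem_map.1 h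
        simp only [Prod.mk.injEq] at e
        omega
      · simp only [List.mem_cons, List.not_mem_nil, or_false, Prod.mk.injEq] at h
        omega
  · intro q hq hq'
    obtain ⟨i, hi, rfl⟩ := List.mem_map.1 hq
    rw [List.mem_range] at hi
    rcases List.mem_append.1 hq' with h | h
    · obtain ⟨j, hj, e⟩ := List.mem_map.1 h
      simp only [Prod.mk.injEq] at e
      omega
    · rcases List.mem_append.1 h with h | h
      · obtain ⟨j, hj, e⟩ := List.mem_map.1 h
        rw [List.mem_range] at hj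
        simp only [Prod.mk.injEq] at e
        omega
      · simp only [List.mem_cons, List.not_mem_nil, or_false, Prod.mk.injEq] at h
        omega

theorem freeCells_bound {q : ℕ × ℕ} (hq : q ∈ freeCells M R) :
    q.1 < M + 2 ∧ q.2 < R + 3 ∧ (q.1 = M + 1 ∨ q.2 = 0 ∨ q.2 = R + 2) := by
  unfold freeCells at hq
  rcases List.mem_append.1 hq with h | h
  · obtain ⟨j, hj, rfl⟩ := List.mem_map.1 h
    rw [List.mem_range] at hj
    refine ⟨by simp only; omega, by simp only; omega, Or.inl rfl⟩
  rcases List.mem_append.1 h with h | h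
  · obtain ⟨j, hj, rfl⟩ := List.mem_map.1 h
    rw [List.mem_range] at hj
    refine ⟨by simp only; omega, by simp only; omega, Or.inr (Or.inl rfl)⟩
  rcases List.mem_append.1 h with h | h
  · obtain ⟨j, hj, rfl⟩ := List.mem_map.1 h
    rw [List.mem_range] at hj
    refine ⟨by simp only; omega, by simp only; omega, Or.inr (Or.inr rfl)⟩
  · simp only [List.mem_cons, List.not_mem_nil, or_false] at h
    rcases h with rfl | rfl
    · refine ⟨by simp only; omega, by simp only; omega, Or.inl rfl⟩
    · refine ⟨by simp only; omega, by simp only; omega, Or.inl rfl⟩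

/-- squares are cells -/
theorem pw_cell {i j : ℕ} (hi : i ≤ M) (hj : j ≤ R) :
    bd (gcell (gx W M R n) (gy H M R n V) (i, j + 1)) = (sd (n i j), sd (n i j)) := by
  unfold bd gcell
  simp only
  rw [gx_mid (by omega) hj, gx_mid (by omega) hj, gy_mid hi (by omega), gy_mid hi (by omega),
    PX_succ, PY_succ]
  congr 1 <;> ring

theorem pw_freeList :
    (freeCells M R).map (fun q => bd (gcell (gx W M R n) (gy H M R n V) q)) ++
      ((prs M R).map (fun q => (q.1, q.2 + 1))).map
        (fun q => bd (ghole (gx W M R n) (gy H M R n V) q)) =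
    ((pwRight W M R n ++ ((pwBot M n V).map Prod.swap ++ ((pwTop H M R n V).map Prod.swap ++
      pwCorner W H M R n V))) ++ pwHole M R n V) := by
  unfold freeCells pwRight pwBot pwTop pwCorner pwHole
  simp only [List.map_append, List.map_map]
  congr 1
  · congr 1
    · refine List.map_congr_left (fun j hj => ?_)
      rw [List.mem_range] at hj
      simp only [Function.comp, bd, gcell]
      rw [gx_mid le_rfl (by omega), gx_hi, gy_right (by omega), gy_right (by omega), PY_succ]
      congr 1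
      ring
    · congr 1
      · refine List.map_congr_left (fun j hj => ?_)
        rw [List.mem_range] at hj
        simp only [Function.comp, bd, gcell, Prod.swap]
        rw [gx_zero (by omega), gx_zero (by omega), gy_zero, gy_mid (by omega) (by omega),
          PX_succ]
        congr 1 <;> ring
      · congr 1
        · refine List.map_congr_left (fun j hj => ?_)
          rw [List.mem_range] at hj
          simp only [Function.comp, bd, gcell, Prod.swap]
          rw [gx_top (by omega), gx_top (by omega), gy_top, gy_mid (by omega) (by omega),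
            PX_succ]
          congr 1
          ring
        · simp only [List.map_cons, List.map_nil, bd, gcell]
          rw [gx_hi, gx_zero le_rfl, gx_hi, gx_top le_rfl, gy_zero, gy_right (by omega), gy_top,
            gy_right (by omega)]
          simp
  · refine List.map_congr_left (fun q hq => ?_)
    rw [mem_prs] at hq
    simp only [Function.comp, bd, ghole]
    rw [gx_mid (by omega) hq.2.le, gx_mid (by omega) hq.2, gy_mid (by omega) (by omega),
      gy_mid (by omega) (by omega)]

theorem Tiled.dims {F F' : List (ℝ × ℝ)} {P : Finset ℕ} (h : Tiled W H F P)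
    (hF : List.Forall₂ (fun d d' => ∀ b : Box, b.Dims d → b.Dims d') F F') :
    Tiled W H F' P := by
  obtain ⟨B, p, h1, h2⟩ := h
  refine ⟨B, p, ?_, h2⟩
  clear h2
  induction h1 generalizing F' with
  | nil =>
    rw [List.forall₂_nil_left_iff] at hF
    rw [hF]
    exact List.Forall₂.nil
  | cons hd _ ih =>
    rw [List.forall₂_cons_left_iff] at hF
    obtain ⟨d', F0, k1, k2, rfl⟩ := hF
    exact List.Forall₂.cons (k1 _ hd) (ih k2)

theorem forall2_same_dims (L : List (ℝ × ℝ)) :
    List.Forall₂ (fun d d' => ∀ b : Box, b.Dims d → b.Dims d') L L :=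
  List.forall₂_same.2 (fun _ _ _ h => h)

theorem forall2_swap_dims (L : List (ℝ × ℝ)) :
    List.Forall₂ (fun d d' => ∀ b : Box, b.Dims d → b.Dims d') (L.map Prod.swap) L := by
  rw [List.forall₂_map_left_iff]
  exact List.forall₂_same.2 (fun d _ b h => h.symm)

/-- **The pinwheel block.** -/
theorem PW.tiled (g : PW W H M R n V) : Tiled W H (pwList W H M R n V) (pwSet M R n) := by
  have hex : ∀ k ∈ pwSet M R n, ∃ q : ℕ × ℕ, q.1 ≤ M ∧ q.2 ≤ R ∧ n q.1 q.2 = k := by
    intro k hk
    obtain ⟨i, hi, j, hj, h⟩ := mem_pwSet.1 hk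
    exact ⟨(i, j), hi, hj, h⟩
  let ps : ℕ → ℕ × ℕ := fun k => if hk : k ∈ pwSet M R n then (Classical.choose (hex k hk)) else (0, 0)
  have hps : ∀ k ∈ pwSet M R n, (ps k).1 ≤ M ∧ (ps k).2 ≤ R ∧ n (ps k).1 (ps k).2 = k := by
    intro k hk
    have : ps k = Classical.choose (hex k hk) := dif_pos hk
    rw [this]
    exact Classical.choose_spec (hex k hk)
  have ht := tiled_grid_place g.grid (freeCells M R) ((prs M R).map (fun q => (q.1, q.2 + 1)))
    (freeCells_nodup M R)
    ((prs_nodup M R).map (fun a b h => by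
      simp only [Prod.mk.injEq] at h
      exact Prod.ext h.1 (by omega)))
    (fun q hq => ⟨(freeCells_bound hq).1, (freeCells_bound hq).2.1⟩)
    (by
      intro q hq
      obtain ⟨q', hq', rfl⟩ := List.mem_map.1 hq
      rw [mem_prs] at hq'
      simp only
      omega)
    (pwSet M R n) (fun k => ((ps k).1, (ps k).2 + 1))
    (by
      intro k hk
      obtain ⟨h1, h2, _⟩ := hps k hk
      simp only
      omega)
    (by
      intro k hk l hl hkl e
      simp only [Prod.mk.injEq] at e
      apply hkl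
      rw [← (hps k hk).2.2, ← (hps l hl).2.2, e.1]
      congr 1
      omega)
    (by
      intro k hk hmem
      obtain ⟨h1, h2, _⟩ := hps k hk
      have := (freeCells_bound hmem).2.2
      simp only at this
      omega)
    (by
      intro k hk
      obtain ⟨h1, h2, h3⟩ := hps k hk
      rw [pw_cell h1 h2, h3])
  rw [pw_freeList] at ht
  refine Tiled.perm (F := (pwRight W M R n ++ (pwBot M n V ++ (pwTop H M R n V ++
      pwCorner W H M R n V))) ++ pwHole M R n V) (Tiled.dims ht ?_) List.perm_append_comm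
  refine List.rel_append (List.rel_append (forall2_same_dims _) (List.rel_append
    (forall2_swap_dims _) (List.rel_append (forall2_swap_dims _) (forall2_same_dims _))))
    (forall2_same_dims _)

theorem sum_pwSet (g : PW W H M R n V) :
    ∑ k ∈ pwSet M R n, sd k ^ 2 =
      ∑ i ∈ Finset.range (M + 1), ∑ j ∈ Finset.range (R + 1), sd (n i j) ^ 2 := by
  unfold pwSet
  rw [Finset.sum_image, Finset.sum_product]
  intro q hq q' hq' e
  rw [Finset.mem_coe, Finset.mem_product, Finset.mem_range, Finset.mem_range] at hq hq'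
  have := g.inj q.1 (by omega) q.2 (by omega) q'.1 (by omega) q'.2 (by omega) e
  exact Prod.ext this.1 this.2

end

end

end Pool.Agent.LibMoserF
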