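import Pool.Agent.LibMoserF.Pinwheel
set_option autoImplicit false
namespace Pool.Agent.LibMoserF
open Classical Pool.Agent.LibMoser5

section
variable {W H : ℝ} {M R : ℕ} {n : ℕ → ℕ → ℕ} {V : ℕ → ℝ}

theorem ar_map_range (k : ℕ) (f : ℕ → ℝ × ℝ) :
    ar ((List.range k).map f) = ∑ j ∈ Finset.range k, (f j).1 * (f j).2 := by
  unfold ar
  rw [List.map_map]
  induction k with
  | zero => simp
  | succ k ih =>
    rw [List.range_succ, List.map_append, List.sum_append, ih, Finset.sum_range_succ]
    simp

theorem PW.area (g : PW W H M R n V) :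
    ar (pwList W H M R n V) + ∑ k ∈ pwSet M R n, sd k ^ 2 = W * H := by
  have hA := grid_area g.grid
  rw [sum_pwSet g]
  -- cells
  have h1 : ∀ i ≤ M, ∑ j ∈ Finset.range (R + 3),
      (gx W M R n (i + 1) j - gx W M R n i j) * (gy H M R n V i (j + 1) - gy H M R n V i j) =
      sd (n i 0) * PY n V i 0 + ∑ j ∈ Finset.range (R + 1), sd (n i j) ^ 2 +
        sd (n i R) * (H - PY n V i (R + 1)) := by
    intro i hi
    rw [Finset.sum_range_succ, Finset.sum_range_succ']
    have e1 : ∀ j ∈ Finset.range (R + 1),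
        (gx W M R n (i + 1) (j + 1) - gx W M R n i (j + 1)) *
          (gy H M R n V i (j + 1 + 1) - gy H M R n V i (j + 1)) = sd (n i j) ^ 2 := by
      intro j hj
      rw [Finset.mem_range] at hj
      rw [gx_mid (by omega) (by omega), gx_mid (by omega) (by omega), gy_mid hi (by omega),
        gy_mid hi (by omega), PX_succ, PY_succ]
      ring
    rw [Finset.sum_congr rfl e1, gx_zero (by omega), gx_zero (by omega), gy_zero,
      gy_mid hi (by omega), gx_top (by omega), gx_top (by omega), gy_top,
      gy_mid hi le_rfl, PX_succ, PX_succ]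
    ring
  have h2 : ∑ j ∈ Finset.range (R + 3),
      (gx W M R n (M + 1 + 1) j - gx W M R n (M + 1) j) *
        (gy H M R n V (M + 1) (j + 1) - gy H M R n V (M + 1) j) =
      (W - PX n (M + 1) 0) * PY n V M 0 +
      ∑ j ∈ Finset.range (R + 1), (W - PX n (M + 1) j) * sd (n M j) +
      (W - PX n (M + 1) R) * (H - PY n V M (R + 1)) := by
    rw [Finset.sum_range_succ, Finset.sum_range_succ']
    have e1 : ∀ j ∈ Finset.range (R + 1),
        (gx W M R n (M + 1 + 1) (j + 1) - gx W M R n (M + 1) (j + 1)) *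
          (gy H M R n V (M + 1) (j + 1 + 1) - gy H M R n V (M + 1) (j + 1)) =
          (W - PX n (M + 1) j) * sd (n M j) := by
      intro j hj
      rw [Finset.mem_range] at hj
      rw [gx_mid le_rfl (by omega), gx_hi, gy_right (by omega), gy_right (by omega), PY_succ]
      ring
    rw [Finset.sum_congr rfl e1, gx_zero le_rfl, gx_hi, gy_zero, gy_right (by omega), gx_hi,
      gx_top le_rfl, gy_top, gy_right le_rfl]
    ring
  have h3 : ∑ i ∈ Finset.range (M + 1), ∑ j ∈ Finset.range (R + 2),
      (gx W M R n (i + 1) j - gx W M R n (i + 1) (j + 1)) *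
        (gy H M R n V (i + 1) (j + 1) - gy H M R n V i (j + 1)) =
      ∑ i ∈ Finset.range M, ∑ j ∈ Finset.range R,
        (PX n (i + 1) j - PX n (i + 1) (j + 1)) *
          (PY n V (i + 1) (j + 1) - PY n V i (j + 1)) := by
    rw [Finset.sum_range_succ]
    have e1 : ∑ j ∈ Finset.range (R + 2),
      (gx W M R n (M + 1) j - gx W M R n (M + 1) (j + 1)) *
        (gy H M R n V (M + 1) (j + 1) - gy H M R n V M (j + 1)) = 0 := by
      refine Finset.sum_eq_zero (fun j hj => ?_)
      rw [Finset.mem_range] at hj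
      rw [gy_right (by omega), gy_mid le_rfl (by omega), sub_self, mul_zero]
    rw [e1, add_zero]
    refine Finset.sum_congr rfl (fun i hi => ?_)
    rw [Finset.mem_range] at hi
    rw [Finset.sum_range_succ, Finset.sum_range_succ']
    have e2 : ∀ j ∈ Finset.range R,
        (gx W M R n (i + 1) (j + 1) - gx W M R n (i + 1) (j + 1 + 1)) *
        (gy H M R n V (i + 1) (j + 1 + 1) - gy H M R n V i (j + 1 + 1)) =
        (PX n (i + 1) j - PX n (i + 1) (j + 1)) *
          (PY n V (i + 1) (j + 1) - PY n V i (j + 1)) := by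
      intro j hj
      rw [Finset.mem_range] at hj
      rw [gx_mid (by omega) (by omega), gx_mid (by omega) (by omega),
        gy_mid (by omega) (by omega), gy_mid (by omega) (by omega)]
    rw [Finset.sum_congr rfl e2, gx_zero (by omega), gx_mid (by omega) (by omega : 0 ≤ R),
      gx_mid (by omega) (le_refl R)]
    have e3 : gx W M R n (i + 1) (R + 1 + 1) = PX n (i + 1) R := gx_top (by omega)
    rw [e3]
    ring
  have h4 : ∑ i ∈ Finset.range (M + 1 + 1), ∑ j ∈ Finset.range (R + 2 + 1),
      (gx W M R n (i + 1) j - gx W M R n i j) * (gy H M R n V i (j + 1) - gy H M R n V i j) =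
      ∑ i ∈ Finset.range (M + 1), (sd (n i 0) * PY n V i 0 +
        ∑ j ∈ Finset.range (R + 1), sd (n i j) ^ 2 + sd (n i R) * (H - PY n V i (R + 1))) +
      ((W - PX n (M + 1) 0) * PY n V M 0 +
      ∑ j ∈ Finset.range (R + 1), (W - PX n (M + 1) j) * sd (n M j) +
      (W - PX n (M + 1) R) * (H - PY n V M (R + 1))) := by
    rw [Finset.sum_range_succ, h2]
    congr 1
    refine Finset.sum_congr rfl (fun i hi => ?_)
    rw [Finset.mem_range] at hi
    exact h1 i (by omega)
  rw [h4, h3] at hA
  rw [Finset.sum_add_distrib, Finset.sum_add_distrib] at hA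
  have h5 : ∑ i ∈ Finset.range (M + 1), sd (n i 0) * PY n V i 0 =
      ∑ i ∈ Finset.range M, PY n V (i + 1) 0 * sd (n (i + 1) 0) := by
    rw [Finset.sum_range_succ']
    have : PY n V 0 0 = 0 := by simp [PY]
    rw [this, mul_zero, add_zero]
    exact Finset.sum_congr rfl (fun i _ => mul_comm _ _)
  have h6 : ∑ i ∈ Finset.range (M + 1), sd (n i R) * (H - PY n V i (R + 1)) =
      ∑ i ∈ Finset.range (M + 1), (H - PY n V i (R + 1)) * sd (n i R) :=
    Finset.sum_congr rfl (fun i _ => mul_comm _ _)
  rw [h5, h6] at hA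
  unfold pwList pwHole pwRight pwBot pwTop pwCorner
  rw [ar_append, ar_append, ar_append, ar_append, ar_map_range, ar_map_range, ar_map_range,
    ar_cons, ar_cons, ar_nil]
  have h7 : ar ((prs M R).map (fun q => (PX n (q.1 + 1) q.2 - PX n (q.1 + 1) (q.2 + 1),
      PY n V (q.1 + 1) (q.2 + 1) - PY n V q.1 (q.2 + 1)))) =
      ∑ i ∈ Finset.range M, ∑ j ∈ Finset.range R,
        (PX n (i + 1) j - PX n (i + 1) (j + 1)) *
          (PY n V (i + 1) (j + 1) - PY n V i (j + 1)) := by
    unfold ar
    rw [List.map_map, prs_sum]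
    rfl
  rw [h7]
  simp only
  linarith

/-- **The pinwheel block**, with the area identity. -/
theorem PW.pt (g : PW W H M R n V) : PT W H (pwList W H M R n V) (pwSet M R n) :=
  ⟨g.tiled, g.area⟩

end

end Pool.Agent.LibMoserF
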