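import Pool.Agent.LibMoserF.PinwheelArea
set_option autoImplicit false
namespace Pool.Agent.LibMoserF
open Classical Pool.Agent.LibMoser5

noncomputable section

/-! Hanging pinwheel strip: the indices `u 0 < u 1 < ...` in row-major order, `M+1` columns,
`R+1` rows, all columns end at the same height. -/

/-- row-major indexing -/
def rm (M : ℕ) (u : ℕ → ℕ) (i j : ℕ) : ℕ := u (j * (M + 1) + i)

/-- shifts of the columns -/
def hV (M R : ℕ) (u : ℕ → ℕ) (i : ℕ) : ℝ :=
  ∑ l ∈ Finset.range (R + 1), (sd (rm M u i l) - sd (rm M u (i + 1) l))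

/-- height of the strip -/
def hH (M R : ℕ) (u : ℕ → ℕ) : ℝ := ∑ l ∈ Finset.range (R + 1), sd (rm M u 0 l)

/-- width of the strip -/
def hW (M : ℕ) (u : ℕ → ℕ) : ℝ := ∑ k ∈ Finset.range (M + 1), sd (u k)

section
variable {M R : ℕ} {u : ℕ → ℕ}

theorem rm_lt {i j i' j' : ℕ} (hi : i ≤ M) (hi' : i' ≤ M) (hj' : j' ≤ R)
    (h : j < j' ∨ (j = j' ∧ i < i'))
    (hu : ∀ a b, a < b → b < (M + 1) * (R + 1) → u a < u b) :
    rm M u i j < rm M u i' j' := by
  unfold rm
  apply hu
  · rcases h with h | ⟨rfl, h⟩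
    · have : (j + 1) * (M + 1) ≤ j' * (M + 1) := Nat.mul_le_mul_right _ h
      nlinarith
    · omega
  · have : j' * (M + 1) ≤ R * (M + 1) := Nat.mul_le_mul_right _ hj'
    nlinarith

theorem sd_lt {a b : ℕ} (h : a < b) : sd b < sd a := by
  unfold sd
  have : (a : ℝ) < b := by exact_mod_cast h
  exact one_div_lt_one_div_of_lt (by positivity) (by linarith)

theorem rm_inj {i j i' j' : ℕ} (hi : i ≤ M) (hj : j ≤ R) (hi' : i' ≤ M) (hj' : j' ≤ R)
    (hu : ∀ a b, a < b → b < (M + 1) * (R + 1) → u a < u b)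
    (e : rm M u i j = rm M u i' j') : i = i' ∧ j = j' := by
  rcases lt_trichotomy j j' with h | h | h
  · exact absurd e (ne_of_lt (rm_lt hi hi' hj' (Or.inl h) hu))
  · rcases lt_trichotomy i i' with k | k | k
    · exact absurd e (ne_of_lt (rm_lt hi hi' hj' (Or.inr ⟨h, k⟩) hu))
    · exact ⟨k, h⟩
    · exact absurd e.symm (ne_of_lt (rm_lt hi' hi hj (Or.inr ⟨h.symm, k⟩) hu))
  · exact absurd e.symm (ne_of_lt (rm_lt hi' hi hj (Or.inl h) hu))

theorem PY_hang {i : ℕ} (hi : i ≤ M) : PY (rm M u) (hV M R u) i (R + 1) = hH M R u := by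
  unfold PY hH
  induction i with
  | zero => simp
  | succ i ih =>
    have h1 := ih (by omega)
    have h2 : hV M R u i = ∑ l ∈ Finset.range (R + 1), sd (rm M u i l) -
        ∑ l ∈ Finset.range (R + 1), sd (rm M u (i + 1) l) := by
      unfold hV
      rw [Finset.sum_sub_distrib]
    rw [Finset.sum_range_succ]
    linarith

/-- the hanging strip satisfies the hypotheses of the pinwheel block -/
theorem strip_PW {W : ℝ} (hu : ∀ a b, a < b → b < (M + 1) * (R + 1) → u a < u b)
    (hW' : hW M u ≤ W) : PW W (hH M R u) M R (rm M u) (hV M R u) where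
  hdec := by
    intro i hi j hj
    exact (rm_lt hi hi (by omega) (Or.inl (Nat.lt_succ_self j)) hu).le
  hV := by
    intro i hi j hj
    unfold hV
    apply Finset.sum_le_sum_of_subset_of_nonneg
    · intro l hl
      rw [Finset.mem_range] at hl ⊢
      omega
    · intro l hl _
      rw [Finset.mem_range] at hl
      have := sd_lt (rm_lt (M := M) (R := R) (u := u) hi.le
        (by omega : i + 1 ≤ M) (by omega : l ≤ R) (Or.inr ⟨rfl, Nat.lt_succ_self i⟩) hu)
      linarith
  hW := by
    unfold PX rm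
    unfold hW at hW'
    simpa using hW'
  hH := fun i hi => (PY_hang hi).le
  inj := by
    intro i hi j hj i' hi' j' hj' e
    exact rm_inj hi hj hi' hj' hu e

theorem pwSet_rm : pwSet M R (rm M u) = (Finset.range ((M + 1) * (R + 1))).image u := by
  ext k
  rw [mem_pwSet, Finset.mem_image]
  constructor
  · rintro ⟨i, hi, j, hj, rfl⟩
    refine ⟨j * (M + 1) + i, ?_, rfl⟩
    rw [Finset.mem_range]
    have : j * (M + 1) ≤ R * (M + 1) := Nat.mul_le_mul_right _ hj
    nlinarith
  · rintro ⟨a, ha, rfl⟩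
    rw [Finset.mem_range] at ha
    refine ⟨a % (M + 1), ?_, a / (M + 1), ?_, ?_⟩
    · exact Nat.lt_succ_iff.1 (Nat.mod_lt _ (Nat.succ_pos M))
    · exact Nat.lt_succ_iff.1 (Nat.div_lt_of_lt_mul ha)
    · unfold rm
      congr 1
      exact Nat.div_add_mod' a (M + 1)

/-- free rectangles of the hanging strip with its walls at `hW M u` and `hH M R u` -/
def stripList (M R : ℕ) (u : ℕ → ℕ) : List (ℝ × ℝ) :=
  pwHole M R (rm M u) (hV M R u) ++
    ((List.range R).map (fun j => (hW M u - PX (rm M u) (M + 1) (j + 1), sd (rm M u M (j + 1)))) ++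
      (pwBot M (rm M u) (hV M R u)))

theorem Tiled_dropzero {W H : ℝ} {a : ℝ × ℝ} {F G : List (ℝ × ℝ)} {P : Finset ℕ}
    (h : PT W H (F ++ a :: G) P) (ha : a.1 * a.2 = 0) : PT W H (F ++ G) P :=
  (h.perm List.perm_middle).drop ha

theorem dropzeros {W H : ℝ} {Z F : List (ℝ × ℝ)} {P : Finset ℕ}
    (h : PT W H (Z ++ F) P) (hZ : ∀ a ∈ Z, a.1 * a.2 = 0) : PT W H F P := by
  induction Z with
  | nil => exact h
  | cons a Z ih =>
    rw [List.cons_append] at h
    exact ih (h.drop (hZ a List.mem_cons_self)) (fun b hb => hZ b (List.mem_cons_of_mem _ hb))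

/-- **The hanging strip.** -/
theorem strip_pt (hu : ∀ a b, a < b → b < (M + 1) * (R + 1) → u a < u b) :
    PT (hW M u) (hH M R u) (stripList M R u)
      ((Finset.range ((M + 1) * (R + 1))).image u) := by
  have h := (strip_PW hu (le_refl (hW M u))).pt
  rw [pwSet_rm] at h
  have e0 : hW M u = PX (rm M u) (M + 1) 0 := by
    unfold PX rm hW
    simp
  unfold pwList at h
  -- pieces of area 0: the first right piece, the top pieces, the corners
  have e1 : pwRight (hW M u) M R (rm M u) =
      (hW M u - PX (rm M u) (M + 1) 0, sd (rm M u M 0)) ::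
        (List.range R).map (fun j => (hW M u - PX (rm M u) (M + 1) (j + 1),
          sd (rm M u M (j + 1)))) := by
    unfold pwRight
    rw [List.range_succ_eq_map, List.map_cons, List.map_map]
    rfl
  rw [e1] at h
  set A := pwHole M R (rm M u) (hV M R u)
  set B := (List.range R).map (fun j => (hW M u - PX (rm M u) (M + 1) (j + 1),
          sd (rm M u M (j + 1))))
  set C := pwBot M (rm M u) (hV M R u)
  have hT : ∀ a ∈ pwTop (hH M R u) M R (rm M u) (hV M R u), a.1 * a.2 = 0 := by
    intro a ha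
    unfold pwTop at ha
    obtain ⟨i, hi, rfl⟩ := List.mem_map.1 ha
    rw [List.mem_range] at hi
    simp only
    rw [PY_hang (by omega), sub_self, zero_mul]
  have hC : ∀ a ∈ pwCorner (hW M u) (hH M R u) M R (rm M u) (hV M R u), a.1 * a.2 = 0 := by
    intro a ha
    unfold pwCorner at ha
    simp only [List.mem_cons, List.not_mem_nil, or_false] at ha
    rcases ha with rfl | rfl
    · simp only
      rw [e0, sub_self, zero_mul]
    · simp only
      rw [PY_hang le_rfl, sub_self, mul_zero]
  set T := pwTop (hH M R u) M R (rm M u) (hV M R u)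
  set K := pwCorner (hW M u) (hH M R u) M R (rm M u) (hV M R u)
  have h1 : PT (hW M u) (hH M R u) (A ++ (B ++ (C ++ (T ++ K))))
      ((Finset.range ((M + 1) * (R + 1))).image u) := by
    refine Tiled_dropzero (a := (hW M u - PX (rm M u) (M + 1) 0, sd (rm M u M 0))) (by simpa using h) ?_
    simp only
    rw [e0, sub_self, zero_mul]
  have h2 : PT (hW M u) (hH M R u) ((T ++ K) ++ (A ++ (B ++ C)))
      ((Finset.range ((M + 1) * (R + 1))).image u) := by
    refine h1.perm ?_
    have : A ++ (B ++ (C ++ (T ++ K))) = (A ++ (B ++ C)) ++ (T ++ K) := by simp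
    rw [this]
    exact List.perm_append_comm
  refine dropzeros h2 ?_
  intro a ha
  rcases List.mem_append.1 ha with ha | ha
  · exact hT a ha
  · exact hC a ha

end

end

end Pool.Agent.LibMoserF
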