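import Pool.Agent.LibMoserF.FatStrip
import Pool.Agent.LibMoser5.Count
set_option autoImplicit false
namespace Pool.Agent.LibMoserF
open Classical Pool.Agent.LibMoser5

noncomputable section

theorem massI_nil (α β : ℝ) : massI α β [] = 0 := by simp [massI]

theorem massI_cons (α β : ℝ) (a : ℝ × ℝ) (L : List (ℝ × ℝ)) :
    massI α β (a :: L) = (if α < a.1 ∧ a.1 ≤ β then a.2 else 0) + massI α β L := by
  simp [massI]

theorem massI_append (α β : ℝ) (L L' : List (ℝ × ℝ)) :
    massI α β (L ++ L') = massI α β L + massI α β L' := by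
  simp [massI]

/-- mass of a list of pieces of length `≤ ℓ` in a thickness window -/
theorem massI_le_count {α β ℓ : ℝ} {L : List (ℝ × ℝ)} (hℓ : 0 ≤ ℓ) (hL : ∀ a ∈ L, a.2 ≤ ℓ) :
    massI α β L ≤ ((L.map Prod.fst).countP (fun x => α < x ∧ x ≤ β) : ℝ) * ℓ := by
  induction L with
  | nil => simp [massI]
  | cons a L ih =>
    rw [massI_cons, List.map_cons, List.countP_cons]
    have h1 := ih (fun b hb => hL b (List.mem_cons_of_mem _ hb))
    have h2 := hL a List.mem_cons_self
    by_cases h : α < a.1 ∧ a.1 ≤ β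
    · rw [if_pos h, if_pos (by simpa using h)]
      push_cast
      linarith
    · rw [if_neg h, if_neg (by simpa using h)]
      push_cast
      linarith

/-- spaced thicknesses -/
theorem massI_spaced {α β ℓ σ : ℝ} {L : List (ℝ × ℝ)} (hℓ : 0 ≤ ℓ) (hσ : 0 < σ) (hαβ : α ≤ β)
    (hL : ∀ a ∈ L, a.2 ≤ ℓ) (hs : (L.map Prod.fst).Pairwise (fun x y => x + σ ≤ y)) :
    massI α β L ≤ ((β - α) / σ + 1) * ℓ :=
  (massI_le_count hℓ hL).trans
    (mul_le_mul_of_nonneg_right (count_spaced _ _ _ _ hσ hαβ hs) hℓ)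

/-- nothing above the maximal thickness -/
theorem massI_zero {α β : ℝ} {L : List (ℝ × ℝ)} (h : ∀ a ∈ L, a.1 ≤ α) : massI α β L = 0 := by
  induction L with
  | nil => simp [massI]
  | cons a L ih =>
    rw [massI_cons, ih (fun b hb => h b (List.mem_cons_of_mem _ hb)), if_neg, add_zero]
    intro hc
    exact absurd hc.1 (not_lt.2 (h a List.mem_cons_self))

/-- nothing below the minimal thickness -/
theorem massI_zero' {α β : ℝ} {L : List (ℝ × ℝ)} (h : ∀ a ∈ L, β < a.1) : massI α β L = 0 := by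
  induction L with
  | nil => simp [massI]
  | cons a L ih =>
    rw [massI_cons, ih (fun b hb => h b (List.mem_cons_of_mem _ hb)), if_neg, add_zero]
    intro hc
    exact absurd hc.2 (not_le.2 (h a List.mem_cons_self))

theorem sd_sub {a b : ℕ} (h : a ≤ b) :
    ((b : ℝ) - a) * sd b ^ 2 ≤ sd a - sd b := by
  have h1 : (a : ℝ) ≤ b := by exact_mod_cast h
  have ha : (0 : ℝ) < (a : ℝ) + 1 / 2 := by positivity
  have hb : (0 : ℝ) < (b : ℝ) + 1 / 2 := by positivity
  unfold sd
  rw [div_sub_div _ _ ha.ne' hb.ne', div_pow, one_pow, mul_one_div,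
    div_le_div_iff₀ (by positivity) (by positivity)]
  nlinarith [mul_nonneg (sub_nonneg.2 h1) hb.le, mul_nonneg (mul_nonneg (sub_nonneg.2 h1) hb.le) (sub_nonneg.2 h1)]

section
variable {M R : ℕ} {u : ℕ → ℕ}

/-- the pieces at the right side of the strip (rows `(thickness, length)`), thin ones first -/
def stripRight (M R : ℕ) (u : ℕ → ℕ) : List (ℝ × ℝ) :=
  (List.range R).map (fun j => (hW M u - PX (rm M u) (M + 1) (j + 1), sd (rm M u M (j + 1))))

/-- the other pieces of the strip -/
def stripU (M R : ℕ) (u : ℕ → ℕ) : List (ℝ × ℝ) :=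
  pwHole M R (rm M u) (hV M R u) ++ pwBot M (rm M u) (hV M R u)

theorem stripList_perm : (stripList M R u).Perm (stripRight M R u ++ stripU M R u) := by
  unfold stripList stripU stripRight
  rw [← List.append_assoc, ← List.append_assoc]
  exact List.Perm.append_right _ List.perm_append_comm

/-- thickness of the right piece of row `j` -/
def thR (M : ℕ) (u : ℕ → ℕ) (j : ℕ) : ℝ := hW M u - PX (rm M u) (M + 1) j

theorem u_gap {a b L : ℕ} (hu : ∀ k l, k < l → l < L → u k < u l) (h : a ≤ b) (hb : b < L) :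
    u a + (b - a) ≤ u b := by
  induction b, h using Nat.le_induction with
  | base => simp
  | succ b hab ih =>
    have h1 := ih (by omega)
    have h2 := hu b (b + 1) (Nat.lt_succ_self b) hb
    omega

theorem thR_step {j : ℕ} (hu : ∀ k l, k < l → l < (M + 1) * (R + 1) → u k < u l) (hj : j < R) :
    thR M u j + ((M : ℝ) + 1) ^ 2 * sd (u ((M + 1) * (R + 1) - 1)) ^ 2 ≤ thR M u (j + 1) := by
  unfold thR
  have hlast : (j + 1) * (M + 1) + M < (M + 1) * (R + 1) := by
    have : (j + 1) * (M + 1) ≤ R * (M + 1) := Nat.mul_le_mul_right _ hj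
    nlinarith
  have h1 : ∀ k ∈ Finset.range (M + 1),
      ((M : ℝ) + 1) * sd (u ((M + 1) * (R + 1) - 1)) ^ 2 ≤ sd (rm M u k j) - sd (rm M u k (j + 1)) := by
    intro k hk
    rw [Finset.mem_range] at hk
    unfold rm
    have h2 : (j + 1) * (M + 1) + k < (M + 1) * (R + 1) := by omega
    have h3 : j * (M + 1) + k ≤ (j + 1) * (M + 1) + k := by
      have : j * (M + 1) ≤ (j + 1) * (M + 1) := Nat.mul_le_mul_right _ (Nat.le_succ j)
      omega
    have h4 := u_gap hu h3 h2
    have h5 : (j + 1) * (M + 1) + k - (j * (M + 1) + k) = M + 1 := by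
      have : (j + 1) * (M + 1) = j * (M + 1) + (M + 1) := by ring
      omega
    rw [h5] at h4
    have h6 : u (j * (M + 1) + k) ≤ u ((j + 1) * (M + 1) + k) := by omega
    refine le_trans ?_ (sd_sub h6)
    have h7 : ((M : ℝ) + 1) ≤ (u ((j + 1) * (M + 1) + k) : ℝ) - u (j * (M + 1) + k) := by
      have : ((u (j * (M + 1) + k) + (M + 1) : ℕ) : ℝ) ≤ (u ((j + 1) * (M + 1) + k) : ℝ) := by
        exact_mod_cast h4
      push_cast at this
      linarith
    have h8 : sd (u ((M + 1) * (R + 1) - 1)) ≤ sd (u ((j + 1) * (M + 1) + k)) := by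
      apply sd_anti
      rcases Nat.lt_or_ge ((j + 1) * (M + 1) + k) ((M + 1) * (R + 1) - 1) with h9 | h9
      · exact (hu _ _ h9 (by omega)).le
      · have : (j + 1) * (M + 1) + k = (M + 1) * (R + 1) - 1 := by omega
        rw [this]
    have h9 : sd (u ((M + 1) * (R + 1) - 1)) ^ 2 ≤ sd (u ((j + 1) * (M + 1) + k)) ^ 2 :=
      pow_le_pow_left₀ (sd_pos _).le h8 2
    have h10 : (0 : ℝ) ≤ (u ((j + 1) * (M + 1) + k) : ℝ) - u (j * (M + 1) + k) := by
      have : (0 : ℝ) ≤ (M : ℝ) + 1 := by positivity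
      linarith
    exact mul_le_mul h7 h9 (sq_nonneg _) h10
  have h2 := Finset.sum_le_sum h1
  rw [Finset.sum_const, Finset.card_range, nsmul_eq_mul, Finset.sum_sub_distrib] at h2
  push_cast at h2
  unfold PX
  linarith [sq ((M : ℝ) + 1)]

theorem thR_spaced (hu : ∀ k l, k < l → l < (M + 1) * (R + 1) → u k < u l) :
    ((stripRight M R u).map Prod.fst).Pairwise
      (fun x y => x + ((M : ℝ) + 1) ^ 2 * sd (u ((M + 1) * (R + 1) - 1)) ^ 2 ≤ y) := by
  have hσ : 0 ≤ ((M : ℝ) + 1) ^ 2 * sd (u ((M + 1) * (R + 1) - 1)) ^ 2 := by positivity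
  set σ := ((M : ℝ) + 1) ^ 2 * sd (u ((M + 1) * (R + 1) - 1)) ^ 2 with hσd
  have hmono : ∀ i j, i < j → j ≤ R → thR M u i + σ ≤ thR M u j := by
    intro i j hij hj
    induction j, hij using Nat.le_induction with
    | base => exact thR_step hu (by omega)
    | succ k hk ih =>
      have h1 := ih (by omega)
      have h2 := thR_step hu (j := k) (by omega)
      linarith
  unfold stripRight
  rw [List.map_map, List.pairwise_map]
  have : (List.range R).Pairwise (fun i j => i < j ∧ j < R) := by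
    have h1 := List.pairwise_lt_range (n := R)
    refine List.Pairwise.imp_of_mem ?_ h1
    intro a b ha hb hab
    exact ⟨hab, List.mem_range.1 hb⟩
  refine this.imp ?_
  intro i j hij
  exact hmono (i + 1) (j + 1) (by omega) (by omega)

/-- mass of the right pieces in a thickness window -/
theorem stripRight_mass {α β : ℝ} (hαβ : α ≤ β)
    (hu : ∀ k l, k < l → l < (M + 1) * (R + 1) → u k < u l) :
    massI α β (stripRight M R u) ≤
      ((β - α) / (((M : ℝ) + 1) ^ 2 * sd (u ((M + 1) * (R + 1) - 1)) ^ 2) + 1) * sd (u 0) := by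
  refine massI_spaced (sd_pos _).le ?_ hαβ ?_ (thR_spaced hu)
  · have := sd_pos (u ((M + 1) * (R + 1) - 1))
    positivity
  · intro a ha
    unfold stripRight at ha
    obtain ⟨j, hj, rfl⟩ := List.mem_map.1 ha
    rw [List.mem_range] at hj
    simp only
    unfold rm
    apply sd_anti
    have h1 : (j + 1) * (M + 1) + M < (M + 1) * (R + 1) := by
      have : (j + 1) * (M + 1) ≤ R * (M + 1) := Nat.mul_le_mul_right _ hj
      nlinarith
    exact (hu 0 _ (by positivity) h1).le

end

end

end Pool.Agent.LibMoserF
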