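import Pool.Agent.LibMoserF.FatFill
set_option autoImplicit false
namespace Pool.Agent.LibMoserF
open Classical Pool.Agent.LibMoser5

noncomputable section

/-- choice of the next strip with a given number `M + 1` of columns: the hypothesis `step` of
`fat_fill` -/
theorem strip_step {u : ℕ → ℕ} {L o M K : ℕ} {κ c η ρ a : ℝ}
    (hu : ∀ k l, k < l → l < L → u k < u l) (hL : o + (M + 1) * (K + 1) ≤ L)
    (hK : a < K * sd (u (o + (M + 1) * (K + 1) - 1)))
    (hη0 : 0 ≤ η) (hη : sd (u o) ≤ (1 + η) * sd (u (o + (M + 1) * (K + 1) - 1)))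
    (hρ1 : 1 < ρ) (hρ : ρ * sd (u o) ≤ a) (hc : (1 + 1 / (ρ - 1)) * (1 + η) ^ 2 ≤ c)
    (hW' : ((M : ℝ) + 1) * sd (u o) * κ ≤ a * (κ - 1)) (hκ : 1 ≤ κ) :
    ∃ R : ℕ, R < K ∧ a ≤ ((R : ℝ) + 2) * sd (u o) ∧
      o + (StripD.mk o M R).n ≤ L ∧ hH M R (shu u o) ≤ a ∧
        a - hH M R (shu u o) ≤ sd (u o) ∧
        hW M (shu u o) * a ≤ c * ∑ k ∈ Finset.range (StripD.mk o M R).n, sd (shu u o k) ^ 2 ∧
        hW M (shu u o) * κ ≤ a * (κ - 1) := by
  set L' := (M + 1) * (K + 1) with hL'
  have hL'pos : 0 < L' := by positivity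
  have hv : ∀ k l, k < l → l < L' → shu u o k < shu u o l := by
    intro k l hkl hl
    exact hu _ _ (by omega) (by omega)
  have hlast : shu u o (L' - 1) = u (o + L' - 1) := by
    unfold shu
    have : o + (L' - 1) = o + L' - 1 := by omega
    rw [this]
  have hzero : shu u o 0 = u o := by unfold shu; simp
  have h0 : sd (shu u o 0) ≤ a := by
    rw [hzero]
    have := sd_pos (u o)
    nlinarith
  obtain ⟨R, r1, r2, r3, r4⟩ := exists_rows (M := M) hv h0 K (by rw [hlast]; exact hK) le_rfl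
  have hn : (M + 1) * (R + 2) = (M + 1) * (R + 1) + (M + 1) := by ring
  have hvn : ∀ k l, k < l → l < (M + 1) * (R + 1) → shu u o k < shu u o l :=
    fun k l hkl hl => hv k l hkl (by omega)
  have hs1 : sd (shu u o ((M + 1) * (R + 1))) ≤ sd (u o) := by
    rw [← hzero]
    apply sd_anti
    exact (hv 0 _ (by positivity) (by omega)).le
  have h4 : a - hH M R (shu u o) ≤ sd (u o) := by linarith
  have hHle : hH M R (shu u o) ≤ ((R : ℝ) + 1) * sd (u o) := by
    unfold hH
    have : ∀ l ∈ Finset.range (R + 1), sd (rm M (shu u o) 0 l) ≤ sd (u o) := by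
      intro l hl
      rw [Finset.mem_range] at hl
      have := rm_le (M := M) (R := R) hvn (Nat.zero_le M) (by omega : l ≤ R)
      rwa [hzero] at this
    refine (Finset.sum_le_sum this).trans ?_
    rw [Finset.sum_const, Finset.card_range, nsmul_eq_mul]
    push_cast
    exact le_rfl
  have hR2 : a ≤ ((R : ℝ) + 2) * sd (u o) := by linarith
  have hρR : ρ ≤ (R : ℝ) + 2 := by
    have h5 : ρ * sd (u o) ≤ ((R : ℝ) + 2) * sd (u o) := by linarith
    exact le_of_mul_le_mul_right h5 (sd_pos _)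
  have hη' : sd (shu u o 0) ≤ (1 + η) * sd (shu u o ((M + 1) * (R + 1) - 1)) := by
    rw [hzero]
    refine hη.trans (mul_le_mul_of_nonneg_left ?_ (by linarith))
    rw [← hlast]
    apply sd_anti
    rcases Nat.lt_or_ge ((M + 1) * (R + 1) - 1) (L' - 1) with h9 | h9
    · exact (hv _ _ h9 (by omega)).le
    · have : (M + 1) * (R + 1) - 1 = L' - 1 := by omega
      rw [this]
  have hcc : ((R : ℝ) + 2) / (R + 1) * (1 + η) ^ 2 ≤ c := by
    refine le_trans (mul_le_mul_of_nonneg_right ?_ (sq_nonneg _)) hc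
    have h6 : (0 : ℝ) < (R : ℝ) + 1 := by positivity
    have h7 : (0 : ℝ) < ρ - 1 := by linarith
    have h8 : ((R : ℝ) + 2) / (R + 1) = 1 + 1 / ((R : ℝ) + 1) := by
      field_simp
      ring
    rw [h8]
    have h9 : 1 / ((R : ℝ) + 1) ≤ 1 / (ρ - 1) := one_div_le_one_div_of_le h7 (by linarith)
    linarith
  refine ⟨R, r2, hR2, ?_, r3, h4, ?_, ?_⟩
  · unfold StripD.n
    simp only
    omega
  · exact strip_area hvn (by rw [hzero]; linarith) hη' hη0 hcc
  · have hWle : hW M (shu u o) ≤ ((M : ℝ) + 1) * sd (u o) := by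
      unfold hW
      have : ∀ k ∈ Finset.range (M + 1), sd (shu u o k) ≤ sd (u o) := by
        intro k hk
        rw [Finset.mem_range] at hk
        rcases Nat.eq_zero_or_pos k with h | h
        · rw [h, hzero]
        · rw [← hzero]
          apply sd_anti
          exact (hv 0 k h (by omega)).le
      refine (Finset.sum_le_sum this).trans ?_
      rw [Finset.sum_const, Finset.card_range, nsmul_eq_mul]
      push_cast
      exact le_rfl
    have hκ0 : 0 ≤ κ := by linarith
    exact (mul_le_mul_of_nonneg_right hWle hκ0).trans hW'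

end

end Pool.Agent.LibMoserF
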