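import Pool.Agent.LibMoserF.StripMass
set_option autoImplicit false
namespace Pool.Agent.LibMoserF
open Classical Pool.Agent.LibMoser5

noncomputable section

/-- sum of the side lengths -/
def wt (L : List (ℝ × ℝ)) : ℝ := (L.map (fun d => d.1 + d.2)).sum

theorem wt_nil : wt [] = 0 := by simp [wt]

theorem wt_cons (a : ℝ × ℝ) (L : List (ℝ × ℝ)) : wt (a :: L) = a.1 + a.2 + wt L := by
  simp [wt]

theorem wt_append (L L' : List (ℝ × ℝ)) : wt (L ++ L') = wt L + wt L' := by
  simp [wt]

theorem wt_perm {L L' : List (ℝ × ℝ)} (h : L.Perm L') : wt L = wt L' := (h.map _).sum_eq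

section
variable {M R : ℕ} {u : ℕ → ℕ}

/-- total decrease of the sides in the strip -/
def dl (M R : ℕ) (u : ℕ → ℕ) : ℝ := sd (u 0) - sd (u ((M + 1) * (R + 1) - 1))

theorem idx_lt {i j : ℕ} (hi : i ≤ M) (hj : j ≤ R) : j * (M + 1) + i < (M + 1) * (R + 1) := by
  have : j * (M + 1) ≤ R * (M + 1) := Nat.mul_le_mul_right _ hj
  nlinarith

theorem rm_ge {i j : ℕ} (hu : ∀ k l, k < l → l < (M + 1) * (R + 1) → u k < u l)
    (hi : i ≤ M) (hj : j ≤ R) : sd (u ((M + 1) * (R + 1) - 1)) ≤ sd (rm M u i j) := by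
  unfold rm
  have h := idx_lt hi hj
  apply sd_anti
  rcases Nat.lt_or_ge (j * (M + 1) + i) ((M + 1) * (R + 1) - 1) with h9 | h9
  · exact (hu _ _ h9 (by omega)).le
  · have : j * (M + 1) + i = (M + 1) * (R + 1) - 1 := by omega
    rw [this]

theorem rm_le {i j : ℕ} (hu : ∀ k l, k < l → l < (M + 1) * (R + 1) → u k < u l)
    (hi : i ≤ M) (hj : j ≤ R) : sd (rm M u i j) ≤ sd (u 0) := by
  unfold rm
  have h := idx_lt hi hj
  apply sd_anti
  rcases Nat.eq_zero_or_pos (j * (M + 1) + i) with h9 | h9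
  · rw [h9]
  · exact (hu _ _ h9 h).le

theorem dl_nonneg (hu : ∀ k l, k < l → l < (M + 1) * (R + 1) → u k < u l) : 0 ≤ dl M R u := by
  unfold dl
  have h1 := rm_ge (M := M) (R := R) hu (Nat.zero_le M) (Nat.zero_le R)
  have h2 := rm_le (M := M) (R := R) hu (Nat.zero_le M) (Nat.zero_le R)
  linarith

theorem PX_diff {i : ℕ} (hu : ∀ k l, k < l → l < (M + 1) * (R + 1) → u k < u l)
    (hi : i ≤ M + 1) {j : ℕ} (hj : j ≤ R) :
    PX (rm M u) i 0 - PX (rm M u) i j ≤ i * dl M R u := by
  unfold PX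
  rw [← Finset.sum_sub_distrib]
  have h : ∀ k ∈ Finset.range i, sd (rm M u k 0) - sd (rm M u k j) ≤ dl M R u := by
    intro k hk
    rw [Finset.mem_range] at hk
    have h1 := rm_ge (M := M) (R := R) hu (by omega : k ≤ M) hj
    have h2 := rm_le (M := M) (R := R) hu (by omega : k ≤ M) (Nat.zero_le R)
    unfold dl
    linarith
  refine (Finset.sum_le_sum h).trans ?_
  rw [Finset.sum_const, Finset.card_range, nsmul_eq_mul]

theorem hW_eq : hW M u = PX (rm M u) (M + 1) 0 := by
  unfold PX rm hW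
  simp

theorem stripRight_thick {a : ℝ × ℝ} (hu : ∀ k l, k < l → l < (M + 1) * (R + 1) → u k < u l)
    (ha : a ∈ stripRight M R u) :
    0 < a.1 ∧ a.1 ≤ ((M : ℝ) + 1) * dl M R u ∧
      sd (u ((M + 1) * (R + 1) - 1)) ≤ a.2 ∧ a.2 ≤ sd (u 0) := by
  unfold stripRight at ha
  obtain ⟨j, hj, rfl⟩ := List.mem_map.1 ha
  rw [List.mem_range] at hj
  simp only
  refine ⟨?_, ?_, rm_ge hu le_rfl (by omega), rm_le hu le_rfl (by omega)⟩
  · have h1 : ∀ k : ℕ, k ≤ R → 0 < k → 0 < thR M u k := by
      intro k hk hk0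
      induction k, hk0 using Nat.le_induction with
      | base =>
        have h2 := thR_step (M := M) (R := R) hu (j := 0) (by omega)
        have h3 : thR M u 0 = 0 := by
          unfold thR
          rw [hW_eq, sub_self]
        have h4 := sd_pos (u ((M + 1) * (R + 1) - 1))
        have h5 : 0 < ((M : ℝ) + 1) ^ 2 * sd (u ((M + 1) * (R + 1) - 1)) ^ 2 := by positivity
        rw [h3] at h2
        simp only [zero_add] at h2 ⊢
        linarith
      | succ k hk1 ih =>
        have h2 := thR_step (M := M) (R := R) hu (j := k) (by omega)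
        have h3 := ih (by omega)
        have h5 : 0 ≤ ((M : ℝ) + 1) ^ 2 * sd (u ((M + 1) * (R + 1) - 1)) ^ 2 := by positivity
        linarith
    exact h1 (j + 1) (by omega) (by omega)
  · have h := PX_diff (M := M) (R := R) hu (le_refl (M + 1)) (j := j + 1) (by omega)
    rw [hW_eq]
    push_cast at h
    exact h

theorem hV_nonneg (hu : ∀ k l, k < l → l < (M + 1) * (R + 1) → u k < u l) {i : ℕ} (hi : i < M) :
    0 ≤ hV M R u i := by
  unfold hV
  refine Finset.sum_nonneg (fun l hl => ?_)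
  rw [Finset.mem_range] at hl
  have := sd_lt (rm_lt (M := M) (R := R) (u := u) hi.le
        (by omega : i + 1 ≤ M) (by omega : l ≤ R) (Or.inr ⟨rfl, Nat.lt_succ_self i⟩) hu)
  linarith

/-- the total shift of the columns -/
theorem hV_sum (hu : ∀ k l, k < l → l < (M + 1) * (R + 1) → u k < u l) :
    ∑ i ∈ Finset.range M, hV M R u i ≤ dl M R u := by
  unfold hV
  rw [Finset.sum_comm]
  have h1 : ∀ l ∈ Finset.range (R + 1), ∑ i ∈ Finset.range M,
      (sd (rm M u i l) - sd (rm M u (i + 1) l)) = sd (rm M u 0 l) - sd (rm M u M l) := by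
    intro l _
    rw [Finset.sum_range_sub']
  rw [Finset.sum_congr rfl h1]
  -- interleaving
  have h2 : ∀ r ≤ R, ∑ l ∈ Finset.range (r + 1), (sd (rm M u 0 l) - sd (rm M u M l)) ≤
      sd (u 0) - sd (rm M u M r) := by
    intro r hr
    induction r with
    | zero =>
      simp [rm]
    | succ r ih =>
      rw [Finset.sum_range_succ]
      have h3 := ih (by omega)
      have h4 : sd (rm M u 0 (r + 1)) ≤ sd (rm M u M r) :=
        (sd_lt (rm_lt (M := M) (R := R) (u := u) le_rfl (Nat.zero_le M) hr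
          (Or.inl (Nat.lt_succ_self r)) hu)).le
      linarith
  refine (h2 R le_rfl).trans ?_
  have h5 := rm_ge (M := M) (R := R) hu le_rfl le_rfl
  unfold dl
  linarith

theorem wt_pwHole (hu : ∀ k l, k < l → l < (M + 1) * (R + 1) → u k < u l) :
    wt (pwHole M R (rm M u) (hV M R u)) ≤ ((M : ℝ) ^ 2 + R) * dl M R u := by
  unfold wt pwHole
  rw [List.map_map, prs_sum]
  have h0 := dl_nonneg (M := M) (R := R) hu
  have h1 : ∀ i ∈ Finset.range M, ∑ j ∈ Finset.range R,
      ((fun d : ℝ × ℝ => d.1 + d.2) ∘ fun q : ℕ × ℕ =>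
        (PX (rm M u) (q.1 + 1) q.2 - PX (rm M u) (q.1 + 1) (q.2 + 1),
        PY (rm M u) (hV M R u) (q.1 + 1) (q.2 + 1) - PY (rm M u) (hV M R u) q.1 (q.2 + 1))) (i, j) ≤
      M * dl M R u + R * hV M R u i := by
    intro i hi
    rw [Finset.mem_range] at hi
    simp only [Function.comp]
    rw [Finset.sum_add_distrib]
    apply add_le_add
    · rw [Finset.sum_range_sub' (fun j => PX (rm M u) (i + 1) j)]
      refine (PX_diff (M := M) (R := R) hu (by omega : i + 1 ≤ M + 1) le_rfl).trans ?_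
      refine mul_le_mul_of_nonneg_right ?_ h0
      exact_mod_cast hi
    · have h2 : ∀ j ∈ Finset.range R,
          PY (rm M u) (hV M R u) (i + 1) (j + 1) - PY (rm M u) (hV M R u) i (j + 1) ≤
            hV M R u i := by
        intro j hj
        rw [Finset.mem_range] at hj
        unfold PY
        rw [Finset.sum_range_succ]
        have h3 : ∑ l ∈ Finset.range (j + 1), sd (rm M u (i + 1) l) ≤
            ∑ l ∈ Finset.range (j + 1), sd (rm M u i l) := by
          refine Finset.sum_le_sum (fun l hl => ?_)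
          rw [Finset.mem_range] at hl
          exact (sd_lt (rm_lt (M := M) (R := R) (u := u) hi.le
            (by omega : i + 1 ≤ M) (by omega : l ≤ R) (Or.inr ⟨rfl, Nat.lt_succ_self i⟩) hu)).le
        linarith
      refine (Finset.sum_le_sum h2).trans ?_
      rw [Finset.sum_const, Finset.card_range, nsmul_eq_mul]
  refine (Finset.sum_le_sum h1).trans ?_
  rw [Finset.sum_add_distrib, Finset.sum_const, Finset.card_range, nsmul_eq_mul, ← Finset.mul_sum]
  have h2 := hV_sum (M := M) (R := R) hu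
  have h3 : (R : ℝ) * ∑ i ∈ Finset.range M, hV M R u i ≤ R * dl M R u :=
    mul_le_mul_of_nonneg_left h2 (Nat.cast_nonneg R)
  nlinarith

theorem wt_pwBot (hu : ∀ k l, k < l → l < (M + 1) * (R + 1) → u k < u l) :
    wt (pwBot M (rm M u) (hV M R u)) ≤ M * (dl M R u + sd (u 0)) := by
  unfold wt pwBot
  rw [List.map_map]
  have h1 : ∀ a ∈ (List.range M).map ((fun d : ℝ × ℝ => d.1 + d.2) ∘
      fun i => (PY (rm M u) (hV M R u) (i + 1) 0, sd (rm M u (i + 1) 0))), a ≤ dl M R u + sd (u 0) := by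
    intro a ha
    obtain ⟨i, hi, rfl⟩ := List.mem_map.1 ha
    rw [List.mem_range] at hi
    simp only [Function.comp]
    apply add_le_add
    · unfold PY
      rw [Finset.sum_range_zero, add_zero]
      refine le_trans ?_ (hV_sum (M := M) (R := R) hu)
      refine Finset.sum_le_sum_of_subset_of_nonneg ?_ ?_
      · intro k hk
        rw [Finset.mem_range] at hk ⊢
        omega
      · intro k hk _
        rw [Finset.mem_range] at hk
        exact hV_nonneg hu hk
    · exact rm_le hu (by omega) (Nat.zero_le R)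
  have h2 := List.sum_le_card_nsmul _ _ h1
  rw [List.length_map, List.length_range, nsmul_eq_mul] at h2
  exact h2

/-- the weight of the other pieces of the strip -/
theorem wt_stripU (hu : ∀ k l, k < l → l < (M + 1) * (R + 1) → u k < u l) :
    wt (stripU M R u) ≤ ((M : ℝ) ^ 2 + M + R) * dl M R u + M * sd (u 0) := by
  unfold stripU
  rw [wt_append]
  have h1 := wt_pwHole (M := M) (R := R) hu
  have h2 := wt_pwBot (M := M) (R := R) hu
  linarith

/-- all sides are nonnegative -/
theorem stripU_nonneg {a : ℝ × ℝ} (hu : ∀ k l, k < l → l < (M + 1) * (R + 1) → u k < u l)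
    (ha : a ∈ stripU M R u) : 0 ≤ a.1 ∧ 0 ≤ a.2 := by
  have g := strip_PW (M := M) (R := R) (u := u) hu (le_refl (hW M u))
  unfold stripU at ha
  rcases List.mem_append.1 ha with ha | ha
  · unfold pwHole at ha
    obtain ⟨q, hq, rfl⟩ := List.mem_map.1 ha
    rw [mem_prs] at hq
    simp only
    have h1 := g.PX_anti (i := q.1 + 1) (j := q.2) (by omega) hq.2
    have h2 := g.PY_mono (i := q.1) (j := q.2 + 1) hq.1 (by omega)
    constructor <;> linarith
  · unfold pwBot at ha
    obtain ⟨i, hi, rfl⟩ := List.mem_map.1 ha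
    rw [List.mem_range] at hi
    exact ⟨g.PY_nonneg (by omega), (sd_pos _).le⟩

end

end

end Pool.Agent.LibMoserF
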