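import Pool.Agent.LibMoser5.Fill
set_option autoImplicit false
namespace Pool.Agent.LibMoserF
open Classical Pool.Agent.LibMoser5

/-! Substitution of a tiling into a free rectangle of another tiling. -/

/-- transposed box -/
def tr (b : Box) : Box := ⟨b.y, b.x, b.h, b.w⟩

/-- translated box -/
def sh (u v : ℝ) (b : Box) : Box := ⟨b.x + u, b.y + v, b.w, b.h⟩

theorem sep_symm {b b' : Box} (h : b.Sep b') : b'.Sep b := Geo_sep_symm h

theorem tr_sep {b b' : Box} (h : b.Sep b') : (tr b).Sep (tr b') := by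
  rcases h with h | h | h | h
  · exact Or.inr (Or.inr (Or.inl h))
  · exact Or.inr (Or.inr (Or.inr h))
  · exact Or.inl h
  · exact Or.inr (Or.inl h)

theorem sh_sep {u v : ℝ} {b b' : Box} (h : b.Sep b') : (sh u v b).Sep (sh u v b') := by
  rcases h with h | h | h | h
  · left; simp only [sh]; linarith
  · right; left; simp only [sh]; linarith
  · right; right; left; simp only [sh]; linarith
  · right; right; right; simp only [sh]; linarith

theorem tr_dims {b : Box} {d : ℝ × ℝ} (h : b.Dims d) : (tr b).Dims d := by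
  rcases h with ⟨h1, h2⟩ | ⟨h1, h2⟩
  · exact Or.inr ⟨h2, h1⟩
  · exact Or.inl ⟨h2, h1⟩

theorem sh_dims {u v : ℝ} {b : Box} {d : ℝ × ℝ} (h : b.Dims d) : (sh u v b).Dims d := h

theorem tr_inside {W H : ℝ} {b : Box} (h : b.Inside W H) : (tr b).Inside H W := by
  obtain ⟨h1, h2, h3, h4, h5, h6⟩ := h
  exact ⟨h2, h1, h5, h6, h3, h4⟩

theorem forall2_map {f : Box → Box} {B : List Box} {F : List (ℝ × ℝ)}
    (hf : ∀ b d, b.Dims d → (f b).Dims d) (h : List.Forall₂ Box.Dims B F) :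
    List.Forall₂ Box.Dims (B.map f) F := by
  rw [List.forall₂_map_left_iff]
  exact h.imp (fun b d hb => hf b d hb)

theorem Tiled.transpose {W H : ℝ} {F : List (ℝ × ℝ)} {P : Finset ℕ} (h : Tiled W H F P) :
    Tiled H W F P := by
  obtain ⟨B, p, h1, h2, h3, h4, h5, h6⟩ := h
  have e : ∀ n, sq n ((p n).2, (p n).1) = tr (sq n (p n)) := fun n => rfl
  refine ⟨B.map tr, fun n => ((p n).2, (p n).1), forall2_map (fun b d => tr_dims) h1,
    ?_, ?_, ?_, ?_, ?_⟩
  · intro b hb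
    obtain ⟨c, hc, rfl⟩ := List.mem_map.1 hb
    exact tr_inside (h2 c hc)
  · rw [List.pairwise_map]
    exact h3.imp (fun {a b} hab => tr_sep hab)
  · intro n hn
    exact tr_inside (h4 n hn)
  · intro b hb n hn
    obtain ⟨c, hc, rfl⟩ := List.mem_map.1 hb
    exact tr_sep (h5 c hc n hn)
  · intro m hm n hn hmn
    exact tr_sep (h6 m hm n hn hmn)

/-- a box inside the frame `[0,w]×[0,h]`, moved into the box `c` with dimensions `w × h`, is
separated from everything `c` is separated from -/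
theorem sep_of_inside {c b e : Box} (h : c.Sep e) (hb : b.Inside c.w c.h) :
    (sh c.x c.y b).Sep e := by
  obtain ⟨h1, h2, h3, h4, h5, h6⟩ := hb
  refine Geo_sep_sub h ?_ ?_ ?_ ?_ <;> simp only [sh] <;> linarith

theorem Tiled.subst_aux {W H : ℝ} {F F' : List (ℝ × ℝ)} {P P' : Finset ℕ}
    {B0 B' : List Box} {c : Box} {p p' : ℕ → ℝ × ℝ}
    (hB0 : List.Forall₂ Box.Dims B0 F)
    (h2 : ∀ b ∈ c :: B0, b.Inside W H) (h3 : (c :: B0).Pairwise Box.Sep)
    (h4 : ∀ n ∈ P, (sq n (p n)).Inside W H)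
    (h5 : ∀ b ∈ c :: B0, ∀ n ∈ P, b.Sep (sq n (p n)))
    (h6 : ∀ m ∈ P, ∀ n ∈ P, m ≠ n → (sq m (p m)).Sep (sq n (p n)))
    (g1 : List.Forall₂ Box.Dims B' F')
    (g2 : ∀ b ∈ B', b.Inside c.w c.h) (g3 : B'.Pairwise Box.Sep)
    (g4 : ∀ n ∈ P', (sq n (p' n)).Inside c.w c.h)
    (g5 : ∀ b ∈ B', ∀ n ∈ P', b.Sep (sq n (p' n)))
    (g6 : ∀ m ∈ P', ∀ n ∈ P', m ≠ n → (sq m (p' m)).Sep (sq n (p' n)))
    (hP : Disjoint P P') : Tiled W H (F' ++ F) (P ∪ P') := by
  have hc := h2 c List.mem_cons_self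
  have hins : ∀ b : Box, b.Inside c.w c.h → (sh c.x c.y b).Inside W H := by
    intro b hb
    obtain ⟨i1, i2, i3, i4, i5, i6⟩ := hb
    obtain ⟨j1, j2, j3, j4, j5, j6⟩ := hc
    refine ⟨i1, i2, ?_, ?_, ?_, ?_⟩ <;> simp only [sh] <;> linarith
  rw [List.pairwise_cons] at h3
  let q : ℕ → ℝ × ℝ := fun n => if n ∈ P' then ((p' n).1 + c.x, (p' n).2 + c.y) else p n
  have hq' : ∀ n ∈ P', sq n (q n) = sh c.x c.y (sq n (p' n)) := by
    intro n hn
    have : q n = ((p' n).1 + c.x, (p' n).2 + c.y) := if_pos hn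
    rw [this]
    rfl
  have hq : ∀ n ∈ P, sq n (q n) = sq n (p n) := by
    intro n hn
    have : q n = p n := if_neg (Finset.disjoint_left.1 hP hn)
    rw [this]
  refine ⟨B'.map (sh c.x c.y) ++ B0, q, ?_, ?_, ?_, ?_, ?_, ?_⟩
  · exact List.rel_append (forall2_map (fun b d hb => sh_dims hb) g1) hB0
  · intro b hb
    rcases List.mem_append.1 hb with hb | hb
    · obtain ⟨b', hb', rfl⟩ := List.mem_map.1 hb
      exact hins b' (g2 b' hb')
    · exact h2 b (List.mem_cons_of_mem _ hb)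
  · rw [List.pairwise_append]
    refine ⟨?_, h3.2, ?_⟩
    · rw [List.pairwise_map]
      exact g3.imp (fun {a b} hab => sh_sep hab)
    · intro a ha b hb
      obtain ⟨a', ha', rfl⟩ := List.mem_map.1 ha
      exact sep_of_inside (h3.1 b hb) (g2 a' ha')
  · intro n hn
    rcases Finset.mem_union.1 hn with hn | hn
    · rw [hq n hn]; exact h4 n hn
    · rw [hq' n hn]; exact hins _ (g4 n hn)
  · intro b hb n hn
    rcases List.mem_append.1 hb with hb | hb
    · obtain ⟨b', hb', rfl⟩ := List.mem_map.1 hb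
      rcases Finset.mem_union.1 hn with hn | hn
      · rw [hq n hn]
        exact sep_of_inside (h5 c List.mem_cons_self n hn) (g2 b' hb')
      · rw [hq' n hn]
        exact sh_sep (g5 b' hb' n hn)
    · rcases Finset.mem_union.1 hn with hn | hn
      · rw [hq n hn]
        exact h5 b (List.mem_cons_of_mem _ hb) n hn
      · rw [hq' n hn]
        exact sep_symm (sep_of_inside (h3.1 b hb) (g4 n hn))
  · intro m hm n hn hmn
    rcases Finset.mem_union.1 hm with hm | hm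
    · rcases Finset.mem_union.1 hn with hn | hn
      · rw [hq m hm, hq n hn]
        exact h6 m hm n hn hmn
      · rw [hq m hm, hq' n hn]
        exact sep_symm (sep_of_inside (h5 c List.mem_cons_self m hm) (g4 n hn))
    · rcases Finset.mem_union.1 hn with hn | hn
      · rw [hq' m hm, hq n hn]
        exact sep_of_inside (h5 c List.mem_cons_self n hn) (g4 m hm)
      · rw [hq' m hm, hq' n hn]
        exact sh_sep (g6 m hm n hn hmn)

/-- **Substitution.**  A free rectangle with dimensions `d` is replaced by a tiling of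
`[0,d.1]×[0,d.2]`. -/
theorem Tiled.subst {W H : ℝ} {d : ℝ × ℝ} {F F' : List (ℝ × ℝ)} {P P' : Finset ℕ}
    (h : Tiled W H (d :: F) P) (h' : Tiled d.1 d.2 F' P') (hP : Disjoint P P') :
    Tiled W H (F' ++ F) (P ∪ P') := by
  obtain ⟨B, p, h1, h2, h3, h4, h5, h6⟩ := h
  rw [List.forall₂_cons_right_iff] at h1
  obtain ⟨c, B0, hb0, hB0, rfl⟩ := h1
  rcases hb0 with ⟨e1, e2⟩ | ⟨e1, e2⟩
  · obtain ⟨B', p', g1, g2, g3, g4, g5, g6⟩ := h'
    rw [← e1, ← e2] at g2 g4
    exact Tiled.subst_aux hB0 h2 h3 h4 h5 h6 g1 g2 g3 g4 g5 g6 hP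
  · obtain ⟨B', p', g1, g2, g3, g4, g5, g6⟩ := Tiled.transpose h'
    rw [← e1, ← e2] at g2 g4
    exact Tiled.subst_aux hB0 h2 h3 h4 h5 h6 g1 g2 g3 g4 g5 g6 hP

theorem forall2_sublist {B : List Box} {F F' : List (ℝ × ℝ)} (h : List.Forall₂ Box.Dims B F)
    (hs : F'.Sublist F) : ∃ B' : List Box, B'.Sublist B ∧ List.Forall₂ Box.Dims B' F' := by
  induction hs generalizing B with
  | slnil => exact ⟨B, List.Sublist.refl _, h⟩
  | cons a _ ih =>
    rw [List.forall₂_cons_right_iff] at h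
    obtain ⟨c, B0, _, hB0, rfl⟩ := h
    obtain ⟨B1, k1, k2⟩ := ih hB0
    exact ⟨B1, k1.cons _, k2⟩
  | cons_cons a _ ih =>
    rw [List.forall₂_cons_right_iff] at h
    obtain ⟨c, B0, hc, hB0, rfl⟩ := h
    obtain ⟨B1, k1, k2⟩ := ih hB0
    exact ⟨c :: B1, k1.cons_cons _, List.Forall₂.cons hc k2⟩

/-- free rectangles can be forgotten -/
theorem Tiled.sublist {W H : ℝ} {F F' : List (ℝ × ℝ)} {P : Finset ℕ}
    (h : Tiled W H F P) (hs : F'.Sublist F) : Tiled W H F' P := by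
  obtain ⟨B, p, h1, h2, h3, h4, h5, h6⟩ := h
  obtain ⟨B', k1, k2⟩ := forall2_sublist h1 hs
  exact ⟨B', p, k2, fun b hb => h2 b (k1.subset hb), h3.sublist k1, h4,
    fun b hb => h5 b (k1.subset hb), h6⟩

end Pool.Agent.LibMoserF
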